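import Mathlib
import Pool.Agent.P.MP_5b4d81_al.Defs

-- part Pool.Agent.P.MP_5b4d81_al.Series
section

set_option autoImplicit false

namespace Pool.Agent.P.MP_5b4d81_al

open Subgroup

universe u

variable {G : Type u} [Group G]

/-- all subgroups of `K` are finitely generated -/
def Noeth (K : Subgroup G) : Prop := ∀ H : Subgroup G, H ≤ K → H.FG

lemma normal_of_central {K L : Subgroup G} (hKL : K ≤ L)
    (h : ∀ g, ∀ x ∈ L, g * x * g⁻¹ * x⁻¹ ∈ K) : L.Normal :=
  ⟨fun x hx g => by simpa using L.mul_mem (hKL (h g x hx)) hx⟩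

lemma mem_sup_zpowers {K : Subgroup G} [K.Normal] {t x : G} :
    x ∈ K ⊔ zpowers t ↔ ∃ c : ℤ, (t ^ c)⁻¹ * x ∈ K := by
  constructor
  · intro hx
    rw [sup_comm, ← SetLike.mem_coe, Subgroup.mul_normal] at hx
    obtain ⟨_, ⟨c, rfl⟩, k, hk, rfl⟩ := hx
    exact ⟨c, by simpa using hk⟩
  · rintro ⟨c, hc⟩
    have := Subgroup.mul_mem _ (mem_sup_right (S := K) (zpow_mem_zpowers t c))
      (mem_sup_left (T := zpowers t) hc)
    simpa using this

lemma Noeth.step {K : Subgroup G} [K.Normal] (hK : Noeth K) (t : G) : Noeth (K ⊔ zpowers t) := by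
  intro H hH
  let π := QuotientGroup.mk' K
  have hπ : ∀ x c, (t ^ c)⁻¹ * x ∈ K ↔ π x = π t ^ (c : ℤ) := fun x c => by
    rw [← map_zpow, eq_comm]; exact QuotientGroup.eq.symm
  let D : AddSubgroup ℤ :=
    { carrier := {c | ∃ x ∈ H, π x = π t ^ c}
      zero_mem' := ⟨1, H.one_mem, by simp⟩
      add_mem' := by
        rintro a b ⟨x, hx, ha⟩ ⟨y, hy, hb⟩
        exact ⟨x * y, H.mul_mem hx hy, by rw [map_mul, ha, hb, zpow_add]⟩
      neg_mem' := by
        rintro a ⟨x, hx, ha⟩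
        exact ⟨x⁻¹, H.inv_mem hx, by rw [map_inv, ha, zpow_neg]⟩ }
  obtain ⟨d, hd⟩ := Int.subgroup_cyclic D
  have hdD : d ∈ D := by rw [hd]; exact AddSubgroup.subset_closure rfl
  obtain ⟨x₀, hx₀, hx₀d⟩ := hdD
  have h1 : (H ⊓ K).FG := hK _ inf_le_right
  have h2 : H = (H ⊓ K) ⊔ zpowers x₀ := by
    refine le_antisymm (fun x hx => ?_) (sup_le inf_le_left (by simpa using hx₀))
    obtain ⟨c, hc⟩ := mem_sup_zpowers.1 (hH hx)
    have hcD : c ∈ D := ⟨x, hx, (hπ x c).1 hc⟩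
    rw [hd, AddSubgroup.mem_closure_singleton] at hcD
    obtain ⟨a, rfl⟩ := hcD
    have h3 : (x₀ ^ a)⁻¹ * x ∈ H ⊓ K := by
      refine ⟨H.mul_mem (H.inv_mem (H.zpow_mem hx₀ a)) hx, ?_⟩
      refine QuotientGroup.eq.1 ?_
      change π (x₀ ^ a) = π x
      rw [map_zpow, hx₀d, (hπ x _).1 hc, ← zpow_mul, smul_eq_mul, mul_comm]
    have := Subgroup.mul_mem _ (mem_sup_right (S := H ⊓ K) (zpow_mem_zpowers x₀ a))
      (mem_sup_left (T := zpowers x₀) h3)
    simpa using this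
  rw [h2]
  refine h1.sup ?_
  exact ⟨{x₀}, by simp [zpowers_eq_closure]⟩

lemma Noeth.steps {K : Subgroup G} (hK : Noeth K) (T : Finset G) (hn : K.Normal)
    (hT : ∀ g, ∀ t ∈ T, g * t * g⁻¹ * t⁻¹ ∈ K) : Noeth (K ⊔ closure (T : Set G)) := by
  classical
  induction T using Finset.induction_on generalizing K with
  | empty => simpa using hK
  | insert t T ht ih =>
    have h1 : (K ⊔ zpowers t).Normal := by
      refine ⟨fun x hx g => ?_⟩
      obtain ⟨c, hc⟩ := mem_sup_zpowers.1 hx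
      refine mem_sup_zpowers.2 ⟨c, ?_⟩
      have h2 : (QuotientGroup.mk' K g) * (QuotientGroup.mk' K t) =
          (QuotientGroup.mk' K t) * (QuotientGroup.mk' K g) := by
        have := (QuotientGroup.eq_one_iff _).2 (hT g t (Finset.mem_insert_self _ _))
        rw [← mul_inv_eq_one, mul_inv_rev, ← mul_assoc]
        simpa using this
      have h3 : QuotientGroup.mk' K x = QuotientGroup.mk' K t ^ c := by
        rw [← map_zpow]; exact (QuotientGroup.eq.2 hc).symm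
      refine QuotientGroup.eq.1 ?_
      change QuotientGroup.mk' K (t ^ c) = QuotientGroup.mk' K (g * x * g⁻¹)
      rw [map_mul, map_mul, map_inv, h3, map_zpow, (Commute.zpow_right h2 c).eq]
      simp
    have := ih (hK.step t) h1 fun g s hs => mem_sup_left (hT g s (Finset.mem_insert_of_mem hs))
    rwa [sup_assoc, zpowers_eq_closure, ← Subgroup.closure_union, Set.singleton_union,
      ← Finset.coe_insert] at this

lemma lcs_comm (j : ℕ) (g x : G) (hx : x ∈ (⊤ : Subgroup G).lowerCentralSeries j) :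
    g * x * g⁻¹ * x⁻¹ ∈ (⊤ : Subgroup G).lowerCentralSeries (j + 1) := by
  have : (x * g * x⁻¹ * g⁻¹)⁻¹ ∈ (⊤ : Subgroup G).lowerCentralSeries (j + 1) :=
    Subgroup.inv_mem _ (Subgroup.commutator_mem_commutator hx (mem_top g))
  rwa [show (x * g * x⁻¹ * g⁻¹)⁻¹ = g * x * g⁻¹ * x⁻¹ by group] at this

lemma lcs_gen (S : Finset G) (hS : closure (S : Set G) = ⊤) (j : ℕ) :
    ∃ T : Finset G, (∀ t ∈ T, t ∈ (⊤ : Subgroup G).lowerCentralSeries j) ∧
      (⊤ : Subgroup G).lowerCentralSeries j ≤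
        (⊤ : Subgroup G).lowerCentralSeries (j + 1) ⊔ closure (T : Set G) := by
  classical
  induction j with
  | zero => exact ⟨S, by simp, by simp [hS]⟩
  | succ j ih =>
    obtain ⟨T, hT, hle⟩ := ih
    refine ⟨Finset.image₂ (fun s t => s * t * s⁻¹ * t⁻¹) S T, ?_, ?_⟩
    · intro x hx
      obtain ⟨s, -, t, ht, rfl⟩ := Finset.mem_image₂.1 hx
      exact lcs_comm j s t (hT t ht)
    · set L := (⊤ : Subgroup G).lowerCentralSeries (j + 1 + 1) ⊔
        closure ((Finset.image₂ (fun s t => s * t * s⁻¹ * t⁻¹) S T : Finset G) : Set G) with hL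
      have hLle : L ≤ (⊤ : Subgroup G).lowerCentralSeries (j + 1) := by
        refine sup_le (Subgroup.lowerCentralSeries_antitone _ (Nat.le_succ _)) ((closure_le _).2 ?_)
        intro x hx
        obtain ⟨s, -, t, ht, rfl⟩ := Finset.mem_image₂.1 hx
        exact lcs_comm j s t (hT t ht)
      have hLn : L.Normal := normal_of_central le_sup_left fun g x hx => lcs_comm _ g x (hLle hx)
      let π := QuotientGroup.mk' L
      have hπ : ∀ g x, g * x * g⁻¹ * x⁻¹ ∈ L ↔ Commute (π g) (π x) := fun g x => by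
        rw [← QuotientGroup.eq_one_iff, commute_iff_eq, ← mul_inv_eq_one (a := π g * π x),
          mul_inv_rev, ← mul_assoc]
        simp [π]
      have h1 : ∀ s ∈ S, ∀ x ∈ (⊤ : Subgroup G).lowerCentralSeries j, Commute (π s) (π x) := by
        intro s hs x hx
        have : (⊤ : Subgroup G).lowerCentralSeries (j + 1) ⊔ closure (T : Set G) ≤
            (centralizer {π s}).comap π := by
          refine sup_le (fun y hy => ?_) ((closure_le _).2 fun y hy => ?_)
          · simpa [mem_centralizer_iff] using ((hπ s y).1 (mem_sup_left (lcs_comm _ s y hy))).eq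
          · have : s * y * s⁻¹ * y⁻¹ ∈ L :=
              mem_sup_right (subset_closure (Finset.mem_image₂.2 ⟨s, hs, y, hy, rfl⟩))
            simpa [mem_centralizer_iff] using ((hπ s y).1 this).eq
        simpa [mem_centralizer_iff, commute_iff_eq] using this (hle hx)
      rw [Subgroup.lowerCentralSeries_succ, commutator_le]
      intro x hx g _
      have : closure (S : Set G) ≤ (centralizer {π x}).comap π :=
        (closure_le _).2 fun s hs => by simpa [mem_centralizer_iff] using (h1 s hs x hx).eq.symm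
      have h2 : Commute (π x) (π g) := by
        simpa [mem_centralizer_iff, commute_iff_eq] using this (hS ▸ mem_top g)
      exact (hπ x g).2 h2

theorem noeth_top [Group.IsNilpotent G] [hG : Group.FG G] : Noeth (⊤ : Subgroup G) := by
  obtain ⟨S, hS⟩ := hG.out
  obtain ⟨c, hc⟩ := Subgroup.nilpotent_iff_lowerCentralSeries.1 (inferInstance : Group.IsNilpotent G)
  have : ∀ i j, i + j = c → Noeth ((⊤ : Subgroup G).lowerCentralSeries j) := by
    intro i
    induction i with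
    | zero =>
      intro j hj H hH
      rw [zero_add] at hj
      rw [hj, hc, le_bot_iff] at hH
      rw [hH]; exact ⟨∅, by simp⟩
    | succ i ih =>
      intro j hj H hH
      obtain ⟨T, hT, hle⟩ := lcs_gen S hS j
      exact (ih (j + 1) (by omega)).steps T inferInstance
        (fun g t ht => lcs_comm j g t (hT t ht)) H (hH.trans hle)
  exact this c 0 rfl

theorem wf_subgroup [Group.IsNilpotent G] [Group.FG G] : WellFoundedGT (Subgroup G) := by
  rw [wellFoundedGT_iff_monotone_chain_condition]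
  intro a
  obtain ⟨T, hT⟩ := noeth_top (G := G) (⨆ n, a n) le_top
  have hd : Directed (· ≤ ·) a := a.monotone.directed_le
  have : ∀ t ∈ T, ∃ n, t ∈ a n := fun t ht =>
    (mem_iSup_of_directed hd).1 (hT ▸ subset_closure ht)
  choose! f hf using this
  refine ⟨T.sup f, fun m hm => le_antisymm (a.monotone hm) ?_⟩
  refine (le_iSup a m).trans ?_
  rw [← hT, closure_le]
  exact fun t ht => a.monotone (Finset.le_sup ht) (hf t ht)

lemma central_of_pow [Group.IsNilpotent G] (htf : ∀ (g : G) (n : ℕ), 0 < n → g ^ n = 1 → g = 1)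
    {y : G} {n : ℕ} (hn : 0 < n) (hy : y ^ n ∈ center G) : y ∈ center G := by
  obtain ⟨c, hc⟩ := Group.IsNilpotent.nilpotent G
  have : ∀ j, ∀ x ∈ Subgroup.upperCentralSeries G j, x * y = y * x := by
    intro j
    induction j with
    | zero => intro x hx; rw [Subgroup.upperCentralSeries_zero, mem_bot] at hx; simp [hx]
    | succ j ih =>
      intro x hx
      have h1 : Commute (x * y * x⁻¹ * y⁻¹) y := ih _ (Subgroup.mem_upperCentralSeries_succ_iff.1 hx y)
      have h2 : (x * y * x⁻¹ * y⁻¹) ^ n = 1 := by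
        have h3 := h1.mul_pow n
        rw [inv_mul_cancel_right, conj_pow, mem_center_iff.1 hy x, mul_inv_cancel_right] at h3
        exact (mul_eq_right.1 h3.symm)
      have := htf _ n hn h2
      rw [← mul_inv_eq_one, mul_inv_rev, ← mul_assoc, this]
  exact mem_center_iff.2 fun x => this c x (hc ▸ mem_top x)

lemma exists_primitive_central [Group.IsNilpotent G] [Group.FG G] [Nontrivial G]
    (htf : ∀ (g : G) (n : ℕ), 0 < n → g ^ n = 1 → g = 1) :
    ∃ z ∈ center G, z ≠ 1 ∧ ∀ (y : G) (n : ℕ), 0 < n → y ^ n ∈ zpowers z → y ∈ zpowers z := by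
  have := wf_subgroup (G := G)
  obtain ⟨_, ⟨z, hz, hz1, rfl⟩, hmax⟩ := WellFounded.has_min (wellFounded_gt (α := Subgroup G))
    {K | ∃ z ∈ center G, z ≠ 1 ∧ zpowers z = K} (by
      obtain ⟨⟨z, hz⟩, h1⟩ := ne_bot_iff_exists_ne_one.1 (Group.IsNilpotent.center_ne_bot G)
      exact ⟨_, z, hz, fun h => h1 (Subtype.ext h), rfl⟩)
  refine ⟨z, hz, hz1, fun y n hn hy => ?_⟩
  obtain ⟨m, hm⟩ := mem_zpowers_iff.1 hy
  have hyc : y ∈ center G := central_of_pow htf hn (hm ▸ zpow_mem hz m)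
  have hc : Commute y z := (mem_center_iff.1 hz y)
  obtain ⟨g, n', m', hg, hcop, hn', hm'⟩ := Int.exists_gcd_one' (m := n) (n := m)
    (Int.gcd_pos_of_ne_zero_left _ (by exact_mod_cast hn.ne'))
  have h1 : y ^ n' = z ^ m' := by
    have : (y ^ n' * (z ^ m')⁻¹) ^ g = 1 := by
      rw [((hc.zpow_zpow n' m').inv_right).mul_pow, inv_pow, ← zpow_natCast, ← zpow_natCast,
        ← zpow_mul, ← zpow_mul, ← hn', ← hm', hm, zpow_natCast, mul_inv_cancel]
    exact mul_inv_eq_one.1 (htf _ g hg this)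
  obtain ⟨a, b, hab⟩ := Int.isCoprime_iff_gcd_eq_one.2 hcop
  set w := y ^ b * z ^ a with hw
  have h2 : w ^ n' = z := by
    rw [hw, (hc.zpow_zpow b a).mul_zpow, ← zpow_mul, ← zpow_mul, mul_comm b, zpow_mul, h1,
      ← zpow_mul, ← zpow_add, show m' * b + a * n' = 1 by linarith, zpow_one]
  have h3 : w ^ m' = y := by
    rw [hw, (hc.zpow_zpow b a).mul_zpow, ← zpow_mul, ← zpow_mul, mul_comm a, zpow_mul z, ← h1,
      ← zpow_mul, ← zpow_add, show b * m' + n' * a = 1 by linarith, zpow_one]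
  have h4 : zpowers z ≤ zpowers w := by
    rw [zpowers_le]; exact ⟨n', h2⟩
  have h5 : zpowers z = zpowers w := by
    by_contra hne
    refine hmax (zpowers w) ⟨w, mul_mem (zpow_mem hyc b) (zpow_mem hz a), ?_, rfl⟩
      (lt_of_le_of_ne h4 hne)
    rintro h
    rw [h, one_zpow] at h2
    exact hz1 h2.symm
  rw [h5]; exact ⟨m', h3⟩

/-- A central series with infinite cyclic factors from `G` down to `M`. -/
structure Series (M : Subgroup G) where
  h : ℕ
  Γ : ℕ → Subgroup G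
  u : ℕ → G
  top : Γ 0 = ⊤
  bot : Γ h = M
  le : ∀ i < h, Γ (i + 1) ≤ Γ i
  mem : ∀ i < h, u i ∈ Γ i
  ex : ∀ i < h, ∀ x ∈ Γ i, ∃ c : ℤ, (u i ^ c)⁻¹ * x ∈ Γ (i + 1)
  free : ∀ i < h, ∀ c : ℤ, u i ^ c ∈ Γ (i + 1) → c = 0
  central : ∀ i < h, ∀ g, ∀ x ∈ Γ i, g * x * g⁻¹ * x⁻¹ ∈ Γ (i + 1)

theorem exists_series [Group.IsNilpotent G] [Group.FG G] (M : Subgroup G) :
    M.Normal → (∀ (g : G) (n : ℕ), 0 < n → g ^ n ∈ M → g ∈ M) → Nonempty (Series M) := by
  have := wf_subgroup (G := G)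
  induction M using WellFoundedGT.induction with
  | ind M ih =>
  intro hn hM
  by_cases htop : M = ⊤
  · exact ⟨⟨0, fun _ => ⊤, fun _ => 1, rfl, htop.symm, by simp, by simp, by simp, by simp, by simp⟩⟩
  have : Nontrivial (G ⧸ M) := QuotientGroup.nontrivial_iff.2 htop
  let π := QuotientGroup.mk' M
  have hπ : ∀ x, π x = 1 ↔ x ∈ M := fun x => QuotientGroup.eq_one_iff x
  have htf : ∀ (g : G ⧸ M) (n : ℕ), 0 < n → g ^ n = 1 → g = 1 := by
    intro g n hn hg
    obtain ⟨g, rfl⟩ := QuotientGroup.mk'_surjective M g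
    rw [← map_pow] at hg
    exact (hπ g).2 (hM g n hn ((hπ _).1 hg))
  obtain ⟨z, hz, hz1, hprim⟩ := exists_primitive_central htf
  obtain ⟨z, rfl⟩ := QuotientGroup.mk'_surjective M z
  have hmem : ∀ x, x ∈ M ⊔ zpowers z ↔ π x ∈ zpowers (π z) := fun x => by
    rw [mem_sup_zpowers, mem_zpowers_iff]
    refine exists_congr fun c => ?_
    rw [← map_zpow]; exact QuotientGroup.eq.symm
  have hcen : ∀ g, ∀ x ∈ M ⊔ zpowers z, g * x * g⁻¹ * x⁻¹ ∈ M := by
    intro g x hx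
    obtain ⟨c, hc⟩ := mem_zpowers_iff.1 ((hmem x).1 hx)
    rw [← hπ, map_mul, map_mul, map_mul, map_inv, map_inv, ← hc,
      mem_center_iff.1 (zpow_mem hz c) (π g), mul_inv_cancel_right, mul_inv_cancel]
  obtain ⟨s⟩ := ih (M ⊔ zpowers z) (lt_of_le_of_ne le_sup_left fun h =>
      hz1 ((hπ z).2 (h ▸ mem_sup_right (mem_zpowers z)))) (normal_of_central le_sup_left hcen)
    (fun g n hn hg => (hmem g).2 (hprim _ n hn (by rw [← map_pow]; exact (hmem _).1 hg)))
  refine ⟨⟨s.h + 1, fun i => if i ≤ s.h then s.Γ i else M, fun i => if i < s.h then s.u i else z,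
    by simp [s.top], by simp, ?_, ?_, ?_, ?_, ?_⟩⟩
  all_goals
    intro i hi
    rcases Nat.lt_succ_iff_lt_or_eq.1 hi with h | rfl
  · simpa [h.le, Nat.succ_le_of_lt h] using s.le i h
  · simp [s.bot]
  · simpa [h.le, h] using s.mem i h
  · simpa [s.bot] using mem_sup_right (mem_zpowers z)
  · simpa [h.le, h, Nat.succ_le_of_lt h] using s.ex i h
  · simpa [s.bot] using fun x hx => mem_sup_zpowers.1 hx
  · simpa [h.le, h, Nat.succ_le_of_lt h] using s.free i h
  · simp only [lt_irrefl, if_false, Nat.add_one_le_iff]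
    intro c hc
    by_contra h0
    refine hz1 (htf _ c.natAbs (Int.natAbs_pos.2 h0) ?_)
    have := (hπ _).2 hc
    rw [map_zpow] at this
    exact pow_natAbs_eq_one.2 this
  · simpa [h.le, h, Nat.succ_le_of_lt h] using s.central i h
  · simpa [s.bot] using hcen

end Pool.Agent.P.MP_5b4d81_al
end

-- part Pool.Agent.P.MP_5b4d81_al.Coord
section

set_option autoImplicit false

namespace Pool.Agent.P.MP_5b4d81_al

universe u v

/-- Triangular coordinates on a group. -/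
structure Tri (G : Type u) [Group G] (A : Type v) [AddCommGroup A] where
  h : ℕ
  co : G ≃ (Fin h → A)
  addR' : ∀ (j : Fin h) (x y : G), (∀ i < j, co x i = 0) → co (y * x) j = co y j + co x j
  addL' : ∀ (j : Fin h) (x y : G), (∀ i < j, co x i = 0) → co (x * y) j = co x j + co y j

namespace Tri

variable {G : Type u} [Group G] {A : Type v} [AddCommGroup A] (M : Tri G A)

lemma co_one (j : Fin M.h) : M.co 1 j = 0 := by
  induction j using WellFoundedLT.induction with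
  | ind j ih => simpa using M.addR' j 1 1 ih

/-- The `i`-th layer subgroup. -/
def Γ (i : ℕ) : Subgroup G where
  carrier := {x | ∀ j : Fin M.h, (j : ℕ) < i → M.co x j = 0}
  one_mem' := fun j _ => M.co_one j
  mul_mem' := fun {x y} hx hy j hj => by
    rw [M.addR' j y x fun i hi => hy i (lt_trans hi hj), hx j hj, hy j hj, add_zero]
  inv_mem' := fun {x} hx j hj => by
    have := M.addR' j x x⁻¹ fun i hi => hx i (lt_trans hi hj)
    rw [inv_mul_cancel, M.co_one, hx j hj, add_zero] at this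
    exact this.symm

variable {M}

lemma mem_Γ {i : ℕ} {x : G} : x ∈ M.Γ i ↔ ∀ j : Fin M.h, (j : ℕ) < i → M.co x j = 0 := Iff.rfl

lemma mem_Γ_zero (x : G) : x ∈ M.Γ 0 := fun _ h => absurd h (Nat.not_lt_zero _)

lemma Γ_anti {i j : ℕ} (h : i ≤ j) : M.Γ j ≤ M.Γ i := fun _ hx k hk => hx k (hk.trans_le h)

lemma mem_Γ_succ {i : Fin M.h} {x : G} (hx : x ∈ M.Γ i) (h : M.co x i = 0) : x ∈ M.Γ (i + 1) :=
  fun j hj => by
    rcases Nat.lt_succ_iff_lt_or_eq.1 hj with h1 | h1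
    · exact hx j h1
    · rwa [Fin.ext h1]

lemma eq_one_of_mem {i : ℕ} (hi : M.h ≤ i) {x : G} (hx : x ∈ M.Γ i) : x = 1 :=
  M.co.injective (funext fun j => by rw [M.co_one, hx j (j.2.trans_le hi)])

lemma addR {i : ℕ} {x : G} (hx : x ∈ M.Γ i) (y : G) {j : Fin M.h} (hj : (j : ℕ) ≤ i) :
    M.co (y * x) j = M.co y j + M.co x j :=
  M.addR' j x y fun k hk => hx k (lt_of_lt_of_le hk hj)

lemma addL {i : ℕ} {x : G} (hx : x ∈ M.Γ i) (y : G) {j : Fin M.h} (hj : (j : ℕ) ≤ i) :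
    M.co (x * y) j = M.co x j + M.co y j :=
  M.addL' j x y fun k hk => hx k (lt_of_lt_of_le hk hj)

lemma mulR_lt {i : ℕ} {x : G} (hx : x ∈ M.Γ i) (y : G) {j : Fin M.h} (hj : (j : ℕ) < i) :
    M.co (y * x) j = M.co y j := by rw [addR hx y hj.le, hx j hj, add_zero]

lemma mulL_lt {i : ℕ} {x : G} (hx : x ∈ M.Γ i) (y : G) {j : Fin M.h} (hj : (j : ℕ) < i) :
    M.co (x * y) j = M.co y j := by rw [addL hx y hj.le, hx j hj, zero_add]

lemma inv_mul_mem {i : ℕ} {x y : G} (h : ∀ j : Fin M.h, (j : ℕ) < i → M.co x j = M.co y j) :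
    x⁻¹ * y ∈ M.Γ i := by
  intro j
  induction j using WellFoundedLT.induction with
  | ind j ih =>
    intro hj
    have := M.addR' j (x⁻¹ * y) x fun k hk => ih k hk (lt_trans hk hj)
    rw [mul_inv_cancel_left, h j hj] at this
    simpa using this

lemma mul_inv_mem {i : ℕ} {x y : G} (h : ∀ j : Fin M.h, (j : ℕ) < i → M.co x j = M.co y j) :
    y * x⁻¹ ∈ M.Γ i := by
  intro j
  induction j using WellFoundedLT.induction with
  | ind j ih =>
    intro hj
    have := M.addL' j (y * x⁻¹) x fun k hk => ih k hk (lt_trans hk hj)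
    rw [inv_mul_cancel_right, h j hj] at this
    simpa using this

instance normal_Γ (i : ℕ) : (M.Γ i).Normal :=
  ⟨fun _ hx g => mul_inv_mem fun _ hj => (mulR_lt hx g hj).symm⟩

lemma co_conj {i : ℕ} {x : G} (hx : x ∈ M.Γ i) (g : G) {j : Fin M.h} (hj : (j : ℕ) ≤ i) :
    M.co (g * x * g⁻¹) j = M.co x j := by
  have := addL ((normal_Γ i).conj_mem x hx g) g hj
  rw [inv_mul_cancel_right, addR hx g hj, add_comm] at this
  exact (add_right_cancel this).symm

lemma co_inv {i : ℕ} {x : G} (hx : x ∈ M.Γ i) {j : Fin M.h} (hj : (j : ℕ) ≤ i) :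
    M.co x⁻¹ j = -M.co x j := by
  have := addR hx x⁻¹ hj
  rw [inv_mul_cancel, M.co_one] at this
  exact eq_neg_of_add_eq_zero_left this.symm

lemma co_zpow {i : ℕ} {x : G} (hx : x ∈ M.Γ i) (n : ℤ) {j : Fin M.h} (hj : (j : ℕ) ≤ i) :
    M.co (x ^ n) j = n • M.co x j := by
  induction n using Int.induction_on with
  | zero => simp [M.co_one]
  | succ n ih => rw [zpow_add_one, addR hx _ hj, ih, add_smul, one_smul]
  | pred n ih => rw [zpow_sub_one, addR (inv_mem hx) _ hj, ih, co_inv hx hj, sub_smul, one_smul,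
      sub_eq_add_neg]

/-- truncation to the coordinates `< j` -/
def trunc (M : Tri G A) (j : ℕ) (x : G) : G :=
  M.co.symm fun k => if (k : ℕ) < j then M.co x k else 0

lemma co_trunc (j : ℕ) (x : G) (k : Fin M.h) :
    M.co (M.trunc j x) k = if (k : ℕ) < j then M.co x k else 0 := by simp [trunc]

lemma trunc_mem {i : ℕ} (j : ℕ) {x : G} (hx : x ∈ M.Γ i) : M.trunc j x ∈ M.Γ i := fun k hk => by
  rw [co_trunc, hx k hk, ite_self]

lemma trunc_inv_mul (j : ℕ) (x : G) : (M.trunc j x)⁻¹ * x ∈ M.Γ j :=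
  inv_mul_mem fun k hk => by rw [co_trunc, if_pos hk]

lemma mul_trunc_inv (j : ℕ) (x : G) : x * (M.trunc j x)⁻¹ ∈ M.Γ j :=
  mul_inv_mem fun k hk => by rw [co_trunc, if_pos hk]

lemma co_mul_sub (j : Fin M.h) (x y : G) :
    M.co (x * y) j - M.co x j = M.co (M.trunc j x * y) j := by
  have h1 := addL (mul_trunc_inv (M := M) j x) (M.trunc j x * y) (le_refl (j : ℕ))
  have h2 := addL (mul_trunc_inv (M := M) j x) (M.trunc j x) (le_refl (j : ℕ))
  rw [inv_mul_cancel_right, co_trunc, if_neg (lt_irrefl _), add_zero] at h2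
  rw [← mul_assoc, inv_mul_cancel_right, ← h2] at h1
  rw [h1, add_sub_cancel_left]

end Tri

section
variable {G : Type u} [Group G] (s : Series (⊥ : Subgroup G))

namespace Series

open Classical in
noncomputable def χ (i : ℕ) (x : G) : ℤ :=
  if h : ∃ c : ℤ, (s.u i ^ c)⁻¹ * x ∈ s.Γ (i + 1) then h.choose else 0

noncomputable def rem : ℕ → G → G
  | 0, x => x
  | i + 1, x => (s.u i ^ s.χ i (rem i x))⁻¹ * rem i x

variable {s}

lemma χ_eq {i : ℕ} (hi : i < s.h) {x : G} {c : ℤ} (hc : (s.u i ^ c)⁻¹ * x ∈ s.Γ (i + 1)) :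
    s.χ i x = c := by
  have h : ∃ c : ℤ, (s.u i ^ c)⁻¹ * x ∈ s.Γ (i + 1) := ⟨c, hc⟩
  rw [χ, dif_pos h]
  have := mul_mem hc (inv_mem h.choose_spec)
  rw [mul_inv_rev, inv_inv, mul_assoc, mul_inv_cancel_left, ← zpow_neg, ← zpow_add] at this
  have := s.free i hi _ this
  omega

lemma χ_spec {i : ℕ} (hi : i < s.h) {x : G} (hx : x ∈ s.Γ i) :
    (s.u i ^ s.χ i x)⁻¹ * x ∈ s.Γ (i + 1) := by
  obtain ⟨c, hc⟩ := s.ex i hi x hx
  rwa [χ_eq hi hc]

lemma anti {i j : ℕ} (hij : i ≤ j) (hj : j ≤ s.h) : s.Γ j ≤ s.Γ i := by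
  induction j, hij using Nat.le_induction with
  | base => exact le_rfl
  | succ j _ ih => exact (s.le j hj).trans (ih (Nat.le_of_succ_le hj))

lemma conj_mem {i : ℕ} (hi : i < s.h) {x : G} (hx : x ∈ s.Γ (i + 1)) (g : G) :
    g * x * g⁻¹ ∈ s.Γ (i + 1) := by
  simpa using mul_mem (s.central i hi g x (s.le i hi hx)) hx

lemma χ_mul {i : ℕ} (hi : i < s.h) {x y : G} (hx : x ∈ s.Γ i) (hy : y ∈ s.Γ i) :
    s.χ i (x * y) = s.χ i x + s.χ i y := by
  refine χ_eq hi ?_
  have := mul_mem (conj_mem hi (χ_spec hi hx) (s.u i ^ s.χ i y)⁻¹) (χ_spec hi hy)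
  rw [zpow_add]
  simpa [mul_assoc] using this

lemma χ_zero {i : ℕ} (hi : i < s.h) {x : G} (hx : x ∈ s.Γ (i + 1)) : s.χ i x = 0 :=
  χ_eq hi (by simpa using hx)

lemma rem_mem {i : ℕ} (hi : i ≤ s.h) (x : G) : s.rem i x ∈ s.Γ i := by
  induction i with
  | zero => simp [s.top]
  | succ i ih => exact χ_spec hi (ih (Nat.le_of_succ_le hi))

lemma rem_mul {i : ℕ} (hi : i ≤ s.h) (x : G) {y : G} (hy : y ∈ s.Γ i) :
    s.rem i (x * y) = s.rem i x * y := by
  induction i with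
  | zero => rfl
  | succ i ih =>
    have h1 := ih (Nat.le_of_succ_le hi) (s.le i hi hy)
    rw [rem, rem, h1, χ_mul hi (rem_mem (Nat.le_of_succ_le hi) x) (s.le i hi hy), χ_zero hi hy,
      add_zero, mul_assoc]

lemma rem_one {i : ℕ} (hi : i ≤ s.h) : s.rem i 1 = 1 := by
  induction i with
  | zero => rfl
  | succ i ih => rw [rem, ih (Nat.le_of_succ_le hi), χ_zero hi (one_mem _)]; simp

lemma rem_of_mem {i : ℕ} (hi : i ≤ s.h) {y : G} (hy : y ∈ s.Γ i) : s.rem i y = y := by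
  have := rem_mul hi 1 hy
  rwa [one_mul, rem_one hi, one_mul] at this

lemma rem_of_zero {i : ℕ} {y : G} (hy : ∀ j < i, s.χ j (s.rem j y) = 0) : s.rem i y = y := by
  induction i with
  | zero => rfl
  | succ i ih =>
    rw [rem, hy i (Nat.lt_succ_self i), ih fun j hj => hy j (Nat.lt_succ_of_lt hj)]; simp

lemma rem_congr {i j : ℕ} (hij : i ≤ j) {x y : G} (h : s.rem i x = s.rem i y) :
    s.rem j x = s.rem j y := by
  induction j, hij using Nat.le_induction with
  | base => exact h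
  | succ j _ ih => rw [rem, rem, ih]

variable (s) in
noncomputable def co (x : G) (j : Fin s.h) : ℤ := s.χ j (s.rem j x)

lemma mem_of_co {i : ℕ} (hi : i ≤ s.h) {x : G} (h : ∀ j : Fin s.h, (j : ℕ) < i → s.co x j = 0) :
    x ∈ s.Γ i := by
  rw [← rem_of_zero (s := s) (i := i) (y := x) fun j hj => h ⟨j, hj.trans_le hi⟩ hj]
  exact rem_mem hi x

lemma co_of_mem {i : ℕ} (hi : i ≤ s.h) {x : G} (hx : x ∈ s.Γ i) (j : Fin s.h) (hj : (j : ℕ) < i) :
    s.co x j = 0 := by
  rw [co, rem_of_mem j.2.le (anti hj.le hi hx), χ_zero j.2 (anti hj hi hx)]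

lemma co_basis (i : Fin s.h) (c : ℤ) {w : G} (hw : w ∈ s.Γ (i + 1)) :
    s.co (s.u i ^ c * w) = Function.update (s.co w) i c := by
  have h1 : s.u i ^ c * w ∈ s.Γ i := mul_mem (zpow_mem (s.mem i i.2) c) (s.le i i.2 hw)
  have h2 : s.χ i (s.u i ^ c * w) = c := χ_eq i.2 (by simpa using hw)
  funext j
  rcases lt_trichotomy j i with h | rfl | h
  · rw [Function.update_of_ne h.ne, co_of_mem i.2.le h1 j h,
      co_of_mem i.2 hw j (Nat.lt_succ_of_lt h)]
  · rw [Function.update_self, co, rem_of_mem j.2.le h1, h2]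
  · rw [Function.update_of_ne h.ne', co, co, rem_congr (i := i + 1) h]
    rw [rem, rem_of_mem i.2.le h1, h2, rem_of_mem i.2 hw, inv_mul_cancel_left]

lemma co_bij : Function.Bijective s.co := by
  constructor
  · intro x y h
    have : ∀ k i, i + k = s.h → s.rem i x = s.rem i y := by
      intro k
      induction k with
      | zero =>
        rintro i rfl
        have h1 := rem_mem (s := s) le_rfl x
        have h2 := rem_mem (s := s) le_rfl y
        rw [s.bot, Subgroup.mem_bot] at h1 h2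
        exact h1.trans h2.symm
      | succ k ih =>
        intro i hi
        have h1 := ih (i + 1) (by omega)
        have h2 : s.χ i (s.rem i x) = s.χ i (s.rem i y) := congrFun h ⟨i, by omega⟩
        rw [rem, rem, h2] at h1
        exact mul_left_cancel h1
    exact this s.h 0 (zero_add _)
  · intro a
    have : ∀ k i, i + k = s.h → ∃ x ∈ s.Γ i, ∀ j : Fin s.h, i ≤ j → s.co x j = a j := by
      intro k
      induction k with
      | zero => exact fun i hi => ⟨1, one_mem _, fun j hj => absurd j.2 (by omega)⟩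
      | succ k ih =>
        intro i hi
        obtain ⟨w, hw, h⟩ := ih (i + 1) (by omega)
        have hi' : i < s.h := by omega
        refine ⟨s.u i ^ a ⟨i, hi'⟩ * w, mul_mem (zpow_mem (s.mem i hi') _) (s.le i hi' hw),
          fun j hj => ?_⟩
        rw [co_basis ⟨i, hi'⟩ _ hw]
        rcases eq_or_lt_of_le hj with h1 | h1
        · obtain rfl : j = ⟨i, hi'⟩ := Fin.ext h1.symm
          simp
        · rw [Function.update_of_ne (fun h2 => by simp [h2] at h1), h j h1]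
    obtain ⟨x, -, hx⟩ := this s.h 0 (zero_add _)
    exact ⟨x, funext fun j => hx j (Nat.zero_le _)⟩

lemma co_addR (j : Fin s.h) (x y : G) (hx : x ∈ s.Γ j) :
    s.co (y * x) j = s.co y j + s.co x j := by
  rw [co, co, co, rem_mul j.2.le y hx, χ_mul j.2 (rem_mem j.2.le y) hx, rem_of_mem j.2.le hx]

lemma co_addL (j : Fin s.h) (x y : G) (hx : x ∈ s.Γ j) :
    s.co (x * y) j = s.co x j + s.co y j := by
  have h1 := s.central j j.2 y⁻¹ x hx
  have h2 : y⁻¹ * x * y⁻¹⁻¹ * x⁻¹ * x ∈ s.Γ j := mul_mem (s.le j j.2 h1) hx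
  have h3 := co_addR j _ y h2
  rw [co_addR j x _ hx, co_of_mem j.2 h1 j (Nat.lt_succ_self _), zero_add] at h3
  rw [add_comm, ← h3]
  simp [mul_assoc]

end Series

end

/-- Mal'cev coordinates of the second kind. -/
theorem exists_tri (G : Type u) [Group G] [Group.IsNilpotent G] [Group.FG G]
    (htf : ∀ (g : G) (n : ℕ), 0 < n → g ^ n = 1 → g = 1) :
    ∃ (M : Tri G ℤ) (u : Fin M.h → G), ∀ (i : Fin M.h) (c : ℤ), ∀ w ∈ M.Γ (i + 1),
      M.co (u i ^ c * w) = Function.update (M.co w) i c := by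
  obtain ⟨s⟩ := exists_series (⊥ : Subgroup G) inferInstance (by simpa using htf)
  refine ⟨⟨s.h, Equiv.ofBijective s.co Series.co_bij,
    fun j x y h => Series.co_addR j x y (Series.mem_of_co j.2.le h),
    fun j x y h => Series.co_addL j x y (Series.mem_of_co j.2.le h)⟩, fun i => s.u i, ?_⟩
  intro i c w hw
  exact Series.co_basis i c (Series.mem_of_co i.2 hw)

end Pool.Agent.P.MP_5b4d81_al
end

-- part Pool.Agent.P.MP_5b4d81_al.Hall
section

set_option autoImplicit false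

namespace Pool.Agent.P.MP_5b4d81_al

open MvPolynomial

universe u

/-- integer valued functions given by a rational polynomial -/
def IsPoly {σ : Type} (f : (σ → ℤ) → ℤ) : Prop :=
  ∃ P : MvPolynomial σ ℚ, ∀ s, (f s : ℚ) = eval (fun i => (s i : ℚ)) P

namespace IsPoly

variable {σ τ : Type} {f g : (σ → ℤ) → ℤ}

lemma const (c : ℤ) : IsPoly fun _ : σ → ℤ => c := ⟨C (c : ℚ), by simp⟩

lemma var (i : σ) : IsPoly fun s : σ → ℤ => s i := ⟨X i, by simp⟩

lemma add (hf : IsPoly f) (hg : IsPoly g) : IsPoly fun s => f s + g s := by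
  obtain ⟨P, hP⟩ := hf
  obtain ⟨Q, hQ⟩ := hg
  exact ⟨P + Q, by simp [hP, hQ]⟩

lemma neg (hf : IsPoly f) : IsPoly fun s => -f s := by
  obtain ⟨P, hP⟩ := hf
  exact ⟨-P, by simp [hP]⟩

lemma congr (hf : IsPoly f) (h : ∀ s, f s = g s) : IsPoly g := funext h ▸ hf

lemma comp {F : (τ → ℤ) → ℤ} (hF : IsPoly F) {a : (σ → ℤ) → τ → ℤ}
    (ha : ∀ t, IsPoly fun s => a s t) : IsPoly fun s => F (a s) := by
  obtain ⟨P, hP⟩ := hF
  choose Q hQ using ha
  refine ⟨bind₁ Q P, fun s => ?_⟩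
  rw [hP, ← coe_aeval_eq_eval, ← coe_aeval_eq_eval]
  simp only [RingHom.coe_coe, aeval_bind₁]
  simp only [hQ, ← coe_aeval_eq_eval, RingHom.coe_coe]

lemma antider_aux (P : MvPolynomial (Option σ) ℚ) : ∀ k : ℕ, ∃ Q : MvPolynomial (Option σ) ℚ,
    ∀ (n : ℚ) (s : σ → ℚ), eval (fun o => o.elim (n + 1) s) Q - eval (fun o => o.elim n s) Q =
      n ^ k * eval (fun o => o.elim n s) P := by
  induction P using MvPolynomial.induction_on with
  | C a =>
    intro k
    refine ⟨C (a / (k + 1)) * Polynomial.aeval (X none) (Polynomial.bernoulli (k + 1)),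
      fun n s => ?_⟩
    have h : ∀ m : ℚ, eval (fun o : Option σ => o.elim m s)
        (Polynomial.aeval (X none) (Polynomial.bernoulli (k + 1))) =
        (Polynomial.bernoulli (k + 1)).eval m := fun m => by
      rw [← coe_aeval_eq_eval, RingHom.coe_coe, ← Polynomial.aeval_algHom_apply]
      simp
    simp only [map_mul, eval_C, h]
    rw [add_comm n, Polynomial.bernoulli_eval_one_add]
    have : (k + 1 : ℚ) ≠ 0 := by positivity
    push_cast
    field_simp
    simp [mul_assoc]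
  | add P Q hP hQ =>
    intro k
    obtain ⟨P', hP'⟩ := hP k
    obtain ⟨Q', hQ'⟩ := hQ k
    exact ⟨P' + Q', fun n s => by simp only [map_add, mul_add, ← hP', ← hQ']; ring⟩
  | mul_X P i hP =>
    intro k
    cases i with
    | none =>
      obtain ⟨P', hP'⟩ := hP (k + 1)
      exact ⟨P', fun n s => by rw [hP']; simp; ring⟩
    | some i =>
      obtain ⟨P', hP'⟩ := hP k
      exact ⟨P' * X (some i), fun n s => by
        simp only [map_mul, eval_X, Option.elim_some, ← sub_mul, hP', mul_assoc]⟩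

lemma antider {F : ℤ → (σ → ℤ) → ℤ} (h0 : IsPoly (F 0))
    (h1 : IsPoly fun s : Option σ → ℤ =>
      F (s none + 1) (fun i => s (some i)) - F (s none) fun i => s (some i))
    {n : (σ → ℤ) → ℤ} (hn : IsPoly n) : IsPoly fun s => F (n s) s := by
  obtain ⟨P0, hP0⟩ := h0
  obtain ⟨P, hP⟩ := h1
  obtain ⟨Q, hQ⟩ := antider_aux P 0
  obtain ⟨Pn, hPn⟩ := hn
  have key : ∀ (s : σ → ℤ) (m : ℤ), (F m s : ℚ) = F 0 s +
      eval (fun o => o.elim (m : ℚ) fun i => (s i : ℚ)) Q -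
      eval (fun o => o.elim (0 : ℚ) fun i => (s i : ℚ)) Q := by
    intro s
    have h2 : ∀ m : ℤ, (F (m + 1) s : ℚ) - F m s =
        eval (fun o => o.elim ((m : ℚ) + 1) fun i => (s i : ℚ)) Q -
        eval (fun o => o.elim (m : ℚ) fun i => (s i : ℚ)) Q := fun m => by
      have := hP fun o => o.elim m s
      simp only [Option.elim_none, Option.elim_some, Int.cast_sub] at this
      rw [hQ, this, pow_zero, one_mul]
      congr 2
      funext o
      cases o <;> simp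
    intro m
    induction m using Int.induction_on with
    | zero => simp
    | succ m ih => have := h2 m; push_cast at *; linarith
    | pred m ih =>
      have := h2 (-m - 1)
      simp only [sub_add_cancel, Int.cast_sub, Int.cast_neg, Int.cast_natCast, Int.cast_one] at *
      linarith
  refine ⟨P0 + bind₁ (fun o => o.elim Pn X) Q - bind₁ (fun o => o.elim 0 X) Q, fun s => ?_⟩
  rw [key, hP0]
  simp only [map_sub, map_add, ← coe_aeval_eq_eval, RingHom.coe_coe, aeval_bind₁]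
  congr 3
  · congr 1
    funext o
    cases o with
    | none => exact hPn s
    | some i => simp
  · funext o
    cases o <;> simp

/-- clearing denominators -/
lemma exists_int (hf : IsPoly f) : ∃ (D : ℤ) (P : MvPolynomial σ ℤ), 0 < D ∧
    ∀ s, D * f s = eval s P := by
  obtain ⟨P, hP⟩ := hf
  have : ∃ (D : ℤ) (P' : MvPolynomial σ ℤ), 0 < D ∧ ∀ s : σ → ℤ,
      (D : ℚ) * eval (fun i => (s i : ℚ)) P = (eval s P' : ℤ) := by
    clear hP
    induction P using MvPolynomial.induction_on with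
    | C a => exact ⟨a.den, C a.num, by exact_mod_cast a.den_pos, fun s => by simp⟩
    | add P Q hP hQ =>
      obtain ⟨D, P', hD, hP'⟩ := hP
      obtain ⟨E, Q', hE, hQ'⟩ := hQ
      refine ⟨D * E, C E * P' + C D * Q', mul_pos hD hE, fun s => ?_⟩
      simp only [map_add, map_mul, eval_C]
      push_cast
      rw [← hP', ← hQ']
      ring
    | mul_X P i hP =>
      obtain ⟨D, P', hD, hP'⟩ := hP
      exact ⟨D, P' * X i, hD, fun s => by simp [← hP', mul_assoc]⟩
  obtain ⟨D, P', hD, h⟩ := this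
  refine ⟨D, P', hD, fun s => ?_⟩
  have := h s
  rw [← hP] at this
  exact_mod_cast this

end IsPoly

section
variable {G : Type u} [Group G] (M : Tri G ℤ)

/-- polynomial families in the layer `i`, up to coordinate `j` -/
def PF {σ : Type} (i j : ℕ) (x : (σ → ℤ) → G) : Prop :=
  (∀ s, x s ∈ M.Γ i) ∧ ∀ k : Fin M.h, (k : ℕ) < j → IsPoly fun s => M.co (x s) k

def Cl (i j : ℕ) : Prop := ∀ σ : Type,
  (∀ x y : (σ → ℤ) → G, PF M i j x → PF M i j y → PF M i j fun s => x s * y s) ∧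
  (∀ (x : (σ → ℤ) → G) (n : (σ → ℤ) → ℤ), PF M i j x → IsPoly n → PF M i j fun s => x s ^ n s)

variable {M} {σ τ : Type} {i j : ℕ}

lemma PF.of_le {x : (σ → ℤ) → G} (hx : ∀ s, x s ∈ M.Γ i) (h : j ≤ i ∨ M.h ≤ i) : PF M i j x :=
  ⟨hx, fun k hk => (IsPoly.const 0).congr fun s =>
    (hx s k (h.elim (fun h => hk.trans_le h) fun h => k.2.trans_le h)).symm⟩

lemma PF.const {x : G} (hx : x ∈ M.Γ i) : PF M i j fun _ : σ → ℤ => x :=
  ⟨fun _ => hx, fun _ _ => IsPoly.const _⟩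

lemma PF.mono {x : (σ → ℤ) → G} (hx : PF M i j x) {i' j' : ℕ} (hi : i' ≤ i) (hj : j' ≤ j) :
    PF M i' j' x :=
  ⟨fun s => Tri.Γ_anti hi (hx.1 s), fun k hk => hx.2 k (hk.trans_le hj)⟩

lemma PF.trunc {x : (σ → ℤ) → G} (hx : PF M i j x) (j' : ℕ) :
    PF M i j' fun s => M.trunc j (x s) := by
  refine ⟨fun s => Tri.trunc_mem j (hx.1 s), fun k _ => ?_⟩
  simp only [Tri.co_trunc]
  split_ifs with h
  exacts [hx.2 k h, IsPoly.const 0]

lemma PF.comp {x : (τ → ℤ) → G} (hx : PF M i j x) {a : (σ → ℤ) → τ → ℤ}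
    (ha : ∀ t, IsPoly fun s => a s t) : PF M i j fun s => x (a s) :=
  ⟨fun _ => hx.1 _, fun k hk => (hx.2 k hk).comp ha⟩

lemma PF.congr {x y : (σ → ℤ) → G} (hx : PF M i j x) (h : ∀ s, x s = y s) : PF M i j y :=
  funext h ▸ hx

lemma PF.succ {x : (σ → ℤ) → G} {j : Fin M.h} (hx : PF M i j x)
    (h : IsPoly fun s => M.co (x s) j) : PF M i (j + 1) x := by
  refine ⟨hx.1, fun k hk => ?_⟩
  rcases Nat.lt_succ_iff_lt_or_eq.1 hk with h1 | h1
  · exact hx.2 k h1
  · rwa [Fin.ext h1]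

lemma Cl.of_le (h : j ≤ i ∨ M.h ≤ i) : Cl M i j := fun _ =>
  ⟨fun _ _ hx hy => PF.of_le (fun s => mul_mem (hx.1 s) (hy.1 s)) h,
    fun _ _ hx _ => PF.of_le (fun s => zpow_mem (hx.1 s) _) h⟩

variable {u : Fin M.h → G} (hu : ∀ (i : Fin M.h) (c : ℤ), ∀ w ∈ M.Γ (i + 1),
      M.co (u i ^ c * w) = Function.update (M.co w) i c)
include hu

lemma co_u (i : Fin M.h) : M.co (u i) = Function.update (M.co 1) i 1 := by
  simpa using hu i 1 1 (one_mem _)

lemma u_mem (i : Fin M.h) : u i ∈ M.Γ i := fun k hk => by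
  rw [co_u hu, Function.update_of_ne (fun h => by simp [h] at hk), M.co_one]

lemma tail_mem (i : Fin M.h) {x : G} (hx : x ∈ M.Γ i) :
    (u i ^ M.co x i)⁻¹ * x ∈ M.Γ (i + 1) := by
  refine Tri.mem_Γ_succ (mul_mem (inv_mem (zpow_mem (u_mem hu i) _)) hx) ?_
  rw [Tri.addR hx _ le_rfl, Tri.co_inv (zpow_mem (u_mem hu i) _) le_rfl,
    Tri.co_zpow (u_mem hu i) _ le_rfl, co_u hu]
  simp

lemma PF.tail {i : Fin M.h} {x : (σ → ℤ) → G} (hx : PF M i j x) :
    PF M (i + 1) j fun s => (u i ^ M.co (x s) i)⁻¹ * x s := by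
  refine ⟨fun s => tail_mem hu i (hx.1 s), fun k hk => ?_⟩
  by_cases h : k = i
  · exact (IsPoly.const 0).congr fun s => (tail_mem hu i (hx.1 s) k (by simp [h])).symm
  · refine (hx.2 k hk).congr fun s => ?_
    have := congrFun (hu i (M.co (x s) i) _ (tail_mem hu i (hx.1 s))) k
    rwa [mul_inv_cancel_left, Function.update_of_ne h] at this

lemma PF.cons {i : Fin M.h} {x : (σ → ℤ) → G} (hx : PF M (i + 1) j x) {c : (σ → ℤ) → ℤ}
    (hc : IsPoly c) : PF M i j fun s => u i ^ c s * x s := by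
  refine ⟨fun s => mul_mem (zpow_mem (u_mem hu i) _) (Tri.Γ_anti (Nat.le_succ _) (hx.1 s)),
    fun k hk => ?_⟩
  by_cases h : k = i
  · exact hc.congr fun s => by rw [hu i _ _ (hx.1 s), h, Function.update_self]
  · exact (hx.2 k hk).congr fun s => by rw [hu i _ _ (hx.1 s), Function.update_of_ne h]

lemma Cl.conj1 (hC : Cl M i j) (g : G) (d : ℕ) : ∀ t, i ≤ t → j ≤ t + d →
    ∀ y : (σ → ℤ) → G, PF M t j y → PF M i j fun s => g * y s * g⁻¹ := by
  have triv : ∀ t, i ≤ t → (j ≤ t ∨ M.h ≤ t) →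
      ∀ y : (σ → ℤ) → G, PF M t j y → PF M i j fun s => g * y s * g⁻¹ := fun t ht h y hy =>
    (PF.of_le (fun s => (Tri.normal_Γ t).conj_mem _ (hy.1 s) g) h).mono ht le_rfl
  induction d with
  | zero => exact fun t ht h => triv t ht (Or.inl h)
  | succ d ih =>
    intro t ht h y hy
    by_cases h1 : j ≤ t ∨ M.h ≤ t
    · exact triv t ht h1 y hy
    push Not at h1
    let t' : Fin M.h := ⟨t, h1.2⟩
    have h2 := ih (t + 1) (by omega) (by omega) _ (PF.tail hu (i := t') hy)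
    have h3 := (hC σ).2 _ _ (PF.const (Tri.Γ_anti ht
      ((Tri.normal_Γ t).conj_mem _ (u_mem hu t') g))) (hy.2 t' h1.1)
    refine ((hC σ).1 _ _ h3 h2).congr fun s => ?_
    rw [conj_zpow]
    simp [mul_assoc]

lemma Cl.step {i j : Fin M.h} (hij : i ≤ j) (h1 : Cl M i j) (h2 : Cl M (i + 1) (j + 1)) :
    Cl M i (j + 1) := by
  have conj : ∀ (σ : Type) (y : (σ → ℤ) → G) (b : (σ → ℤ) → ℤ), PF M (i + 1) (j + 1) y →
      IsPoly b → PF M (i + 1) (j + 1) fun s => u i ^ b s * y s * (u i ^ b s)⁻¹ := by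
    have aux : ∀ (σ : Type) (y : (σ → ℤ) → G) (b : (σ → ℤ) → ℤ), PF M (i + 1) (j + 1) y →
        IsPoly b → PF M (i + 1) j fun s => u i ^ b s * y s * (u i ^ b s)⁻¹ := by
      intro σ y b hy hb
      refine ⟨fun s => (Tri.normal_Γ _).conj_mem _ (hy.1 s) _, ?_⟩
      have := (h1 σ).1 _ _ ((h1 σ).1 _ _ ((h1 σ).2 _ _ (PF.const (u_mem hu i)) hb)
        (hy.mono (Nat.le_succ _) (Nat.le_succ _))) ((h1 σ).2 _ _ (PF.const (u_mem hu i)) hb.neg)
      simpa only [zpow_neg] using this.2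
    intro σ y b hy hb
    refine (aux σ y b hy hb).succ ?_
    refine IsPoly.antider (F := fun b s => M.co (u i ^ b * y s * (u i ^ b)⁻¹) j)
      (by simpa using hy.2 j (Nat.lt_succ_self _)) ?_ hb
    have h3 := aux (Option σ) (fun s => y fun i => s (some i)) (fun s => s none)
      (hy.comp fun t => IsPoly.var _) (IsPoly.var _)
    have h4 := h2.conj1 hu (u i) (j + 1) (i + 1) le_rfl (by omega) _ (h3.trunc (j + 1))
    refine (h4.2 j (Nat.lt_succ_self _)).congr fun s => ?_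
    set w := u i ^ s none * (y fun i => s (some i)) * (u i ^ s none)⁻¹ with hw
    have h5 : u i ^ (s none + 1) * (y fun i => s (some i)) * (u i ^ (s none + 1))⁻¹ =
        (u i * M.trunc j w * (u i)⁻¹) * (u i * ((M.trunc j w)⁻¹ * w) * (u i)⁻¹) := by
      rw [hw, add_comm, zpow_add]; group
    have h6 := Tri.addR (Tri.trunc_inv_mul (M := M) j w) (M.trunc j w) (le_refl (j : ℕ))
    rw [mul_inv_cancel_left, Tri.co_trunc, if_neg (lt_irrefl _), zero_add] at h6
    rw [h5, Tri.addR ((Tri.normal_Γ _).conj_mem _ (Tri.trunc_inv_mul j w) _) _ le_rfl,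
      Tri.co_conj (Tri.trunc_inv_mul j w) _ le_rfl, ← h6, add_sub_cancel_right]
  have mul : ∀ (σ : Type) (x y : (σ → ℤ) → G), PF M i (j + 1) x → PF M i (j + 1) y →
      PF M i (j + 1) fun s => x s * y s := by
    intro σ x y hx hy
    have ha := hx.2 i (Nat.lt_succ_of_le hij)
    have hb := hy.2 i (Nat.lt_succ_of_le hij)
    have := PF.cons hu ((h2 σ).1 _ _ (conj σ _ _ (hx.tail hu) hb.neg) (hy.tail hu)) (ha.add hb)
    refine this.congr fun s => ?_
    rw [zpow_add]; group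
  refine fun σ => ⟨mul σ, fun x n hx hn => ?_⟩
  refine ((h1 σ).2 x n (hx.mono le_rfl (Nat.le_succ _)) hn).succ ?_
  refine IsPoly.antider (F := fun n s => M.co (x s ^ n) j)
    ((IsPoly.const 0).congr fun s => by simp [M.co_one]) ?_ hn
  have h3 : PF M i (j + 1) fun s : Option σ → ℤ => x fun i => s (some i) :=
    hx.comp fun t => IsPoly.var _
  have h4 := (h1 (Option σ)).2 _ (fun s => s none) (h3.mono le_rfl (Nat.le_succ _)) (IsPoly.var _)
  refine ((mul _ _ _ (h4.trunc (j + 1)) h3).2 j (Nat.lt_succ_self _)).congr fun s => ?_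
  rw [zpow_add_one, Tri.co_mul_sub]

lemma cl_all : ∀ j ≤ M.h, ∀ i, Cl M i j := by
  intro j
  induction j with
  | zero => exact fun _ i => Cl.of_le (Or.inl (Nat.zero_le _))
  | succ j ih =>
    intro hj
    have : ∀ d i, j + 1 ≤ i + d → Cl M i (j + 1) := by
      intro d
      induction d with
      | zero => exact fun i hi => Cl.of_le (Or.inl hi)
      | succ d ihd =>
        intro i hi
        by_cases h : j + 1 ≤ i
        · exact Cl.of_le (Or.inl h)
        exact Cl.step hu (i := ⟨i, by omega⟩) (j := ⟨j, hj⟩) (by simp only [Fin.mk_le_mk]; omega)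
          (ih (Nat.le_of_succ_le hj) i) (ihd (i + 1) (by omega))
    exact fun i => this (j + 1) i (by omega)

end

/-- Triangular integer coordinates with polynomial multiplication and powers. -/
structure Model (G : Type u) [Group G] extends Tri G ℤ where
  D : ℤ
  D_pos : 0 < D
  Gm : Fin h → MvPolynomial (Fin h ⊕ Fin h) ℤ
  Gp : Fin h → MvPolynomial (Option (Fin h)) ℤ
  co_mul : ∀ x y i, D * co (x * y) i = eval (Sum.elim (co x) (co y)) (Gm i)
  co_pow : ∀ (x : G) (n : ℤ) i, D * co (x ^ n) i = eval (fun o => o.elim n (co x)) (Gp i)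

theorem exists_model (G : Type u) [Group G] [Group.IsNilpotent G] [Group.FG G]
    (htf : ∀ (g : G) (n : ℕ), 0 < n → g ^ n = 1 → g = 1) : Nonempty (Model G) := by
  obtain ⟨M, u, hu⟩ := exists_tri G htf
  have hC := cl_all hu M.h le_rfl 0
  have base : ∀ {σ : Type} (e : Fin M.h → σ),
      PF M 0 M.h fun s : σ → ℤ => M.co.symm fun i => s (e i) := fun e =>
    ⟨fun _ => Tri.mem_Γ_zero _, fun k _ => by simpa using IsPoly.var (e k)⟩
  have h1 := fun k => (((hC _).1 _ _ (base Sum.inl) (base Sum.inr)).2 k k.2).exists_int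
  have h2 := fun k => (((hC _).2 _ _ (base some) (IsPoly.var none)).2 k k.2).exists_int
  choose D1 P1 hD1 hP1 using h1
  choose D2 P2 hD2 hP2 using h2
  have hd1 : ∀ k, D1 k ∣ (∏ k, D1 k) * ∏ k, D2 k := fun k =>
    (Finset.dvd_prod_of_mem _ (Finset.mem_univ k)).mul_right _
  have hd2 : ∀ k, D2 k ∣ (∏ k, D1 k) * ∏ k, D2 k := fun k =>
    (Finset.dvd_prod_of_mem _ (Finset.mem_univ k)).mul_left _
  choose e1 he1 using hd1
  choose e2 he2 using hd2
  refine ⟨⟨M, (∏ k, D1 k) * ∏ k, D2 k,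
    mul_pos (Finset.prod_pos fun k _ => hD1 k) (Finset.prod_pos fun k _ => hD2 k),
    fun k => C (e1 k) * P1 k, fun k => C (e2 k) * P2 k, fun x y k => ?_, fun x n k => ?_⟩⟩
  · rw [map_mul (eval _), eval_C, ← hP1, he1 k]
    simp [mul_assoc, mul_left_comm]
  · rw [map_mul (eval _), eval_C, ← hP2, he2 k]
    simp [mul_assoc, mul_left_comm]

end Pool.Agent.P.MP_5b4d81_al
end

-- part Pool.Agent.P.MP_5b4d81_al.Facts
section

set_option autoImplicit false

namespace Pool.Agent.P.MP_5b4d81_al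

open MvPolynomial

universe u

lemma eval_modEq {σ : Type} {m : ℤ} {a b : σ → ℤ} (h : ∀ i, a i ≡ b i [ZMOD m])
    (P : MvPolynomial σ ℤ) : eval a P ≡ eval b P [ZMOD m] := by
  induction P using MvPolynomial.induction_on with
  | C c => simp
  | add P Q hP hQ => simpa using hP.add hQ
  | mul_X P i hP => simpa using hP.mul (h i)

lemma cancel_cop {m D a b : ℤ} (hm : IsCoprime m D) (h : D * a ≡ D * b [ZMOD m]) :
    a ≡ b [ZMOD m] := by
  rw [Int.modEq_iff_dvd] at h ⊢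
  exact hm.dvd_of_dvd_mul_left (by rwa [mul_sub])

lemma norm_eval_le {σ R : Type} [CommRing R] (f : R →+* ℂ) (P : MvPolynomial σ R) :
    ∃ C : ℕ, ∀ (B : ℝ) (a : σ → R), 2 ≤ B → (∀ i, ‖f (a i)‖ ≤ B) → ‖f (eval a P)‖ ≤ B ^ C := by
  induction P using MvPolynomial.induction_on with
  | C c =>
    obtain ⟨n, hn⟩ := pow_unbounded_of_one_lt ‖f c‖ (one_lt_two (α := ℝ))
    exact ⟨n, fun B a hB _ => by
      simpa using hn.le.trans (pow_le_pow_left₀ zero_le_two hB n)⟩
  | add P Q hP hQ =>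
    obtain ⟨C1, h1⟩ := hP
    obtain ⟨C2, h2⟩ := hQ
    refine ⟨C1 + C2 + 1, fun B a hB ha => ?_⟩
    rw [map_add, map_add]
    have h3 : B ^ C1 ≤ B ^ (C1 + C2) := pow_le_pow_right₀ (by linarith) (by omega)
    have h4 : B ^ C2 ≤ B ^ (C1 + C2) := pow_le_pow_right₀ (by linarith) (by omega)
    have h5 : 0 ≤ B ^ (C1 + C2) := by positivity
    have := norm_add_le (f (eval a P)) (f (eval a Q))
    have := h1 B a hB ha
    have := h2 B a hB ha
    rw [pow_succ]
    nlinarith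
  | mul_X P i hP =>
    obtain ⟨C1, h1⟩ := hP
    refine ⟨C1 + 1, fun B a hB ha => ?_⟩
    rw [map_mul, map_mul, eval_X, norm_mul, pow_succ]
    exact mul_le_mul (h1 B a hB ha) (ha i) (norm_nonneg _) (by positivity)

variable {G : Type u} [Group G]

lemma mem_sup_normal {H J : Subgroup G} [J.Normal] {x : G} :
    x ∈ H ⊔ J ↔ ∃ y ∈ H, y⁻¹ * x ∈ J := by
  rw [← SetLike.mem_coe, Subgroup.mul_normal]
  constructor
  · rintro ⟨y, hy, b, hb, rfl⟩
    exact ⟨y, hy, by simpa using hb⟩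
  · rintro ⟨y, hy, hb⟩
    exact ⟨y, hy, _, hb, by simp⟩

namespace Model

variable (M : Model G)

/-- congruence of coordinates -/
def Cg (m : ℤ) (x y : G) : Prop := ∀ i, M.co x i ≡ M.co y i [ZMOD m]

variable {M} {m : ℤ} {x x' y y' z : G}

lemma Cg.refl (x : G) : M.Cg m x x := fun _ => Int.ModEq.refl _
lemma Cg.symm (h : M.Cg m x y) : M.Cg m y x := fun i => (h i).symm
lemma Cg.trans (h : M.Cg m x y) (h' : M.Cg m y z) : M.Cg m x z := fun i => (h i).trans (h' i)
lemma Cg.of_dvd {m' : ℤ} (hm : m' ∣ m) (h : M.Cg m x y) : M.Cg m' x y :=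
  fun i => (h i).of_dvd hm

lemma mul_aux (hx : M.Cg m x x') (hy : M.Cg m y y') (i : Fin M.h) :
    M.D * M.co (x * y) i ≡ M.D * M.co (x' * y') i [ZMOD m] := by
  rw [M.co_mul, M.co_mul]
  exact eval_modEq (by rintro (j | j); exacts [hx j, hy j]) _

lemma pow_aux {n n' : ℤ} (hx : M.Cg m x x') (hn : n ≡ n' [ZMOD m]) (i : Fin M.h) :
    M.D * M.co (x ^ n) i ≡ M.D * M.co (x' ^ n') i [ZMOD m] := by
  rw [M.co_pow, M.co_pow]
  exact eval_modEq (by rintro (_ | j); exacts [hn, hx j]) _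

lemma Cg.mulD (hx : M.Cg (M.D * m) x x') (hy : M.Cg (M.D * m) y y') :
    M.Cg m (x * y) (x' * y') := fun i =>
  Int.ModEq.mul_left_cancel' M.D_pos.ne' (mul_aux hx hy i)

lemma Cg.powD {n n' : ℤ} (hx : M.Cg (M.D * m) x x') (hn : n ≡ n' [ZMOD M.D * m]) :
    M.Cg m (x ^ n) (x' ^ n') := fun i =>
  Int.ModEq.mul_left_cancel' M.D_pos.ne' (pow_aux hx hn i)

lemma Cg.mul (hm : IsCoprime m M.D) (hx : M.Cg m x x') (hy : M.Cg m y y') :
    M.Cg m (x * y) (x' * y') := fun i =>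
  cancel_cop hm (mul_aux hx hy i)

lemma Cg.pow {n n' : ℤ} (hm : IsCoprime m M.D) (hx : M.Cg m x x') (hn : n ≡ n' [ZMOD m]) :
    M.Cg m (x ^ n) (x' ^ n') := fun i =>
  cancel_cop hm (pow_aux hx hn i)

lemma exists_unit (i : Fin M.h) : ∃ e ∈ M.Γ i, M.co e i = 1 :=
  ⟨M.co.symm (Pi.single i 1), fun j hj => by
    simp [Fin.ext_iff, hj.ne], by simp⟩

lemma Cg.mem (hm : IsCoprime m M.D) {J : Subgroup G} (hJ : ∀ g, g ^ m ∈ J) (h : M.Cg m x y) :
    x⁻¹ * y ∈ J := by
  have : ∀ d i, M.h ≤ i + d → ∀ x ∈ M.Γ i, M.Cg m x 1 → x ∈ J := by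
    intro d
    induction d with
    | zero => intro i hi x hx _; rw [Tri.eq_one_of_mem hi hx]; exact one_mem _
    | succ d ih =>
      intro i hi x hx hc
      by_cases h1 : M.h ≤ i
      · rw [Tri.eq_one_of_mem h1 hx]; exact one_mem _
      let i' : Fin M.h := ⟨i, not_le.1 h1⟩
      obtain ⟨e, he, he1⟩ := exists_unit i'
      have h2 := hc i'
      rw [M.co_one] at h2
      obtain ⟨a, ha⟩ := Int.modEq_zero_iff_dvd.1 h2
      have h3 : x * e ^ (-M.co x i') ∈ J := by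
        refine ih (i + 1) (by omega) _ (Tri.mem_Γ_succ (i := i') (mul_mem hx (zpow_mem he _)) ?_) ?_
        · rw [Tri.addR (zpow_mem he _) _ le_rfl, Tri.co_zpow he _ le_rfl, he1]; simp
        · simpa using Cg.mul hm hc (Cg.pow hm (Cg.refl e) h2.neg)
      have := mul_mem h3 (hJ (e ^ a))
      rwa [← zpow_mul, mul_comm a, ← ha, zpow_neg, inv_mul_cancel_right] at this
  refine this M.h 0 (by omega) _ (Tri.mem_Γ_zero _) ?_
  simpa using Cg.mul hm (Cg.refl x⁻¹) h.symm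

variable (M) in
/-- the congruence subgroup -/
def B (m : ℤ) : Subgroup G where
  carrier := {g | ∀ a b, M.Cg m (a * g * b) (a * b)}
  one_mem' := fun a b => by simpa using Cg.refl _
  mul_mem' := fun {g g'} hg hg' a b => by
    have := (hg' (a * g) b).trans (hg a b)
    simpa only [mul_assoc] using this
  inv_mem' := fun {g} hg a b => by simpa using (hg (a * g⁻¹) b).symm

instance B_normal (m : ℤ) : (M.B m).Normal :=
  ⟨fun g hg c a b => by simpa only [mul_assoc, mul_inv_cancel_left] using hg (a * c) (c⁻¹ * b)⟩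

lemma Cg.of_B (h : x⁻¹ * y ∈ M.B m) : M.Cg m x y := by simpa using (h x 1).symm

lemma Cg.mem_BD (h : M.Cg (M.D * (M.D * m)) x y) : x⁻¹ * y ∈ M.B m := fun a b => by
  simpa [mul_assoc] using ((Cg.refl (a * x⁻¹)).mulD h.symm).mulD (Cg.refl b)

lemma Cg.mem_B (hm : IsCoprime m M.D) (h : M.Cg m x y) : x⁻¹ * y ∈ M.B m := fun a b => by
  simpa [mul_assoc] using ((Cg.refl (a * x⁻¹)).mul hm h.symm).mul hm (Cg.refl b)

lemma index_ne_zero {J : Subgroup G} (hm : m ≠ 0) (h : ∀ x y, M.Cg m x y → x⁻¹ * y ∈ J) :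
    J.index ≠ 0 := by
  have : NeZero m.natAbs := ⟨Int.natAbs_ne_zero.2 hm⟩
  have : Finite (G ⧸ J) := by
    refine Finite.of_surjective
      (fun a : Fin M.h → ZMod m.natAbs => (QuotientGroup.mk (M.co.symm fun i => (a i).val) : G ⧸ J))
      fun q => ?_
    obtain ⟨x, rfl⟩ := QuotientGroup.mk_surjective q
    refine ⟨fun i => (M.co x i : ZMod m.natAbs), QuotientGroup.eq.2 (h _ _ fun i => ?_)⟩
    rw [Equiv.apply_symm_apply, ← Int.modEq_natAbs, ← ZMod.intCast_eq_intCast_iff]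
    simp
  exact Subgroup.index_ne_zero_of_finite

variable (M) in
/-- integer echelon data of a subgroup -/
structure Ech (H : Subgroup G) where
  d : Fin M.h → ℤ
  η : Fin M.h → G
  mem : ∀ i, η i ∈ H
  memΓ : ∀ i : Fin M.h, η i ∈ M.Γ i
  co_η : ∀ i, M.co (η i) i = d i
  dvd : ∀ (i : Fin M.h), ∀ y ∈ H, y ∈ M.Γ i → d i ∣ M.co y i

lemma exists_ech (H : Subgroup G) : Nonempty (M.Ech H) := by
  have : ∀ i : Fin M.h, ∃ η ∈ H, η ∈ M.Γ i ∧ ∀ y ∈ H, y ∈ M.Γ i → M.co η i ∣ M.co y i := by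
    intro i
    let A : AddSubgroup ℤ :=
      { carrier := {c | ∃ y ∈ H, y ∈ M.Γ i ∧ M.co y i = c}
        zero_mem' := ⟨1, one_mem _, one_mem _, M.co_one i⟩
        add_mem' := by
          rintro _ _ ⟨x, hx, hx', rfl⟩ ⟨y, hy, hy', rfl⟩
          exact ⟨x * y, mul_mem hx hy, mul_mem hx' hy', Tri.addR hy' _ le_rfl⟩
        neg_mem' := by
          rintro _ ⟨x, hx, hx', rfl⟩
          exact ⟨x⁻¹, inv_mem hx, inv_mem hx', Tri.co_inv hx' le_rfl⟩ }
    obtain ⟨d, hd⟩ := Int.subgroup_cyclic A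
    have hdA : d ∈ A := by rw [hd]; exact AddSubgroup.subset_closure rfl
    obtain ⟨η, h1, h2, rfl⟩ := hdA
    refine ⟨η, h1, h2, fun y hy hy' => ?_⟩
    have : M.co y i ∈ A := ⟨y, hy, hy', rfl⟩
    rw [hd, AddSubgroup.mem_closure_singleton] at this
    obtain ⟨a, ha⟩ := this
    exact ⟨a, by rw [← ha, smul_eq_mul, mul_comm]⟩
  choose η h1 h2 h3 using this
  exact ⟨⟨fun i => M.co (η i) i, η, h1, h2, fun _ => rfl, h3⟩⟩

namespace Ech

variable {H : Subgroup G} (E : M.Ech H)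

lemma step {j : Fin M.h} {y : G} (hy : y ∈ M.Γ j) {a : ℤ} (ha : M.co y j = E.d j * a) :
    y * E.η j ^ (-a) ∈ M.Γ (j + 1) := by
  refine Tri.mem_Γ_succ (mul_mem hy (zpow_mem (E.memΓ j) _)) ?_
  rw [Tri.addR (zpow_mem (E.memΓ j) _) _ le_rfl, Tri.co_zpow (E.memΓ j) _ le_rfl, E.co_η, ha]
  simp [mul_comm]

lemma exit {x : G} (hx : x ∉ H) :
    ∃ η ∈ H, ∃ i : Fin M.h, x * η ∈ M.Γ i ∧ ¬ E.d i ∣ M.co (x * η) i := by
  by_contra hc
  push Not at hc
  have : ∀ i ≤ M.h, ∃ η ∈ H, x * η ∈ M.Γ i := by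
    intro i
    induction i with
    | zero => exact fun _ => ⟨1, one_mem _, Tri.mem_Γ_zero _⟩
    | succ i ih =>
      intro hi
      obtain ⟨η, h1, h2⟩ := ih (Nat.le_of_succ_le hi)
      obtain ⟨a, ha⟩ := hc η h1 ⟨i, hi⟩ h2
      exact ⟨η * E.η ⟨i, hi⟩ ^ (-a), mul_mem h1 (zpow_mem (E.mem _) _), by
        rw [← mul_assoc]; exact E.step (j := ⟨i, hi⟩) h2 ha⟩
  obtain ⟨η, h1, h2⟩ := this M.h le_rfl
  rw [eq_inv_of_mul_eq_one_left (Tri.eq_one_of_mem le_rfl h2)] at hx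
  exact hx (inv_mem h1)

lemma sift (md : ℕ → ℤ) (hmd : ∀ j : Fin M.h, md (j + 1) ∣ md j ∧ ∀ a y, E.d j ≠ 0 →
      md j ∣ E.d j * a → M.Cg (md (j + 1)) (y * E.η j ^ (-a)) y)
    {i : Fin M.h} {x y : G} (hx : x ∈ M.Γ i) (hy : y ∈ H) (h : M.Cg (md 0) y x) :
    ∃ c, E.d i ∣ c ∧ c ≡ M.co x i [ZMOD md i] := by
  have : ∀ j : ℕ, j ≤ i → ∃ y ∈ H, y ∈ M.Γ j ∧ M.Cg (md j) y x := by
    intro j
    induction j with
    | zero => exact fun _ => ⟨y, hy, Tri.mem_Γ_zero _, h⟩
    | succ j ih =>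
      intro hj
      obtain ⟨y, h1, h2, h3⟩ := ih (Nat.le_of_succ_le hj)
      let j' : Fin M.h := ⟨j, (Nat.lt_of_succ_le hj).trans i.2⟩
      obtain ⟨a, ha⟩ := E.dvd j' y h1 h2
      by_cases h0 : E.d j' = 0
      · exact ⟨y, h1, Tri.mem_Γ_succ (i := j') h2 (by rw [ha, h0, zero_mul]), h3.of_dvd (hmd j').1⟩
      refine ⟨_, mul_mem h1 (zpow_mem (E.mem j') (-a)), E.step (j := j') h2 ha,
        ((hmd j').2 a y h0 ?_).trans (h3.of_dvd (hmd j').1)⟩
      have := h3 j'
      rw [hx j' hj, ha] at this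
      exact Int.modEq_zero_iff_dvd.1 this
  obtain ⟨y, h1, h2, h3⟩ := this i le_rfl
  exact ⟨_, E.dvd i y h1 h2, h3 i⟩

lemma uniform : ∃ J : Subgroup G, J.Normal ∧ J.index ≠ 0 ∧ ∀ (i : Fin M.h), ∀ x ∈ M.Γ i,
    E.d i ≠ 0 → ¬ E.d i ∣ M.co x i → x ∉ H ⊔ J := by
  set e : ℤ := (∏ j, if E.d j = 0 then 1 else E.d j) * (M.D * M.D) with he
  have hD := M.D_pos.ne'
  have he0 : e ≠ 0 := mul_ne_zero (Finset.prod_ne_zero_iff.2 fun j _ => by
    split_ifs with h <;> simp [h]) (mul_ne_zero hD hD)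
  have hd : ∀ j, E.d j ≠ 0 → E.d j * (M.D * M.D) ∣ e := fun j hj => by
    refine mul_dvd_mul_right ?_ _
    have := Finset.dvd_prod_of_mem (fun j => if E.d j = 0 then 1 else E.d j) (Finset.mem_univ j)
    rwa [if_neg hj] at this
  have hpow : ∀ j : Fin M.h, e ^ (M.h - j) = e * e ^ (M.h - (j + 1)) := fun j => by
    rw [← pow_succ', show M.h - (j + 1) + 1 = M.h - j by have := j.2; omega]
  refine ⟨M.B (e ^ M.h), inferInstance, index_ne_zero (m := M.D * (M.D * e ^ M.h))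
    (mul_ne_zero hD (mul_ne_zero hD (pow_ne_zero _ he0))) fun _ _ => Cg.mem_BD,
    fun i x hx h0 h1 h2 => h1 ?_⟩
  obtain ⟨y, hy, hb⟩ := mem_sup_normal.1 h2
  obtain ⟨c, h3, h4⟩ := E.sift (fun j => e ^ (M.h - j)) (fun j => ⟨by
    rw [hpow j]; exact dvd_mul_left _ _, fun a y h5 h6 => by
      have h7 : M.D * (M.D * e ^ (M.h - (j + 1))) ∣ a := by
        rw [hpow j] at h6
        have := (mul_dvd_mul_right (hd j h5) _).trans h6
        rw [mul_assoc, mul_assoc] at this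
        exact (mul_dvd_mul_iff_left h5).1 this
      simpa using (Cg.refl y).mulD ((Cg.refl (E.η j)).powD
        (Int.modEq_zero_iff_dvd.2 h7).neg)⟩) hx hy (Cg.of_B hb)
  have h5 : E.d i ∣ e ^ (M.h - i) := by
    rw [hpow i]; exact ((dvd_mul_right _ _).trans (hd i h0)).mul_right _
  simpa using (h4.of_dvd h5).dvd.add h3

lemma prime_sep {p : ℕ} (hp : p.Prime) (hD : ¬ (p : ℤ) ∣ M.D)
    (hd : ∀ j, E.d j ≠ 0 → ¬ (p : ℤ) ∣ E.d j) {i : Fin M.h} {x : G} (hx : x ∈ M.Γ i)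
    (h0 : E.d i = 0) (h1 : ¬ (p : ℤ) ∣ M.co x i) : x ∉ H ⊔ M.B p := by
  intro h2
  have hp' := Nat.prime_iff_prime_int.1 hp
  have hc : IsCoprime (p : ℤ) M.D := (hp'.coprime_iff_not_dvd).2 hD
  obtain ⟨y, hy, hb⟩ := mem_sup_normal.1 h2
  obtain ⟨c, h3, h4⟩ := E.sift (fun _ => p) (fun j => ⟨dvd_rfl, fun a y h5 h6 => by
      have h7 := (hp'.dvd_or_dvd h6).resolve_left (hd j h5)
      simpa using (Cg.refl y).mul hc ((Cg.refl (E.η j)).pow hc
        (Int.modEq_zero_iff_dvd.2 h7).neg)⟩) hx hy (Cg.of_B hb)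
  rw [h0, zero_dvd_iff] at h3
  rw [h3] at h4
  exact h1 (Int.modEq_zero_iff_dvd.1 h4.symm)

end Ech

lemma co_mul_sub' (j : Fin M.h) (x y : G) :
    M.co (y * x) j - M.co x j = M.co (y * M.trunc j x) j := by
  have h1 := Tri.addR (Tri.trunc_inv_mul (M := M.toTri) j x) (y * M.trunc j x) (le_refl (j : ℕ))
  have h2 := Tri.addR (Tri.trunc_inv_mul (M := M.toTri) j x) (M.trunc j x) (le_refl (j : ℕ))
  rw [mul_inv_cancel_left, Tri.co_trunc, if_neg (lt_irrefl _), zero_add] at h2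
  rw [mul_assoc, mul_inv_cancel_left, ← h2] at h1
  rw [h1, add_sub_cancel_right]

variable (M) in
lemma growth (S : Finset G) : ∃ C : ℕ, ∀ n x, InBall S n x → ∀ i,
    ((|M.co x i| : ℤ) : ℝ) ≤ (n + 2 : ℝ) ^ C := by
  classical
  obtain ⟨C0, hC0⟩ : ∃ C : ℕ, ∀ y, (y ∈ S ∨ y⁻¹ ∈ S) → ∀ i, ((|M.co y i| : ℤ) : ℝ) ≤ 2 ^ C := by
    obtain ⟨n, hn⟩ := pow_unbounded_of_one_lt
      (∑ y ∈ S ∪ S.image (·⁻¹), ∑ i, ((|M.co y i| : ℤ) : ℝ)) (one_lt_two (α := ℝ))
    refine ⟨n, fun y hy i => le_trans ?_ hn.le⟩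
    have h1 : y ∈ S ∪ S.image (·⁻¹) := by
      rcases hy with h | h
      · exact Finset.mem_union_left _ h
      · exact Finset.mem_union_right _ (Finset.mem_image.2 ⟨_, h, inv_inv y⟩)
    refine le_trans ?_ (Finset.single_le_sum (f := fun y => ∑ i, ((|M.co y i| : ℤ) : ℝ))
      (fun _ _ => by positivity) h1)
    exact Finset.single_le_sum (f := fun i => ((|M.co y i| : ℤ) : ℝ)) (fun _ _ => by positivity)
      (Finset.mem_univ i)
  have : ∀ j ≤ M.h, ∃ C : ℕ, ∀ n x, InBall S n x → ∀ i : Fin M.h, (i : ℕ) < j →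
      ((|M.co x i| : ℤ) : ℝ) ≤ (n + 2 : ℝ) ^ C := by
    intro j
    induction j with
    | zero => exact fun _ => ⟨0, fun _ _ _ _ h => absurd h (Nat.not_lt_zero _)⟩
    | succ j ih =>
      intro hj
      obtain ⟨C, hC⟩ := ih (Nat.le_of_succ_le hj)
      let j' : Fin M.h := ⟨j, hj⟩
      obtain ⟨C1, hC1⟩ := norm_eval_le (Int.castRingHom ℂ) (M.Gm j')
      have key : ∀ (n : ℕ) (l : List G), l.length ≤ n → (∀ y ∈ l, y ∈ S ∨ y⁻¹ ∈ S) →
          ((|M.co l.prod j'| : ℤ) : ℝ) ≤ l.length * ((n + 2 : ℝ) ^ (C + C0 + 1)) ^ C1 := by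
        intro n l
        have hn : (2 : ℝ) ≤ n + 2 := by linarith [Nat.cast_nonneg (α := ℝ) n]
        induction l with
        | nil => intro _ _; simp [M.co_one]
        | cons y l ihl =>
          intro h1 h2
          have h3 : l.length ≤ n := Nat.le_of_succ_le h1
          have h4 : ∀ y ∈ l, y ∈ S ∨ y⁻¹ ∈ S := fun z hz => h2 z (List.mem_cons_of_mem _ hz)
          have h5 := hC1 ((n + 2 : ℝ) ^ (C + C0 + 1))
            (Sum.elim (M.co y) (M.co (M.trunc j l.prod)))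
            (hn.trans (le_self_pow₀ (by linarith) (by omega))) (by
              rintro (k | k)
              · have := hC0 y (h2 y List.mem_cons_self) k
                simp only [Sum.elim_inl, eq_intCast, Complex.norm_intCast]
                push_cast at this
                exact this.trans ((pow_le_pow_left₀ zero_le_two hn _).trans
                  (pow_le_pow_right₀ (by linarith) (by omega)))
              · simp only [Sum.elim_inr, eq_intCast, Complex.norm_intCast, Tri.co_trunc]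
                split_ifs with h
                · have := hC n _ ⟨l, h3, h4, rfl⟩ k h
                  push_cast at this
                  exact this.trans (pow_le_pow_right₀ (by linarith) (by omega))
                · simp only [Int.cast_zero, abs_zero]; positivity)
          rw [← M.co_mul, ← co_mul_sub' j'] at h5
          simp only [eq_intCast, Complex.norm_intCast] at h5
          push_cast at h5
          have h6 := ihl h3 h4
          have h7 : (1 : ℝ) ≤ M.D := by exact_mod_cast M.D_pos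
          rw [abs_mul, abs_of_pos (by linarith : (0 : ℝ) < M.D)] at h5
          have h8 := abs_nonneg ((M.co (y * l.prod) j' : ℝ) - M.co l.prod j')
          have h9 := abs_sub_abs_le_abs_sub (M.co (y * l.prod) j' : ℝ) (M.co l.prod j')
          rw [List.prod_cons, List.length_cons]
          push_cast at h6 ⊢
          nlinarith
      refine ⟨C + (C + C0 + 1) * C1 + 1, ?_⟩
      rintro n _ ⟨l, h1, h2, rfl⟩ i hi
      have hn : (2 : ℝ) ≤ n + 2 := by linarith [Nat.cast_nonneg (α := ℝ) n]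
      rcases Nat.lt_succ_iff_lt_or_eq.1 hi with h | h
      · exact (hC n _ ⟨l, h1, h2, rfl⟩ i h).trans (pow_le_pow_right₀ (by linarith) (by omega))
      · obtain rfl : i = j' := Fin.ext h
        refine (key n l h1 h2).trans ?_
        rw [← pow_mul, pow_succ']
        have h3 : (l.length : ℝ) ≤ n := by exact_mod_cast h1
        exact mul_le_mul (by linarith) (pow_le_pow_right₀ (by linarith) (by omega))
          (by positivity) (by linarith)
  obtain ⟨C, hC⟩ := this M.h le_rfl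
  exact ⟨C, fun n x hx i => hC n x hx i i.2⟩

lemma exists_polycyclic (M : Model G) : ∃ (m : ℕ) (s : ℕ → Subgroup G), IsPolycyclicSeries m s := by
  refine ⟨M.h, fun i => M.Γ (M.h - i), ?_, ?_, fun i hi => ⟨Tri.Γ_anti (by omega),
    inferInstance, ?_⟩⟩
  · exact eq_bot_iff.2 fun x hx => Tri.eq_one_of_mem (by simp) hx
  · exact eq_top_iff.2 fun x _ => by simpa using Tri.mem_Γ_zero x
  · let j : Fin M.h := ⟨M.h - (i + 1), by omega⟩
    obtain ⟨e, he, he1⟩ := exists_unit j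
    refine ⟨QuotientGroup.mk ⟨e, he⟩, fun q => ?_⟩
    obtain ⟨⟨x, hx⟩, rfl⟩ := QuotientGroup.mk_surjective q
    refine ⟨M.co x j, ?_⟩
    simp only [← QuotientGroup.mk_zpow]
    refine QuotientGroup.eq.2 (Subgroup.mem_subgroupOf.2 ?_)
    rw [show M.h - i = j + 1 by simp only [j]; omega]
    refine Tri.mem_Γ_succ (mul_mem (inv_mem (zpow_mem he _)) hx) ?_
    change M.co ((e ^ M.co x j)⁻¹ * x) j = 0
    rw [Tri.addR hx _ le_rfl, Tri.co_inv (zpow_mem he _) le_rfl, Tri.co_zpow he _ le_rfl, he1]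
    simp

end Model

lemma index_le_of_series {m : ℕ} {s : ℕ → Subgroup G} (hs : IsPolycyclicSeries m s) :
    ∃ c : ℕ, 0 < c ∧ ∀ p : ℕ, p.Prime → ¬ p ∣ c → ∀ J : Subgroup G, J.Normal → (∀ g, g ^ p ∈ J) →
      J.index ≠ 0 → ∃ j ≤ {i | i < m ∧
        Infinite (s (i + 1) ⧸ (s i).subgroupOf (s (i + 1)))}.ncard, J.index = p ^ j := by
  classical
  obtain ⟨h0, hm, hs⟩ := hs
  refine ⟨∏ i ∈ Finset.range m, max 1 (Nat.card (s (i + 1) ⧸ (s i).subgroupOf (s (i + 1)))),
    Finset.prod_pos fun i _ => by omega, fun p hp hc J hJ hpow hind => ?_⟩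
  have : Fact p.Prime := ⟨hp⟩
  have : Finite (G ⧸ J) := Nat.finite_of_card_ne_zero hind
  let π := QuotientGroup.mk' J
  have hπ : ∀ g, π g ^ p = 1 := fun g => by
    rw [← map_pow]; exact (QuotientGroup.eq_one_iff _).2 (hpow g)
  have key : ∀ n ≤ m, Nat.card ((s n).map π) ≤ p ^ {i | i < n ∧
        Infinite (s (i + 1) ⧸ (s i).subgroupOf (s (i + 1)))}.ncard := by
    intro n
    induction n with
    | zero => intro _; simp [h0]
    | succ n ih =>
      intro hn
      have ih := ih (Nat.le_of_succ_le hn)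
      obtain ⟨hle, hnorm, ⟨g, hg⟩⟩ := hs n hn
      obtain ⟨g, rfl⟩ := QuotientGroup.mk_surjective g
      have h1 : ∀ x ∈ s (n + 1), ∃ c : ℤ, ((g : G) ^ c)⁻¹ * x ∈ s n := fun x hx => by
        obtain ⟨c, hc⟩ := hg (QuotientGroup.mk ⟨x, hx⟩)
        simp only [← QuotientGroup.mk_zpow] at hc
        exact ⟨c, Subgroup.mem_subgroupOf.1 (QuotientGroup.eq.1 hc)⟩
      have hfin : ∀ n : ℕ, {i | i < n ∧
          Infinite (s (i + 1) ⧸ (s i).subgroupOf (s (i + 1)))}.Finite := fun n =>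
        (Set.finite_lt_nat n).subset fun i hi => hi.1
      by_cases hinf : Infinite (s (n + 1) ⧸ (s n).subgroupOf (s (n + 1)))
      · have h2 : {i | i < n + 1 ∧ Infinite (s (i + 1) ⧸ (s i).subgroupOf (s (i + 1)))} =
            insert n {i | i < n ∧ Infinite (s (i + 1) ⧸ (s i).subgroupOf (s (i + 1)))} := by
          ext i
          simp only [Set.mem_ofPred_eq, Set.mem_insert_iff, Nat.lt_succ_iff_lt_or_eq]
          constructor
          · rintro ⟨h | h, h'⟩
            exacts [Or.inr ⟨h, h'⟩, Or.inl h]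
          · rintro (rfl | ⟨h, h'⟩)
            exacts [⟨Or.inr rfl, hinf⟩, ⟨Or.inl h, h'⟩]
        rw [h2, Set.ncard_insert_of_notMem (by simp) (hfin n), pow_succ']
        refine le_trans ?_ (Nat.mul_le_mul_left p ih)
        have h3 := Nat.card_le_card_of_surjective
          (fun a : Fin p × (s n).map π => (⟨π g ^ (a.1 : ℕ) * a.2, mul_mem
            (pow_mem (Subgroup.mem_map_of_mem π g.2) _) (Subgroup.map_mono hle a.2.2)⟩ :
            (s (n + 1)).map π)) (by
          rintro ⟨_, x, hx, rfl⟩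
          obtain ⟨c, hc⟩ := h1 x hx
          have h4 : (0 : ℤ) < p := by exact_mod_cast hp.pos
          refine ⟨(⟨(c % p).toNat, by
            have := Int.emod_lt_of_pos c h4
            have := Int.emod_nonneg c h4.ne'
            omega⟩, ⟨_, Subgroup.mem_map_of_mem π hc⟩), Subtype.ext ?_⟩
          simp only
          rw [← zpow_natCast, Int.toNat_of_nonneg (Int.emod_nonneg c h4.ne'),
            ← zpow_eq_zpow_emod' c (hπ g), ← map_zpow, ← map_mul, mul_inv_cancel_left])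
        simpa using h3
      · have h2 : (s (n + 1)).map π ≤ (s n).map π := by
          have h3 : Finite (s (n + 1) ⧸ (s n).subgroupOf (s (n + 1))) := not_infinite_iff_finite.1 hinf
          set r := Nat.card (s (n + 1) ⧸ (s n).subgroupOf (s (n + 1))) with hr
          have h4 : (g : G) ^ r ∈ s n := by
            have := pow_card_eq_one' (x := (QuotientGroup.mk g :
              s (n + 1) ⧸ (s n).subgroupOf (s (n + 1))))
            rw [← QuotientGroup.mk_pow, QuotientGroup.eq_one_iff] at this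
            exact Subgroup.mem_subgroupOf.1 this
          have h5 : ¬ p ∣ r := fun h => hc (h.trans ?_)
          · have h6 : π g ∈ (s n).map π := by
              have h7 : π g ∈ Subgroup.zpowers (π g ^ r) := mem_zpowers_pow_iff.2
                (((Nat.Prime.coprime_iff_not_dvd hp).2 h5).symm.coprime_dvd_right
                  (orderOf_dvd_of_pow_eq_one (hπ g)))
              refine Subgroup.zpowers_le.2 ?_ h7
              rw [← map_pow]
              exact Subgroup.mem_map_of_mem π h4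
            rintro _ ⟨x, hx, rfl⟩
            obtain ⟨c, hc⟩ := h1 x hx
            have := mul_mem (zpow_mem h6 c) (Subgroup.mem_map_of_mem π hc)
            rwa [← map_zpow, ← map_mul, mul_inv_cancel_left] at this
          · have := Finset.dvd_prod_of_mem (fun i => max 1
              (Nat.card (s (i + 1) ⧸ (s i).subgroupOf (s (i + 1))))) (Finset.mem_range.2 hn)
            rwa [max_eq_right (Nat.card_pos)] at this
        refine (Subgroup.card_le_of_le h2).trans (ih.trans (Nat.pow_le_pow_right hp.pos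
          (Set.ncard_le_ncard (fun i hi => ⟨Nat.lt_succ_of_lt hi.1, hi.2⟩) (hfin _))))
  have h1 : IsPGroup p (G ⧸ J) := fun q => by
    obtain ⟨g, rfl⟩ := QuotientGroup.mk'_surjective J q
    exact ⟨1, by rw [pow_one]; exact hπ g⟩
  obtain ⟨j, hj⟩ := h1.exists_card_eq
  refine ⟨j, ?_, hj⟩
  have := key m le_rfl
  rw [hm, Subgroup.map_top_of_surjective _ (QuotientGroup.mk'_surjective J), Subgroup.card_top,
    hj] at this
  exact (Nat.pow_le_pow_iff_right hp.one_lt).1 this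

end Pool.Agent.P.MP_5b4d81_al
end

-- part Pool.Agent.P.MP_5b4d81_al.Echelon
section

set_option autoImplicit false

namespace Pool.Agent.P.MP_5b4d81_al

open MvPolynomial

universe u

/-- evaluation of a polynomial map at an integer point -/
noncomputable def ev {h : ℕ} {R : Type} [CommRing R] (ρ : Fin h → MvPolynomial (Fin h) R)
    (a : Fin h → ℤ) : Fin h → R := fun i => eval (fun j => (a j : R)) (ρ i)

/-- Algebraic description of a family of quotients together with a separating function. -/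
structure Datum {G : Type u} [Group G] {h : ℕ} (co : G → Fin h → ℤ) (H : Subgroup G) (k : ℕ)
    (R : Type) [CommRing R] where
  T : Finset (Fin h)
  hT : h ≤ T.card + k
  ρ : Fin h → MvPolynomial (Fin h) R
  μ : Fin h → MvPolynomial (Fin h ⊕ Fin h) R
  g : MvPolynomial (Fin h) R
  c : Fin h → ℤ
  c_ne : ∀ i, c i ≠ 0
  zero : ∀ a, ∀ t ∈ T, ev ρ (co a) t = 0
  mul : ∀ a b i, (c i : R) * ev ρ (co (a * b)) i =
    eval (Sum.elim (ev ρ (co a)) (ev ρ (co b))) (μ i)
  sep : ∀ η ∈ H, eval (ev ρ (co η)) g = 0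

noncomputable def Datum.val {G : Type u} [Group G] {h : ℕ} {co : G → Fin h → ℤ} {H : Subgroup G}
    {k : ℕ} {R : Type} [CommRing R] (d : Datum co H k R) (x : G) : R := eval (ev d.ρ (co x)) d.g

/-- A unipotent group over a field, in triangular coordinates. -/
structure FModel (K : Type) [Group K] (F : Type) [Field F] extends Tri K F where
  pw : K → F → K
  Pm : Fin h → MvPolynomial (Fin h ⊕ Fin h) F
  Pp : Fin h → MvPolynomial (Option (Fin h)) F
  co_mul : ∀ x y i, co (x * y) i = eval (Sum.elim (co x) (co y)) (Pm i)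
  co_pw : ∀ x r i, co (pw x r) i = eval (fun o => o.elim r (co x)) (Pp i)
  pw_lin : ∀ (j : Fin h) x r, (∀ i < j, co x i = 0) → co (pw x r) j = r * co x j

namespace FModel

variable {K : Type} [Group K] {F : Type} [Field F] (W : FModel K F)

def FSub (J : Subgroup K) : Prop := ∀ x ∈ J, ∀ r, W.pw x r ∈ J

open Classical in
noncomputable def piv (J : Subgroup K) : Finset (Fin W.h) :=
  Finset.univ.filter fun i => ∃ v ∈ J, v ∈ W.Γ i ∧ W.co v i ≠ 0

variable {W}

lemma mem_piv {J : Subgroup K} {i : Fin W.h} :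
    i ∈ W.piv J ↔ ∃ v ∈ J, v ∈ W.Γ i ∧ W.co v i ≠ 0 := by simp [piv]

lemma pw_mem {i : ℕ} {x : K} (hx : x ∈ W.Γ i) (r : F) : W.pw x r ∈ W.Γ i := fun j hj => by
  rw [W.pw_lin j x r fun k hk => hx k (lt_trans hk hj), hx j hj, mul_zero]

lemma piv_top : W.piv ⊤ = Finset.univ := by
  refine Finset.eq_univ_of_forall fun i => mem_piv.2 ⟨W.co.symm (Pi.single i 1), trivial,
    fun j hj => by simp [Fin.ext_iff, hj.ne], by simp⟩

lemma piv_step {B B' : Subgroup K}
    (h : ∀ u ∈ B, ∀ v ∈ B, u ∉ B' → ∃ r, v * W.pw u r ∈ B') :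
    (W.piv B).card ≤ (W.piv B').card + 1 := by
  by_cases h0 : ∀ u ∈ B, u ∈ W.Γ 0 → u ∈ B'
  · refine (Finset.card_le_card fun i hi => ?_).trans (Nat.le_succ _)
    obtain ⟨v, h1, h2⟩ := mem_piv.1 hi
    exact mem_piv.2 ⟨v, h0 v h1 (Tri.mem_Γ_zero _), h2⟩
  obtain ⟨n, h1, h2⟩ := Nat.exists_not_and_succ_of_not_zero_of_exists
    (p := fun n => ∀ u ∈ B, u ∈ W.Γ n → u ∈ B') h0
    ⟨W.h, fun u _ hu => by rw [Tri.eq_one_of_mem le_rfl hu]; exact one_mem _⟩
  push Not at h1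
  obtain ⟨u, hu, hu1, hu2⟩ := h1
  have hn : n < W.h := by
    by_contra hc
    rw [Tri.eq_one_of_mem (not_lt.1 hc) hu1] at hu2
    exact hu2 (one_mem _)
  refine (Finset.card_le_card (t := insert ⟨n, hn⟩ (W.piv B')) fun i hi => ?_).trans
    (Finset.card_insert_le _ _)
  obtain ⟨v, h3, h4, h5⟩ := mem_piv.1 hi
  rcases lt_trichotomy (i : ℕ) n with h6 | h6 | h6
  · obtain ⟨r, hr⟩ := h u hu v h3 hu2
    exact Finset.mem_insert_of_mem (mem_piv.2 ⟨_, hr, mul_mem h4 (Tri.Γ_anti h6.le (pw_mem hu1 r)),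
      by rwa [Tri.mulR_lt (pw_mem hu1 r) v h6]⟩)
  · exact Finset.mem_insert.2 (Or.inl (Fin.ext h6))
  · exact Finset.mem_insert_of_mem (mem_piv.2 ⟨v, h2 v h3 (Tri.Γ_anti h6 h4), h4, h5⟩)

lemma uniq {J : Subgroup K} {a b : K} (h : a⁻¹ * b ∈ J) (h' : ∀ t ∈ W.piv J, W.co a t = W.co b t) :
    a = b := by
  have : ∀ i ≤ W.h, a⁻¹ * b ∈ W.Γ i := by
    intro i
    induction i with
    | zero => exact fun _ => Tri.mem_Γ_zero _
    | succ i ih =>
      intro hi
      have h1 := ih (Nat.le_of_succ_le hi)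
      refine Tri.mem_Γ_succ (i := ⟨i, hi⟩) h1 ?_
      by_contra hc
      have h2 := Tri.addR h1 a (j := ⟨i, hi⟩) le_rfl
      rw [mul_inv_cancel_left, h' _ (mem_piv.2 ⟨_, h, h1, hc⟩)] at h2
      exact hc (by simpa using h2)
  exact inv_mul_eq_one.1 (Tri.eq_one_of_mem le_rfl (this W.h le_rfl))

lemma eval_bind {σ τ : Type} (a : τ → F) (Q : σ → MvPolynomial τ F) (P : MvPolynomial σ F) :
    eval a (bind₁ Q P) = eval (fun i => eval a (Q i)) P := by
  rw [← coe_aeval_eq_eval, ← coe_aeval_eq_eval]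
  simp only [RingHom.coe_coe, aeval_bind₁]

lemma sift {J : Subgroup K} (hJ : W.FSub J) : ∃ (r : K → K)
    (ρ : Fin W.h → MvPolynomial (Fin W.h) F), (∀ a i, W.co (r a) i = eval (W.co a) (ρ i)) ∧
      (∀ a, a⁻¹ * r a ∈ J) ∧ ∀ a, ∀ t ∈ W.piv J, W.co (r a) t = 0 := by
  have : ∀ n ≤ W.h, ∃ (r : K → K) (ρ : Fin W.h → MvPolynomial (Fin W.h) F),
      (∀ a i, W.co (r a) i = eval (W.co a) (ρ i)) ∧
      (∀ a, a⁻¹ * r a ∈ J) ∧ ∀ a, ∀ t ∈ W.piv J, (t : ℕ) < n → W.co (r a) t = 0 := by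
    intro n
    induction n with
    | zero => exact fun _ => ⟨id, X, by simp, by simp, by simp⟩
    | succ n ih =>
      intro hn
      obtain ⟨r, ρ, h1, h2, h3⟩ := ih (Nat.le_of_succ_le hn)
      let n' : Fin W.h := ⟨n, hn⟩
      by_cases h : n' ∈ W.piv J
      · obtain ⟨v, hv, hv1, hv2⟩ := mem_piv.1 h
        refine ⟨fun a => r a * W.pw v (-(W.co v n')⁻¹ * W.co (r a) n'),
          fun i => bind₁ (Sum.elim ρ fun j => bind₁ (fun o => o.elim (C (-(W.co v n')⁻¹) * ρ n')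
            fun l => C (W.co v l)) (W.Pp j)) (W.Pm i), fun a i => ?_, fun a => ?_,
          fun a t ht htn => ?_⟩
        · rw [W.co_mul, eval_bind]
          congr 2
          funext o
          rcases o with j | j
          · simp [h1]
          · simp only [Sum.elim_inr, W.co_pw, eval_bind]
            congr 2
            funext o
            cases o <;> simp [h1]
        · rw [← mul_assoc]; exact mul_mem (h2 a) (hJ v hv _)
        · rcases Nat.lt_succ_iff_lt_or_eq.1 htn with h4 | h4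
          · rw [Tri.mulR_lt (pw_mem hv1 _) _ h4, h3 a t ht h4]
          · obtain rfl : t = n' := Fin.ext h4
            rw [Tri.addR (pw_mem hv1 _) _ le_rfl, W.pw_lin _ _ _ hv1]
            field_simp
            ring
      · refine ⟨r, ρ, h1, h2, fun a t ht htn => ?_⟩
        rcases Nat.lt_succ_iff_lt_or_eq.1 htn with h4 | h4
        · exact h3 a t ht h4
        · obtain rfl : t = n' := Fin.ext h4
          exact absurd ht h
  obtain ⟨r, ρ, h1, h2, h3⟩ := this W.h le_rfl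
  exact ⟨r, ρ, h1, h2, fun a t ht => h3 a t ht t.2⟩

lemma sift_congr {J : Subgroup K} {r : K → K} (h2 : ∀ a, a⁻¹ * r a ∈ J)
    (h3 : ∀ a, ∀ t ∈ W.piv J, W.co (r a) t = 0) {a b : K} (h : a⁻¹ * b ∈ J) : r a = r b := by
  refine uniq (W := W) (J := J) ?_ fun t ht => by rw [h3 a t ht, h3 b t ht]
  have := mul_mem (mul_mem (inv_mem (h2 a)) h) (h2 b)
  simpa [mul_assoc] using this

theorem exists_datum {G : Type u} [Group G] (ι : G →* K) (co : G → Fin W.h → ℤ)
    (hι : ∀ a i, W.co (ι a) i = (co a i : F)) {H : Subgroup G} {k : ℕ} {J V : Subgroup K}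
    (hJ : W.FSub J) (hn : J.Normal) (hV : W.FSub V) (hJV : J ≤ V) (hH : ∀ η ∈ H, ι η ∈ V)
    (hk : W.h ≤ (W.piv J).card + k) {x : G} (hx : ι x ∉ V) :
    ∃ d : Datum co H k F, d.val x ≠ 0 := by
  obtain ⟨r, ρ, h1, h2, h3⟩ := sift hJ
  obtain ⟨r', ρ', h1', h2', h3'⟩ := sift hV
  have hev : ∀ a, ev ρ (co a) = W.co (r (ι a)) := fun a => funext fun i => by
    rw [h1, ev, funext (hι a)]
  have hr1 : r' 1 = 1 := uniq (W := W) (J := V) (by simpa using h2' 1) fun t ht => by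
    rw [h3' 1 t ht, W.co_one]
  have hne : r' (ι x) ≠ 1 := fun h => hx (by simpa [h] using h2' (ι x))
  obtain ⟨i, hi⟩ : ∃ i, W.co (r' (ι x)) i ≠ 0 := by
    by_contra hc
    push Not at hc
    exact hne (W.co.injective (funext fun i => by rw [hc, W.co_one]))
  refine ⟨⟨W.piv J, hk, ρ, fun i => bind₁ W.Pm (ρ i), ρ' i, fun _ => 1, by simp,
    fun a t ht => by rw [hev, h3 _ t ht], fun a b i => ?_, fun η hη => ?_⟩, ?_⟩
  · rw [hev, hev, hev, eval_bind, ← funext (W.co_mul _ _), ← h1, map_mul,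
      sift_congr h2 h3 (b := r (ι a) * r (ι b))]
    · simp
    · have := mul_mem (hn.conj_mem _ (h2 (ι a)) (ι b)⁻¹) (h2 (ι b))
      simpa [mul_assoc] using this
  · rw [hev, ← h1', ← sift_congr h2' h3' (a := 1), hr1, W.co_one]
    simpa using mul_mem (hH η hη) (hJV (h2 (ι η)))
  · change eval (ev ρ (co x)) (ρ' i) ≠ 0
    rwa [hev, ← h1', ← sift_congr h2' h3' (hJV (h2 (ι x)))]

end FModel

end Pool.Agent.P.MP_5b4d81_al
end

-- part Pool.Agent.P.MP_5b4d81_al.UD
section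

set_option autoImplicit false

namespace Pool.Agent.P.MP_5b4d81_al

open Filter

universe u

/-- Ultraproducts of the rings `ℤ/p^e` and `ℤ/p` with a coefficient field section. -/
structure UD (U : Ultrafilter ℕ) (e : ℕ) where
  R : Type
  F : Type
  [instR : CommRing R]
  [instF : Field F]
  [instC : CharZero F]
  θ : (ℕ → ℤ) →+* R
  s : F →+* R
  surj : Function.Surjective θ
  ker : ∀ z, θ z = 0 ↔ ∀ᶠ p : ℕ in U, (p : ℤ) ^ e ∣ z p
  sec : ∀ z : ℕ → ℤ, ∃ r z', θ z' = s r ∧ ∀ᶠ p : ℕ in U, (p : ℤ) ∣ z' p - z p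
  inj : Function.Injective s

attribute [instance] UD.instR UD.instF UD.instC

/-- sequences divisible by `p^e` for most `p` -/
def divIdeal (U : Ultrafilter ℕ) (e : ℕ) : Ideal (ℕ → ℤ) where
  carrier := {z | ∀ᶠ p : ℕ in U, (p : ℤ) ^ e ∣ z p}
  zero_mem' := Eventually.of_forall fun _ => dvd_zero _
  add_mem' := fun ha hb => (ha.and hb).mono fun _ h => h.1.add h.2
  smul_mem' := fun _ _ hb => hb.mono fun _ h => h.mul_left _

lemma smooth_of_charZero (F : Type) [Field F] [CharZero F] : Algebra.FormallySmooth ℤ F := by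
  have h1 : Algebra.FormallySmooth ℤ ℚ := .of_isLocalization (nonZeroDivisors ℤ)
  obtain ⟨s, hs⟩ := exists_isTranscendenceBasis ℚ F
  have h2 := hs.isAlgebraic_field
  have h3 : Algebra.FormallySmooth ℚ F := .of_algebraicIndependent_of_isSeparable hs.1
  exact .comp ℤ ℚ F

theorem exists_UD (U : Ultrafilter ℕ) (hU : ∀ᶠ p : ℕ in U, p.Prime) (hc : (U : Filter ℕ) ≤ cofinite)
    (e : ℕ) (he : 1 ≤ e) : Nonempty (UD U e) := by
  have hmax : (divIdeal U 1).IsMaximal := by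
    refine Ideal.isMaximal_iff.2 ⟨fun h => ?_, fun J z hJ hz hzJ => ?_⟩
    · obtain ⟨p, h1, h2⟩ := (hU.and h).exists
      rw [pow_one, Pi.one_apply] at h2
      exact (Nat.prime_iff_prime_int.1 h1).not_dvd_one h2
    · have h1 : ∀ᶠ p : ℕ in U, ¬ (p : ℤ) ^ 1 ∣ z p := Ultrafilter.eventually_not.2 hz
      have h2 : ∀ p : ℕ, ∃ w : ℤ, p.Prime → ¬ (p : ℤ) ^ 1 ∣ z p → (p : ℤ) ^ 1 ∣ 1 - w * z p := by
        intro p
        by_cases h : p.Prime ∧ ¬ (p : ℤ) ^ 1 ∣ z p
        · rw [pow_one] at h ⊢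
          obtain ⟨a, b, hab⟩ := (Nat.prime_iff_prime_int.1 h.1).coprime_iff_not_dvd.2 h.2
          exact ⟨b, fun _ _ => ⟨a, by linarith⟩⟩
        · exact ⟨0, fun h1 h2 => absurd ⟨h1, h2⟩ h⟩
      choose w hw using h2
      have h3 : 1 - w * z ∈ J := hJ ((hU.and h1).mono fun p h => hw p h.1 h.2)
      simpa using J.add_mem h3 (J.mul_mem_left w hzJ)
  let := Ideal.Quotient.field (divIdeal U 1)
  have hchar : CharZero ((ℕ → ℤ) ⧸ divIdeal U 1) := by
    refine charZero_of_inj_zero fun n hn => ?_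
    rw [← map_natCast (Ideal.Quotient.mk (divIdeal U 1)), Ideal.Quotient.eq_zero_iff_mem] at hn
    have h1 : ∀ᶠ p : ℕ in U, n < p := hc (by
      rw [Nat.cofinite_eq_atTop]; exact eventually_gt_atTop n)
    obtain ⟨p, h2, h3⟩ := (h1.and hn).exists
    rw [pow_one, Pi.natCast_apply, Int.natCast_dvd_natCast] at h3
    exact Nat.eq_zero_of_dvd_of_lt h3 h2
  have hle : divIdeal U e ≤ divIdeal U 1 := fun z hz =>
    Eventually.mono hz fun p h => (pow_dvd_pow _ he).trans h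
  let π : ((ℕ → ℤ) ⧸ divIdeal U e) →+* ((ℕ → ℤ) ⧸ divIdeal U 1) := Ideal.Quotient.factor hle
  have hπ : Function.Surjective π := Ideal.Quotient.factor_surjective hle
  have hnil : IsNilpotent (RingHom.ker π) := by
    let P : (ℕ → ℤ) ⧸ divIdeal U e := Ideal.Quotient.mk _ fun p => (p : ℤ)
    have h1 : RingHom.ker π ≤ Ideal.span {P} := by
      intro x hx
      obtain ⟨z, rfl⟩ := Ideal.Quotient.mk_surjective x
      have h2 : z ∈ divIdeal U 1 := Ideal.Quotient.eq_zero_iff_mem.1 hx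
      refine Ideal.mem_span_singleton'.2 ⟨Ideal.Quotient.mk _ fun p => z p / p, ?_⟩
      rw [← map_mul, Ideal.Quotient.eq]
      refine Eventually.mono h2 fun p h => ?_
      rw [pow_one] at h
      simp [Int.ediv_mul_cancel h]
    refine ⟨e, le_bot_iff.1 ((Ideal.pow_right_mono h1 e).trans ?_)⟩
    rw [Ideal.span_singleton_pow, le_bot_iff, Ideal.span_singleton_eq_bot, ← map_pow,
      Ideal.Quotient.eq_zero_iff_mem]
    exact Eventually.of_forall fun p => dvd_rfl
  have hsm := smooth_of_charZero ((ℕ → ℤ) ⧸ divIdeal U 1)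
  let s := Algebra.FormallySmooth.liftOfSurjective (R := ℤ) (AlgHom.id ℤ _) π.toIntAlgHom hπ hnil
  have hs : ∀ r, π (s r) = r := fun r =>
    Algebra.FormallySmooth.liftOfSurjective_apply (AlgHom.id ℤ _) π.toIntAlgHom hπ hnil r
  refine ⟨{ R := (ℕ → ℤ) ⧸ divIdeal U e, F := (ℕ → ℤ) ⧸ divIdeal U 1, θ := Ideal.Quotient.mk _,
            s := s.toRingHom, surj := Ideal.Quotient.mk_surjective,
            ker := fun z => Ideal.Quotient.eq_zero_iff_mem, sec := fun z => ?_,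
            inj := Function.LeftInverse.injective hs }⟩
  obtain ⟨z', hz'⟩ := Ideal.Quotient.mk_surjective (s (Ideal.Quotient.mk _ z))
  refine ⟨_, z', hz', ?_⟩
  have := hs (Ideal.Quotient.mk _ z)
  rw [← hz'] at this
  have h1 : z' - z ∈ divIdeal U 1 := Ideal.Quotient.eq.1 this
  exact Eventually.mono h1 fun p h => by simpa using h

lemma prime_step {Q : Type u} [Group Q] [Finite Q] {p n : ℕ} (hp : p.Prime) {A A' : Subgroup Q}
    (hle : A ≤ A') (h1 : Nat.card A = p ^ n) (h2 : Nat.card A' = p ^ (n + 1)) :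
    (∀ u ∈ A', u ^ p ∈ A) ∧ ∀ u ∈ A', ∀ v ∈ A', u ∉ A → ∃ r : ℤ, v * u ^ r ∈ A := by
  have : Fact p.Prime := ⟨hp⟩
  have h3 : (A.subgroupOf A').index = p := by
    have := (A.subgroupOf A').card_mul_index
    rw [Nat.card_congr (Subgroup.subgroupOfEquivOfLe hle).toEquiv, h1, h2, pow_succ] at this
    exact Nat.eq_of_mul_eq_mul_left (pow_pos hp.pos n) this
  have h4 : (A.subgroupOf A').Normal := Subgroup.normal_of_index_eq_minFac_card (by
    rw [h3, h2, Nat.pow_minFac (Nat.succ_ne_zero n), hp.minFac_eq])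
  refine ⟨fun u hu => ?_, fun u hu v hv huA => ?_⟩
  · have := (A.subgroupOf A').pow_index_mem ⟨u, hu⟩
    rwa [h3] at this
  · have h5 : (QuotientGroup.mk ⟨u, hu⟩ : A' ⧸ A.subgroupOf A') ≠ 1 := fun h =>
      huA (Subgroup.mem_subgroupOf.1 ((QuotientGroup.eq_one_iff _).1 h))
    obtain ⟨r, hr⟩ := mem_zpowers_of_prime_card h3 h5
      (g' := (QuotientGroup.mk ⟨v, hv⟩ : A' ⧸ A.subgroupOf A')⁻¹)
    refine ⟨r, ?_⟩
    have : (QuotientGroup.mk (⟨v, hv⟩ * ⟨u, hu⟩ ^ r) : A' ⧸ A.subgroupOf A') = 1 := by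
      simp only at hr
      rw [QuotientGroup.mk_mul, QuotientGroup.mk_zpow, hr, mul_inv_cancel]
    exact Subgroup.mem_subgroupOf.1 ((QuotientGroup.eq_one_iff _).1 this)

lemma exists_chain {G : Type u} [Group G] {p j k : ℕ} (hp : p.Prime) (J : Subgroup G) [J.Normal]
    (hJ : J.index = p ^ j) (hjk : j ≤ k) : ∃ B : ℕ → Subgroup G, B 0 = ⊤ ∧ B k = J ∧ ∀ t, J ≤ B t ∧
      (∀ u ∈ B t, u ^ p ∈ B (t + 1)) ∧
      ∀ u ∈ B t, ∀ v ∈ B t, u ∉ B (t + 1) → ∃ r : ℤ, v * u ^ r ∈ B (t + 1) := by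
  have : Fact p.Prime := ⟨hp⟩
  have hc : Nat.card (G ⧸ J) = p ^ j := hJ
  have : Finite (G ⧸ J) := Nat.finite_of_card_ne_zero (hc ▸ pow_ne_zero _ hp.ne_zero)
  have h1 : ∀ (n : ℕ) (A : Subgroup (G ⧸ J)), ∃ A' : Subgroup (G ⧸ J), Nat.card A = p ^ min n j →
      Nat.card A' = p ^ min (n + 1) j ∧ A ≤ A' := by
    intro n A
    by_cases h : Nat.card A = p ^ min n j
    · by_cases hn : n < j
      · rw [min_eq_left hn.le] at h
        obtain ⟨A', h2⟩ := Sylow.exists_subgroup_card_pow_succ (hc ▸ pow_dvd_pow p hn) h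
        exact ⟨A', fun _ => by rwa [min_eq_left hn]⟩
      · exact ⟨A, fun h => ⟨by rw [h]; congr 1; omega, le_rfl⟩⟩
    · exact ⟨A, fun h' => absurd h' h⟩
  choose f hf using h1
  obtain ⟨C, hC0, hCs⟩ : ∃ C : ℕ → Subgroup (G ⧸ J), C 0 = ⊥ ∧ ∀ n, C (n + 1) = f n (C n) :=
    ⟨fun n => Nat.rec ⊥ f n, rfl, fun _ => rfl⟩
  have hC : ∀ n : ℕ, Nat.card ↥(C n) = p ^ min n j := by
    intro n
    induction n with
    | zero => simp [hC0]
    | succ n ih => rw [hCs]; exact (hf n _ ih).1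
  have hC' : ∀ n, C n ≤ C (n + 1) := fun n => hCs n ▸ (hf n _ (hC n)).2
  refine ⟨fun t => (C (k - t)).comap (QuotientGroup.mk' J), ?_, ?_, fun t => ⟨?_, ?_⟩⟩
  · have : C k = ⊤ := Subgroup.eq_top_of_card_eq _ (by rw [hC, hc, min_eq_right hjk])
    simp [this]
  · simp [hC0]
  · intro x hx
    rw [Subgroup.mem_comap, QuotientGroup.mk'_apply, (QuotientGroup.eq_one_iff x).2 hx]
    exact one_mem _
  · have key : (∀ u ∈ C (k - t), u ^ p ∈ C (k - (t + 1))) ∧ ∀ u ∈ C (k - t), ∀ v ∈ C (k - t),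
        u ∉ C (k - (t + 1)) → ∃ r : ℤ, v * u ^ r ∈ C (k - (t + 1)) := by
      by_cases h : t < k ∧ k - (t + 1) < j
      · rw [show k - t = k - (t + 1) + 1 by omega]
        exact prime_step hp (hC' _) (by rw [hC, min_eq_left h.2.le]) (by rw [hC, min_eq_left h.2])
      · have : C (k - (t + 1)) = C (k - t) := by
          by_cases h' : t < k
          · rw [show k - t = k - (t + 1) + 1 by omega]
            refine Subgroup.eq_of_le_of_card_ge (hC' _) (le_of_eq ?_)
            rw [hC, hC]; congr 1; omega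
          · congr 1; omega
        rw [this]
        exact ⟨fun u hu => pow_mem hu p, fun u hu _ _ h => absurd hu h⟩
    simp only [Subgroup.mem_comap, map_pow, map_mul, map_zpow]
    exact ⟨fun u hu => key.1 _ hu, fun u hu v hv h => key.2 _ hu _ hv h⟩

end Pool.Agent.P.MP_5b4d81_al
end

-- part Pool.Agent.P.MP_5b4d81_al.Ultra
section

set_option autoImplicit false

namespace Pool.Agent.P.MP_5b4d81_al

open Filter MvPolynomial

universe u

lemma hom_aeval {σ A B : Type} [CommRing A] [CommRing B] (f : A →+* B) (a : σ → A)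
    (P : MvPolynomial σ ℤ) : f (aeval a P) = aeval (fun i => f (a i)) P := by
  induction P using MvPolynomial.induction_on with
  | C c => simp
  | add P Q hP hQ => simp [hP, hQ]
  | mul_X P i hP => simp [hP]

variable {G : Type u} [Group G]

namespace UD

variable {U : Ultrafilter ℕ} {e : ℕ} (W : UD U e) (M : Model G)

/-- points over the field -/
def K : Type := Fin M.h → W.F

noncomputable instance : Mul (W.K M) :=
  ⟨fun a b i => (M.D : W.F)⁻¹ * aeval (Sum.elim a b) (M.Gm i)⟩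

noncomputable def pw (a : W.K M) (r : W.F) : W.K M :=
  fun i => (M.D : W.F)⁻¹ * aeval (fun o => o.elim r a) (M.Gp i)

instance : One (W.K M) := ⟨fun _ => 0⟩

noncomputable instance : Inv (W.K M) := ⟨fun a => W.pw M a (-1)⟩

variable {W M}

def Rep (x : ℕ → G) (a : W.K M) : Prop := ∀ i, W.θ (fun p => M.co (x p) i) = W.s (a i)

lemma θ_eval {σ : Type} (v : ℕ → σ → ℤ) (P : MvPolynomial σ ℤ) :
    W.θ (fun p => eval (v p) P) = aeval (fun i => W.θ fun p => v p i) P := by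
  rw [← hom_aeval]
  congr 1
  funext p
  exact ((hom_aeval (Pi.evalRingHom (fun _ : ℕ => ℤ) p) (fun i p => v p i) P).trans
    (by rw [← coe_aeval_eq_eval]; rfl)).symm

lemma cancel_D {z : ℕ → ℤ} {r : W.F} (h : W.θ (fun p => M.D * z p) = W.s r) :
    W.θ z = W.s ((M.D : W.F)⁻¹ * r) := by
  have h1 : W.θ (fun p => M.D * z p) = W.s M.D * W.θ z := by
    rw [map_intCast, ← map_intCast W.θ, ← map_mul]; rfl
  have h2 : (M.D : W.F) ≠ 0 := Int.cast_ne_zero.2 M.D_pos.ne'
  rw [map_mul, ← h, h1, ← mul_assoc, ← map_mul, inv_mul_cancel₀ h2, map_one, one_mul]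

lemma Rep.mul {x y : ℕ → G} {a b : W.K M} (hx : Rep x a) (hy : Rep y b) :
    Rep (fun p => x p * y p) (a * b) := fun i => by
  refine cancel_D ?_
  simp only [M.co_mul]
  rw [θ_eval, hom_aeval]
  congr 2
  funext o
  rcases o with j | j
  exacts [hx j, hy j]

lemma Rep.pw {x : ℕ → G} {a : W.K M} (hx : Rep x a) {n : ℕ → ℤ} {r : W.F} (hn : W.θ n = W.s r) :
    Rep (fun p => x p ^ n p) (W.pw M a r) := fun i => by
  refine cancel_D ?_
  simp only [M.co_pow]
  rw [θ_eval, hom_aeval]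
  congr 2
  funext o
  rcases o with _ | j
  exacts [hn, hx j]

lemma rep_one : Rep (fun _ => (1 : G)) (1 : W.K M) := fun i => by
  simp only [M.co_one]
  exact (map_zero W.θ).trans (map_zero W.s).symm

lemma Rep.inv {x : ℕ → G} {a : W.K M} (hx : Rep x a) : Rep (fun p => (x p)⁻¹) a⁻¹ := by
  have := hx.pw (n := -1) (r := -1) (by simp)
  simp only [Pi.neg_apply, Pi.one_apply, zpow_neg, zpow_one] at this
  exact this

lemma exists_rep (a : W.K M) : ∃ x : ℕ → G, Rep x a ∧ ∀ i, a i = 0 → ∀ p, M.co (x p) i = 0 := by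
  have : ∀ i, ∃ z, W.θ z = W.s (a i) ∧ (a i = 0 → z = 0) := fun i => by
    by_cases h : a i = 0
    · exact ⟨0, by simp [h], fun _ => rfl⟩
    · obtain ⟨z, hz⟩ := W.surj (W.s (a i))
      exact ⟨z, hz, fun h' => absurd h' h⟩
  choose z h1 h2 using this
  exact ⟨fun p => M.co.symm fun i => z i p, fun i => by simpa using h1 i,
    fun i hi p => by simp [h2 i hi]⟩

lemma Rep.inj {x : ℕ → G} {a b : W.K M} (ha : Rep x a) (hb : Rep x b) : a = b :=
  funext fun i => W.inj ((ha i).symm.trans (hb i))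

lemma Rep.cg {x y : ℕ → G} {a : W.K M} (hx : Rep x a) (hy : Rep y a) :
    ∀ᶠ p : ℕ in U, M.Cg ((p : ℤ) ^ e) (x p) (y p) := by
  refine eventually_all.2 fun i => ?_
  have : W.θ ((fun p => M.co (y p) i) - fun p => M.co (x p) i) = 0 := by
    rw [map_sub, hx i, hy i, sub_self]
  exact ((W.ker _).1 this).mono fun p h => Int.modEq_iff_dvd.2 h

noncomputable instance : Group (W.K M) :=
  Group.ofLeftAxioms
    (fun a b c => by
      obtain ⟨x, hx, -⟩ := exists_rep a
      obtain ⟨y, hy, -⟩ := exists_rep b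
      obtain ⟨z, hz, -⟩ := exists_rep c
      exact ((hx.mul hy).mul hz).inj (by simpa only [mul_assoc] using hx.mul (hy.mul hz)))
    (fun a => by
      obtain ⟨x, hx, -⟩ := exists_rep a
      exact (rep_one.mul hx).inj (by simpa only [one_mul] using hx))
    (fun a => by
      obtain ⟨x, hx, -⟩ := exists_rep a
      exact (hx.inv.mul hx).inj (by simpa only [inv_mul_cancel] using rep_one))

lemma eval_map_int {σ : Type} (c : W.F) (a : σ → W.F) (P : MvPolynomial σ ℤ) :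
    eval a (C c * map (Int.castRingHom W.F) P) = c * aeval a P := by
  rw [map_mul, eval_C, eval_map, aeval_def]; rfl

variable (W M) in
noncomputable def fmodel : FModel (W.K M) W.F where
  h := M.h
  co := Equiv.refl _
  addR' := fun j a b h => by
    obtain ⟨x, hx, hx'⟩ := exists_rep a
    obtain ⟨y, hy, -⟩ := exists_rep b
    refine W.inj (((hy.mul hx) j).symm.trans ?_)
    simp only [fun p => M.addR' j (x p) (y p) fun i hi => hx' i (h i hi) p]
    exact (map_add W.θ _ _).trans (by rw [hx j, hy j, ← map_add]; rfl)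
  addL' := fun j a b h => by
    obtain ⟨x, hx, hx'⟩ := exists_rep a
    obtain ⟨y, hy, -⟩ := exists_rep b
    refine W.inj (((hx.mul hy) j).symm.trans ?_)
    simp only [fun p => M.addL' j (x p) (y p) fun i hi => hx' i (h i hi) p]
    exact (map_add W.θ _ _).trans (by rw [hx j, hy j, ← map_add]; rfl)
  pw := W.pw M
  Pm := fun i => C (M.D : W.F)⁻¹ * map (Int.castRingHom W.F) (M.Gm i)
  Pp := fun i => C (M.D : W.F)⁻¹ * map (Int.castRingHom W.F) (M.Gp i)
  co_mul := fun _ _ _ => (eval_map_int _ _ _).symm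
  co_pw := fun _ _ _ => (eval_map_int _ _ _).symm
  pw_lin := fun j a r h => by
    obtain ⟨x, hx, hx'⟩ := exists_rep a
    obtain ⟨n, hn⟩ := W.surj (W.s r)
    refine W.inj (((hx.pw hn) j).symm.trans ?_)
    simp only [fun p => Tri.co_zpow (M := M.toTri) (i := j) (x := x p)
      (fun i hi => hx' i (h i hi) p) (n p) le_rfl]
    exact (map_mul W.θ _ _).trans (by rw [hx j, hn, ← map_mul]; rfl)

lemma rep_const (y : G) : Rep (W := W) (fun _ => y) fun i => (M.co y i : W.F) := fun i => by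
  rw [map_intCast, ← map_intCast W.θ]; rfl

variable (W M) in
noncomputable def ι : G →* W.K M :=
  MonoidHom.mk' (fun y i => (M.co y i : W.F)) fun a b =>
    (rep_const (a * b)).inj ((rep_const a).mul (rep_const b))

lemma rep_ι (y : G) : Rep (fun _ => y) (W.ι M y) := rep_const y

variable (W M) in
/-- the subgroup of points over the field defined by a sequence of subgroups -/
def pull (A : ℕ → Subgroup G) : Subgroup (W.K M) where
  carrier := {a | ∃ x, Rep x a ∧ ∀ᶠ p : ℕ in U, x p ∈ A p}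
  one_mem' := ⟨_, rep_one, Eventually.of_forall fun _ => one_mem _⟩
  mul_mem' := fun ⟨_, hx, hx'⟩ ⟨_, hy, hy'⟩ =>
    ⟨_, hx.mul hy, (hx'.and hy').mono fun _ h => mul_mem h.1 h.2⟩
  inv_mem' := fun ⟨_, hx, hx'⟩ => ⟨_, hx.inv, hx'.mono fun _ h => inv_mem h⟩

lemma Rep.mem_pull {A : ℕ → Subgroup G}
    (hA : ∀ᶠ p : ℕ in U, ∀ x y, M.Cg ((p : ℤ) ^ e) x y → x⁻¹ * y ∈ A p) {x : ℕ → G} {a : W.K M}
    (hx : Rep x a) : a ∈ W.pull M A ↔ ∀ᶠ p : ℕ in U, x p ∈ A p := by
  refine ⟨fun ⟨y, hy, hy'⟩ => ?_, fun h => ⟨x, hx, h⟩⟩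
  filter_upwards [hA, hy', hy.cg hx] with p h1 h2 h3
  simpa using mul_mem h2 (h1 _ _ h3)

lemma fsub_pull (A : ℕ → Subgroup G) : (W.fmodel M).FSub (W.pull M A) := by
  rintro a ⟨x, hx, hx'⟩ r
  obtain ⟨n, hn⟩ := W.surj (W.s r)
  exact ⟨_, hx.pw hn, hx'.mono fun _ h => zpow_mem h _⟩

lemma pull_mono {A B : ℕ → Subgroup G} (h : ∀ p, A p ≤ B p) : W.pull M A ≤ W.pull M B :=
  fun _ ⟨x, hx, hx'⟩ => ⟨x, hx, hx'.mono fun p h' => h p h'⟩

lemma pull_normal {A : ℕ → Subgroup G} (h : ∀ p, (A p).Normal) : (W.pull M A).Normal := by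
  refine ⟨?_⟩
  rintro a ⟨x, hx, hx'⟩ b
  obtain ⟨y, hy, -⟩ := exists_rep b
  exact ⟨_, (hy.mul hx).mul hy.inv, hx'.mono fun p h' => (h p).conj_mem _ h' _⟩

lemma pull_step {A B : ℕ → Subgroup G}
    (hB : ∀ᶠ p : ℕ in U, ∀ x y, M.Cg ((p : ℤ) ^ e) x y → x⁻¹ * y ∈ B p)
    (h : ∀ᶠ p : ℕ in U, (∀ u ∈ A p, u ^ p ∈ B p) ∧
      ∀ u ∈ A p, ∀ v ∈ A p, u ∉ B p → ∃ r : ℤ, v * u ^ r ∈ B p) :
    ((W.fmodel M).piv (W.pull M A)).card ≤ ((W.fmodel M).piv (W.pull M B)).card + 1 := by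
  refine FModel.piv_step ?_
  rintro a ⟨x, hx, hx'⟩ b ⟨y, hy, hy'⟩ hn
  rw [hx.mem_pull hB, ← Ultrafilter.eventually_not] at hn
  have : ∀ p, ∃ r : ℤ, (∃ r : ℤ, y p * x p ^ r ∈ B p) → y p * x p ^ r ∈ B p := fun p => by
    by_cases h : ∃ r : ℤ, y p * x p ^ r ∈ B p
    · exact ⟨h.choose, fun _ => h.choose_spec⟩
    · exact ⟨0, fun h' => absurd h' h⟩
  choose z hz using this
  obtain ⟨r, z', h1, h2⟩ := W.sec z
  refine ⟨r, _, hy.mul (hx.pw h1), ?_⟩
  filter_upwards [h, hx', hy', hn, h2] with p h3 h4 h5 h6 h7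
  obtain ⟨c, hc⟩ := h7
  have := mul_mem (hz p (h3.2 _ h4 _ h5 h6)) (zpow_mem (h3.1 _ h4) c)
  rwa [← zpow_natCast, ← zpow_mul, ← hc, mul_assoc, ← zpow_add, add_sub_cancel] at this

end UD

/-- `x` is separated from `H` in a quotient of order `p^j`, `j ≤ k`. -/
def SepP (H : Subgroup G) (k p : ℕ) (x : G) : Prop :=
  ∃ J : Subgroup G, J.Normal ∧ (∃ j ≤ k, J.index = p ^ j) ∧ x ∉ H ⊔ J

theorem datum_of_sep (M : Model G) {H : Subgroup G} {k : ℕ} {x : G}
    (h : {p | p.Prime ∧ SepP H k p x}.Infinite) :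
    ∃ (F : Type) (_ : Field F) (_ : CharZero F) (d : Datum (fun g => M.co g) H k F),
      d.val x ≠ 0 := by
  have := h.cofinite_inf_principal_neBot
  let U : Ultrafilter ℕ := Ultrafilter.of (cofinite ⊓ 𝓟 {p | p.Prime ∧ SepP H k p x})
  have hU : (U : Filter ℕ) ≤ _ := Ultrafilter.of_le _
  have hc : (U : Filter ℕ) ≤ cofinite := hU.trans inf_le_left
  have hP : ∀ᶠ p : ℕ in U, p.Prime ∧ SepP H k p x := le_principal_iff.1 (hU.trans inf_le_right)
  obtain ⟨W⟩ := exists_UD U (hP.mono fun _ h => h.1) hc (k + 1) (by omega)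
  have h1 : ∀ p : ℕ, ∃ B : ℕ → Subgroup G, (B k).Normal ∧ (p.Prime ∧ SepP H k p x →
      B 0 = ⊤ ∧ x ∉ H ⊔ B k ∧ (∀ g, g ^ ((p : ℤ) ^ (k + 1)) ∈ B k) ∧ ∀ t, B k ≤ B t ∧
      (∀ u ∈ B t, u ^ p ∈ B (t + 1)) ∧
      ∀ u ∈ B t, ∀ v ∈ B t, u ∉ B (t + 1) → ∃ r : ℤ, v * u ^ r ∈ B (t + 1)) := by
    intro p
    by_cases h : p.Prime ∧ SepP H k p x
    · obtain ⟨hp, J, hn, ⟨j, hj, hJ⟩, hx⟩ := h
      obtain ⟨B, h0, rfl, hB⟩ := exists_chain hp J hJ hj
      refine ⟨B, hn, fun _ => ⟨h0, hx, fun g => ?_, hB⟩⟩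
      have := pow_mem ((B k).pow_index_mem g) (p ^ (k + 1 - j))
      rw [hJ, ← pow_mul, ← pow_add, show j + (k + 1 - j) = k + 1 by omega] at this
      exact_mod_cast this
    · exact ⟨fun _ => ⊤, inferInstance, fun h' => absurd h' h⟩
  choose B hn hB using h1
  have hB' := hP.mono hB
  have hD : ∀ᶠ p : ℕ in U, M.D < p := hc (by
    rw [Nat.cofinite_eq_atTop]
    filter_upwards [eventually_gt_atTop M.D.toNat] with p hp
    omega)
  have hA : ∀ᶠ p : ℕ in U, ∀ x y, M.Cg ((p : ℤ) ^ (k + 1)) x y → x⁻¹ * y ∈ B p k := by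
    filter_upwards [hP, hB', hD] with p h1 h2 h3 x y h4
    refine h4.mem (IsCoprime.pow_left ((Nat.prime_iff_prime_int.1 h1.1).coprime_iff_not_dvd.2
      fun h => ?_)) h2.2.2.1
    exact absurd (Int.le_of_dvd M.D_pos h) (not_le.2 h3)
  have hk : ∀ t, M.h ≤ ((W.fmodel M).piv (W.pull M fun p => B p t)).card + t := by
    intro t
    induction t with
    | zero =>
      have : (W.pull M fun p => B p 0) = ⊤ := eq_top_iff.2 fun a _ => by
        obtain ⟨y, hy, -⟩ := UD.exists_rep a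
        exact ⟨y, hy, hB'.mono fun p h => by simp [h.1]⟩
      rw [this, FModel.piv_top, Finset.card_univ, Fintype.card_fin]
      exact le_rfl
    | succ t ih =>
      have := UD.pull_step (W := W) (M := M) (A := fun p => B p t) (B := fun p => B p (t + 1))
        ((hA.and hB').mono fun p h x y h' => (h.2.2.2.2 (t + 1)).1 (h.1 x y h'))
        (hB'.mono fun p h => (h.2.2.2 t).2)
      omega
  refine ⟨W.F, inferInstance, inferInstance, (W.fmodel M).exists_datum (W.ι M) (fun g => M.co g)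
    (fun _ _ => rfl) (V := W.pull M fun p => H ⊔ B p k) (UD.fsub_pull _) (UD.pull_normal hn)
    (UD.fsub_pull _) (UD.pull_mono fun _ => le_sup_right)
    (fun η hη => ⟨_, UD.rep_ι η, Eventually.of_forall fun _ => Subgroup.mem_sup_left hη⟩)
    (hk k) ?_⟩
  rw [(UD.rep_ι x).mem_pull (hA.mono fun p h x y h' => Subgroup.mem_sup_right (h x y h')),
    ← Ultrafilter.eventually_not]
  exact hB'.mono fun p h => h.2.1

end Pool.Agent.P.MP_5b4d81_al
end

-- part Pool.Agent.P.MP_5b4d81_al.NT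
section

set_option autoImplicit false

namespace Pool.Agent.P.MP_5b4d81_al

open NumberField Polynomial Matrix

lemma det_cauchy {R : Type} [CommRing R] [Nontrivial R] {m : ℕ} (u : Fin m → R) (L : R) :
    (Matrix.of fun b a : Fin m => ∏ c ∈ Finset.univ.erase a, (L + u c - u b)).det =
      ∏ a, ∏ c ∈ Finset.univ.erase a, (u c - u a) := by
  let p : Fin m → R[X] := fun a => ∏ c ∈ Finset.univ.erase a, (X + C (u c))
  have hp : ∀ a : Fin m, (p a).natDegree < m := fun a => by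
    refine (natDegree_prod_le _ _).trans_lt ?_
    simp only [natDegree_X_add_C, Finset.sum_const, smul_eq_mul, mul_one]
    rw [Finset.card_erase_of_mem (Finset.mem_univ a), Finset.card_univ, Fintype.card_fin]
    have := a.2
    omega
  let Q : Matrix (Fin m) (Fin m) R := Matrix.of fun j a => (p a).coeff j
  have h1 : ∀ v : Fin m → R, (Matrix.of fun b a => (p a).eval (v b)) = vandermonde v * Q := by
    intro v
    ext b a
    simp only [Matrix.of_apply, Matrix.mul_apply, vandermonde_apply, Q]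
    rw [eval_eq_sum_range' (hp a), Finset.sum_range]
    simp [mul_comm]
  have h2 := congrArg Matrix.det (h1 fun b => -u b + L)
  rw [det_mul, det_vandermonde_add, ← det_mul, ← h1] at h2
  have h4 : (Matrix.of fun b a => (p a).eval (-u b)) =
      diagonal fun a => ∏ c ∈ Finset.univ.erase a, (u c - u a) := by
    ext b a
    simp only [Matrix.of_apply, p, eval_prod, eval_add, eval_X, eval_C, diagonal_apply]
    split_ifs with h
    · subst h; exact Finset.prod_congr rfl fun c _ => by ring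
    · exact Finset.prod_eq_zero (Finset.mem_erase.2 ⟨h, Finset.mem_univ b⟩) (by ring)
  rw [h4, det_diagonal] at h2
  rw [← h2]
  congr 1
  ext b a
  simp only [Matrix.of_apply, p, eval_prod, eval_add, eval_X, eval_C]
  exact Finset.prod_congr rfl fun c _ => by ring

lemma cauchy_dvd {R : Type} [CommRing R] [Nontrivial R] {m : ℕ} (u : Fin m → R) (L δ : R) (h : ∀ a b, L + u a - u b ∣ δ) :
    ∏ b, ∏ c, (L + u c - u b) ∣ δ ^ m * ∏ a, ∏ c ∈ Finset.univ.erase a, (u c - u a) := by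
  choose w hw using h
  refine ⟨(Matrix.of fun b a => w a b).det, ?_⟩
  rw [← det_cauchy u L, ← det_mul_column, show δ ^ m = δ ^ Fintype.card (Fin m) by simp,
    ← det_smul]
  congr 1
  ext b a
  simp only [Matrix.smul_apply, Matrix.of_apply, smul_eq_mul]
  rw [hw a b, ← Finset.mul_prod_erase _ _ (Finset.mem_univ a)]
  ring

variable {K : Type} [Field K] [NumberField K]

/-- absolute norm as a product over the complex embeddings -/
noncomputable def nrm (y : 𝓞 K) : ℝ := ∏ σ : K →ₐ[ℚ] ℂ, ‖σ (y : K)‖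

lemma nrm_eq (y : 𝓞 K) : nrm y = Nat.card (𝓞 K ⧸ Ideal.span {y}) := by
  rw [← Submodule.cardQuot_apply, ← Ideal.absNorm_apply, Ideal.absNorm_span_singleton, nrm,
    ← norm_prod, ← Algebra.norm_eq_prod_embeddings, ← Algebra.coe_norm_int]
  simp

lemma nrm_mul (x y : 𝓞 K) : nrm (x * y) = nrm x * nrm y := by
  simp [nrm, Finset.prod_mul_distrib]

/-- `nrm` as a monoid homomorphism -/
noncomputable def nrmHom : 𝓞 K →* ℝ := ⟨⟨nrm, by simp [nrm]⟩, nrm_mul⟩

lemma nrm_nonneg (y : 𝓞 K) : 0 ≤ nrm y := Finset.prod_nonneg fun _ _ => norm_nonneg _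

lemma finite_quot {y : 𝓞 K} (hy : y ≠ 0) : Finite (𝓞 K ⧸ Ideal.span {y}) :=
  Ideal.finiteQuotientOfFreeOfNeBot _ (by simpa using hy)

lemma one_le_nrm {y : 𝓞 K} (hy : y ≠ 0) : 1 ≤ nrm y := by
  have := finite_quot hy
  rw [nrm_eq]
  exact_mod_cast Nat.card_pos

lemma nrm_le_of_dvd {x y : 𝓞 K} (hy : y ≠ 0) (h : x ∣ y) : nrm x ≤ nrm y := by
  obtain ⟨c, rfl⟩ := h
  rw [nrm_mul]
  exact le_mul_of_one_le_right (nrm_nonneg x) (one_le_nrm (right_ne_zero_of_mul hy))

lemma nrm_le {y : 𝓞 K} {B : ℝ} (h : ∀ σ : K →ₐ[ℚ] ℂ, ‖σ (y : K)‖ ≤ B) :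
    nrm y ≤ B ^ Module.finrank ℚ K := by
  rw [← AlgHom.card ℚ K ℂ, ← Finset.card_univ, ← Finset.prod_const]
  exact Finset.prod_le_prod (fun _ _ => norm_nonneg _) fun σ _ => h σ

lemma le_nrm {y : 𝓞 K} {B : ℝ} (hB : 0 ≤ B) (h : ∀ σ : K →ₐ[ℚ] ℂ, B ≤ ‖σ (y : K)‖) :
    B ^ Module.finrank ℚ K ≤ nrm y := by
  rw [← AlgHom.card ℚ K ℂ, ← Finset.card_univ, ← Finset.prod_const]
  exact Finset.prod_le_prod (fun _ _ => hB) fun σ _ => h σ

lemma exists_not_dvd_aux {m : ℕ} (hm : 0 < m) (u : Fin m → 𝓞 K) (hu : Function.Injective u)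
    (ρ L : ℕ) (hρ : 1 ≤ ρ) (hL : 3 * ρ ≤ L)
    (hb : ∀ a b, ∀ σ : K →ₐ[ℚ] ℂ, ‖σ ((u a - u b : 𝓞 K) : K)‖ ≤ ρ) {δ : 𝓞 K} (hδ : δ ≠ 0)
    (h : nrm δ < 2 ^ m) : ∃ a b, (L : 𝓞 K) + u a - u b ≠ 0 ∧ ¬ (L : 𝓞 K) + u a - u b ∣ δ ∧
      nrm ((L : 𝓞 K) + u a - u b) ≤ (L + ρ : ℝ) ^ Module.finrank ℚ K := by
  set d := Module.finrank ℚ K with hd
  have hd0 : 0 < d := Module.finrank_pos
  have hρ' : (1 : ℝ) ≤ ρ := by exact_mod_cast hρ
  have hL' : (3 * ρ : ℝ) ≤ L := by exact_mod_cast hL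
  have he : ∀ a b, ∀ σ : K →ₐ[ℚ] ℂ, σ ((L + u a - u b : 𝓞 K) : K) =
      L + σ ((u a - u b : 𝓞 K) : K) := fun a b σ => by simp [add_sub_assoc]
  have h1 : ∀ a b, (2 * ρ : ℝ) ^ d ≤ nrm ((L : 𝓞 K) + u a - u b) := fun a b =>
    le_nrm (by positivity) fun σ => by
      have := norm_sub_norm_le (L : ℂ) (-σ ((u a - u b : 𝓞 K) : K))
      rw [sub_neg_eq_add, norm_neg, Complex.norm_natCast] at this
      rw [he]
      linarith [hb a b σ]
  have h2 : ∀ a b, nrm ((L : 𝓞 K) + u a - u b) ≤ (L + ρ : ℝ) ^ d := fun a b =>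
    nrm_le fun σ => by
      have := norm_add_le (L : ℂ) (σ ((u a - u b : 𝓞 K) : K))
      rw [Complex.norm_natCast] at this
      rw [he]
      linarith [hb a b σ]
  have h3 : ∀ a b, (L : 𝓞 K) + u a - u b ≠ 0 := fun a b h0 => by
    have := h1 a b
    rw [h0, show (0 : 𝓞 K) = 0 * 0 by simp, nrm_mul] at this
    have h4 : nrm (0 : 𝓞 K) ≤ 0 ^ d := nrm_le (by simp)
    rw [zero_pow hd0.ne'] at h4
    have : (0 : ℝ) < (2 * ρ) ^ d := by positivity
    nlinarith [nrm_nonneg (0 : 𝓞 K)]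
  by_contra hc
  push Not at hc
  have h0 : δ ^ m * ∏ a, ∏ c ∈ Finset.univ.erase a, (u c - u a) ≠ 0 :=
    mul_ne_zero (pow_ne_zero _ hδ) (Finset.prod_ne_zero_iff.2 fun a _ =>
    Finset.prod_ne_zero_iff.2 fun c hc => sub_ne_zero.2 (hu.ne (Finset.ne_of_mem_erase hc)))
  have h4 := nrm_le_of_dvd h0
    (cauchy_dvd u L δ fun a b => by_contra fun h => (hc a b (h3 a b) h).not_ge (h2 a b))
  change nrmHom _ ≤ nrmHom _ at h4
  simp only [map_mul, map_pow, map_prod] at h4
  have h5 : (((2 * ρ : ℝ) ^ d) ^ m) ^ m ≤ ∏ b, ∏ c, nrmHom ((L : 𝓞 K) + u c - u b) := by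
    conv_lhs => rw [← Fintype.card_fin m, ← Finset.card_univ, ← Finset.prod_const,
      ← Finset.prod_const]
    exact Finset.prod_le_prod (fun _ _ => by positivity) fun b _ =>
      Finset.prod_le_prod (fun _ _ => by positivity) fun c _ => h1 c b
  have h6 : ∏ a, ∏ c ∈ Finset.univ.erase a, nrmHom (u c - u a) ≤ (((ρ : ℝ) ^ d) ^ m) ^ m := by
    conv_rhs => rw [← Fintype.card_fin m, ← Finset.card_univ, ← Finset.prod_const]
    refine Finset.prod_le_prod (fun _ _ => Finset.prod_nonneg fun _ _ => nrm_nonneg _)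
      fun a _ => ?_
    refine (Finset.prod_le_prod (g := fun _ => (ρ : ℝ) ^ d) (fun _ _ => nrm_nonneg _)
      fun c _ => nrm_le (hb c a)).trans ?_
    rw [Finset.prod_const]
    exact pow_le_pow_right₀ (one_le_pow₀ hρ') (Finset.card_erase_le)
  have h7 : nrmHom δ ^ m < (2 ^ m) ^ m := pow_lt_pow_left₀ h (nrm_nonneg δ) hm.ne'
  have h8 : ((2 : ℝ) ^ m) ^ m ≤ ((2 ^ d) ^ m) ^ m := by
    gcongr
    exact le_self_pow₀ one_le_two hd0.ne'
  have h9 := (h5.trans h4).trans (mul_le_mul_of_nonneg_left h6 (pow_nonneg (nrm_nonneg δ) _))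
  simp only [mul_pow] at h9
  have : (0 : ℝ) < (((ρ : ℝ) ^ d) ^ m) ^ m := by positivity
  nlinarith

/-- A nonzero integer is not divisible by some integer of logarithmically small norm, which can be
taken congruent to `1` modulo `M`. -/
theorem exists_not_dvd (K : Type) [Field K] [NumberField K] (M : ℕ) (hM : 0 < M) :
    ∃ C : ℕ, ∀ δ : 𝓞 K, δ ≠ 0 → ∀ t : ℕ, 1 ≤ t → nrm δ < 2 ^ t →
      ∃ α β : 𝓞 K, α ≠ 0 ∧ ¬ α ∣ δ ∧ α = 1 + M * β ∧ nrm α ≤ C * t := by
  classical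
  set d := Module.finrank ℚ K with hd
  have hd0 : 0 < d := Module.finrank_pos
  let ω := Module.finBasisOfFinrankEq ℤ (𝓞 K) (RingOfIntegers.rank K)
  obtain ⟨c, hc⟩ := exists_nat_ge (∑ σ : K →ₐ[ℚ] ℂ, ∑ i, ‖σ (ω i : K)‖)
  have hc' : ∀ σ : K →ₐ[ℚ] ℂ, ∑ i, ‖σ (ω i : K)‖ ≤ (c + 1 : ℝ) := fun σ => by
    have := Finset.single_le_sum (f := fun σ : K →ₐ[ℚ] ℂ => ∑ i, ‖σ (ω i : K)‖)
      (fun _ _ => by positivity) (Finset.mem_univ σ)
    linarith
  refine ⟨(10 * M * (c + 1)) ^ d, fun δ hδ t ht h => ?_⟩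
  obtain ⟨n, hn0, hn1, hn2⟩ : ∃ n : ℕ, 0 < n ∧ t ≤ n ^ d ∧ n ^ d ≤ 2 ^ d * t := by
    have hex : ∃ n : ℕ, t ≤ n ^ d := ⟨t, Nat.le_self_pow hd0.ne' t⟩
    have h1 := Nat.find_spec hex
    have h2 : 0 < Nat.find hex := Nat.pos_of_ne_zero fun h0 => by
      rw [h0, zero_pow hd0.ne'] at h1; omega
    refine ⟨_, h2, h1, ?_⟩
    have h3 := not_le.1 (Nat.find_min hex (Nat.sub_one_lt h2.ne'))
    by_cases h4 : Nat.find hex = 1
    · rw [h4, one_pow]; exact Nat.mul_pos (by positivity) ht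
    · refine le_trans ?_ (Nat.mul_le_mul_left _ h3.le)
      rw [← mul_pow]
      exact Nat.pow_le_pow_left (by omega) _
  let e : Fin (n ^ d) ≃ (Fin d → Fin n) := finFunctionFinEquiv.symm
  let v : Fin (n ^ d) → 𝓞 K := fun a => ω.equivFun.symm fun i => ((e a i : ℕ) : ℤ)
  have hv : Function.Injective v := fun a b hab => by
    have := ω.equivFun.symm.injective hab
    exact e.injective (funext fun i => Fin.ext (by exact_mod_cast congrFun this i))
  have hM' : (M : 𝓞 K) ≠ 0 := Nat.cast_ne_zero.2 hM.ne'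
  obtain ⟨a, b, h1, h2, h3⟩ := exists_not_dvd_aux (pow_pos hn0 d) (fun a => (M : 𝓞 K) * v a)
    (fun a b hab => hv (mul_left_cancel₀ hM' hab)) (M * n * (c + 1)) (1 + 3 * (M * n * (c + 1)))
    (Nat.mul_pos (Nat.mul_pos hM hn0) (Nat.succ_pos c)) (by omega) (fun a b σ => by
      have h4 : σ ((M * v a - M * v b : 𝓞 K) : K) =
          M * ∑ i, (((e a i : ℕ) : ℂ) - (e b i : ℕ)) * σ (ω i : K) := by
        simp [v, ← mul_sub, sub_mul, Finset.sum_sub_distrib]
        exact Or.inl rfl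
      rw [h4, norm_mul, Complex.norm_natCast]
      push_cast
      rw [mul_assoc]
      refine mul_le_mul_of_nonneg_left ((norm_sum_le _ _).trans ?_) (Nat.cast_nonneg _)
      refine le_trans ?_ (mul_le_mul_of_nonneg_left (hc' σ) (Nat.cast_nonneg n))
      rw [Finset.mul_sum]
      refine Finset.sum_le_sum fun i _ => ?_
      rw [norm_mul]
      refine mul_le_mul_of_nonneg_right ?_ (norm_nonneg _)
      have h5 : ((e a i : ℕ) : ℝ) ≤ n := by exact_mod_cast (e a i).2.le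
      have h6 : ((e b i : ℕ) : ℝ) ≤ n := by exact_mod_cast (e b i).2.le
      have h7 : (((e a i : ℕ) : ℂ) - (e b i : ℕ)) = ((((e a i : ℕ) : ℝ) - (e b i : ℕ) : ℝ) : ℂ) := by
        push_cast; rfl
      rw [h7, Complex.norm_real, Real.norm_eq_abs, abs_le]
      constructor <;> linarith [Nat.cast_nonneg (α := ℝ) (e a i), Nat.cast_nonneg (α := ℝ) (e b i)])
    hδ (h.trans_le (pow_le_pow_right₀ one_le_two hn1))
  refine ⟨_, 3 * n * (c + 1) + v a - v b, h1, h2, by push_cast; ring, h3.trans ?_⟩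
  have h4 : 1 + 3 * (M * n * (c + 1)) + M * n * (c + 1) ≤ 5 * M * (c + 1) * n := by
    have : 0 < M * n * (c + 1) := Nat.mul_pos (Nat.mul_pos hM hn0) (Nat.succ_pos c)
    nlinarith
  have h5 : (1 + 3 * (M * n * (c + 1)) + M * n * (c + 1)) ^ d ≤ (10 * M * (c + 1)) ^ d * t := by
    refine (Nat.pow_le_pow_left h4 d).trans ?_
    rw [mul_pow, show 10 * M * (c + 1) = 5 * M * (c + 1) * 2 by ring, mul_pow _ 2, mul_assoc _ _ t]
    exact Nat.mul_le_mul_left _ hn2
  exact_mod_cast h5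

end Pool.Agent.P.MP_5b4d81_al
end

-- part Pool.Agent.P.MP_5b4d81_al.Spread
section

set_option autoImplicit false

namespace Pool.Agent.P.MP_5b4d81_al

open MvPolynomial NumberField

universe u

variable {G : Type u} [Group G] {h : ℕ} {co : G → Fin h → ℤ} {H : Subgroup G} {k : ℕ}

lemma hom_eval {σ R R' : Type} [CommRing R] [CommRing R'] (f : R →+* R') (a : σ → R)
    (P : MvPolynomial σ R) : f (eval a P) = eval (fun i => f (a i)) (map f P) :=
  map_eval f a P

lemma ev_map {R R' : Type} [CommRing R] [CommRing R'] (f : R →+* R')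
    (ρ : Fin h → MvPolynomial (Fin h) R) (a : Fin h → ℤ) :
    ev (fun i => map f (ρ i)) a = fun i => f (ev ρ a i) := by
  funext i
  simp [ev, hom_eval]

lemma elim_map {α R R' : Type} (f : R → R') (a b : α → R) :
    (fun i => f (Sum.elim a b i)) = Sum.elim (fun i => f (a i)) fun i => f (b i) := by
  funext i; cases i <;> rfl

lemma eval_bind' {σ τ R : Type} [CommRing R] (a : τ → R) (Q : σ → MvPolynomial τ R)
    (P : MvPolynomial σ R) : eval a (bind₁ Q P) = eval (fun i => eval a (Q i)) P := by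
  rw [← coe_aeval_eq_eval, ← coe_aeval_eq_eval]
  simp only [RingHom.coe_coe, aeval_bind₁]

namespace Datum

variable {R R' : Type} [CommRing R] [CommRing R']

noncomputable def map (d : Datum co H k R) (f : R →+* R') : Datum co H k R' where
  T := d.T
  hT := d.hT
  ρ := fun i => MvPolynomial.map f (d.ρ i)
  μ := fun i => MvPolynomial.map f (d.μ i)
  g := MvPolynomial.map f d.g
  c := d.c
  c_ne := d.c_ne
  zero := fun a t ht => by simp only [ev_map, d.zero a t ht, map_zero]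
  mul := fun a b i => by
    simp only [ev_map]
    rw [← elim_map, ← hom_eval, ← d.mul, map_mul, map_intCast]
  sep := fun η hη => by rw [ev_map, ← hom_eval, d.sep η hη, map_zero]

lemma val_map (d : Datum co H k R) (f : R →+* R') (x : G) : (d.map f).val x = f (d.val x) := by
  simp only [val, map, ev_map, ← hom_eval]

lemma lift (d : Datum co H k R') (f : R →+* R') (hf : Function.Injective f)
    (h1 : ∀ i, d.ρ i ∈ Set.range (MvPolynomial.map f))
    (h2 : ∀ i, d.μ i ∈ Set.range (MvPolynomial.map f))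
    (h3 : d.g ∈ Set.range (MvPolynomial.map f)) :
    ∃ d' : Datum co H k R, ∀ x, f (d'.val x) = d.val x := by
  choose ρ hρ using h1
  choose μ hμ using h2
  obtain ⟨g, hg⟩ := h3
  have he : ∀ a, (fun i => f (ev ρ a i)) = ev d.ρ a := fun a => by rw [← ev_map, funext hρ]
  refine ⟨⟨d.T, d.hT, ρ, μ, g, d.c, d.c_ne, fun a t ht => hf ?_, fun a b i => hf ?_,
    fun η hη => hf ?_⟩, fun x => ?_⟩
  · rw [congrFun (he _) t, d.zero a t ht, map_zero]
  · rw [map_mul, map_intCast, congrFun (he _) i, d.mul, hom_eval, hμ, elim_map, he, he]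
  · rw [hom_eval, he, hg, d.sep η hη, map_zero]
  · simp only [val]
    rw [hom_eval, he, hg]

lemma to_numberField {F : Type} [Field F] [CharZero F] (d : Datum co H k F) {x : G}
    (hx : d.val x ≠ 0) : ∃ (K : Type) (_ : Field K) (_ : NumberField K) (d' : Datum co H k K),
      d'.val x ≠ 0 := by
  classical
  let S : Finset F := insert (d.val x)⁻¹ ((Finset.univ.biUnion fun i => (d.ρ i).coeffs) ∪
    (Finset.univ.biUnion fun i => (d.μ i).coeffs) ∪ d.g.coeffs)
  let A := Algebra.adjoin ℚ (S : Set F)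
  have hA : Algebra.FiniteType ℚ A :=
    (Subalgebra.fg_iff_finiteType _).1 (Subalgebra.fg_adjoin_finset S)
  have hS : ∀ y ∈ S, y ∈ Set.range A.val.toRingHom := fun y hy =>
    ⟨⟨y, Algebra.subset_adjoin hy⟩, rfl⟩
  obtain ⟨d', hd'⟩ := d.lift A.val.toRingHom Subtype.val_injective
    (fun i => mem_range_map_iff_coeffs_subset.2 fun y hy => hS y (by
      simp only [S, Finset.mem_insert, Finset.mem_union, Finset.mem_biUnion]
      exact Or.inr (Or.inl (Or.inl ⟨i, Finset.mem_univ _, hy⟩))))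
    (fun i => mem_range_map_iff_coeffs_subset.2 fun y hy => hS y (by
      simp only [S, Finset.mem_insert, Finset.mem_union, Finset.mem_biUnion]
      exact Or.inr (Or.inl (Or.inr ⟨i, Finset.mem_univ _, hy⟩))))
    (mem_range_map_iff_coeffs_subset.2 fun y hy => hS y (by
      simp only [S, Finset.mem_insert, Finset.mem_union]
      exact Or.inr (Or.inr hy)))
  obtain ⟨m, hm⟩ := Ideal.exists_maximal A
  let := Ideal.Quotient.field m
  have := finite_of_finite_type_of_isJacobsonRing ℚ (A ⧸ m)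
  refine ⟨A ⧸ m, inferInstance, NumberField.of_module_finite ℚ _, d'.map (Ideal.Quotient.mk m), ?_⟩
  obtain ⟨y, hy⟩ := hS _ (Finset.mem_insert_self _ _)
  have h1 : d'.val x * y = 1 := Subtype.val_injective (by
    change A.val.toRingHom (d'.val x * y) = 1
    rw [map_mul, hd', hy, mul_inv_cancel₀ hx])
  rw [val_map]
  exact left_ne_zero_of_mul_eq_one (by rw [← map_mul, h1, map_one])

lemma clear {σ K : Type} [Field K] [NumberField K] (P : MvPolynomial σ K) :
    ∃ (c : ℤ) (P₀ : MvPolynomial σ (𝓞 K)), c ≠ 0 ∧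
      MvPolynomial.map (algebraMap (𝓞 K) K) P₀ = C (c : K) * P := by
  induction P using MvPolynomial.induction_on with
  | C a =>
    obtain ⟨m, s, hm, hs⟩ := IsAlgebraic.exists_nsmul_eq (𝓞 K)
      ((IsFractionRing.isAlgebraic_iff ℤ ℚ K).2 (Algebra.IsAlgebraic.isAlgebraic a))
    exact ⟨m, C s, by exact_mod_cast hm, by rw [map_C, ← hs, ← map_mul]; simp⟩
  | add P Q hP hQ =>
    obtain ⟨c, P', hc, hP'⟩ := hP
    obtain ⟨e, Q', he, hQ'⟩ := hQ
    refine ⟨c * e, e * P' + c * Q', mul_ne_zero hc he, ?_⟩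
    simp only [map_add, map_mul, hP', hQ', map_intCast, Int.cast_mul]
    ring
  | mul_X P i hP =>
    obtain ⟨c, P', hc, hP'⟩ := hP
    exact ⟨c, P' * X i, hc, by simp [hP', mul_assoc]⟩

lemma to_integers {K : Type} [Field K] [NumberField K] (d : Datum co H k K) {x : G}
    (hx : d.val x ≠ 0) : ∃ d' : Datum co H k (𝓞 K), d'.val x ≠ 0 := by
  choose a ρ ha hρ using fun i => clear (d.ρ i)
  choose b μ hb hμ using fun i => clear (C (a i : K) * bind₁ (Sum.elim
    (fun j => C (a j : K)⁻¹ * X (Sum.inl j)) fun j => C (a j : K)⁻¹ * X (Sum.inr j)) (d.μ i) :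
    MvPolynomial (Fin h ⊕ Fin h) K)
  obtain ⟨e, g, he, hg⟩ := clear (bind₁ (fun j => C (a j : K)⁻¹ * X j) d.g)
  set f := algebraMap (𝓞 K) K with hf
  have hinj : Function.Injective f := RingOfIntegers.coe_injective
  have ha' : ∀ i, (a i : K) ≠ 0 := fun i => Int.cast_ne_zero.2 (ha i)
  have h1 : ∀ v i, f (ev ρ v i) = a i * ev d.ρ v i := fun v i => by
    rw [← congrFun (ev_map f ρ v) i, ev, hρ, map_mul, eval_C, ev]
  have h2 : ∀ v, f (eval (ev ρ v) g) = e * eval (ev d.ρ v) d.g := fun v => by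
    rw [hom_eval, hg, map_mul, eval_C, eval_bind']
    simp [h1, ha']
  refine ⟨⟨d.T, d.hT, ρ, μ, g, fun i => b i * d.c i, fun i => mul_ne_zero (hb i) (d.c_ne i),
    fun v t ht => hinj ?_, fun v w i => hinj ?_, fun η hη => hinj ?_⟩, fun h0 => ?_⟩
  · rw [h1, d.zero v t ht, mul_zero, map_zero]
  · rw [hom_eval, hμ, map_mul, map_mul, map_mul, eval_C, eval_C, eval_bind', h1, map_intCast,
      Int.cast_mul, mul_assoc, mul_left_comm (d.c i : K), d.mul]
    congr 4
    funext o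
    rcases o with j | j <;> simp [h1, ha']
  · rw [h2, d.sep η hη, mul_zero, map_zero]
  · have := h2 (co x)
    rw [show eval (ev ρ (co x)) g = 0 from h0, map_zero] at this
    exact mul_ne_zero (Int.cast_ne_zero.2 he) hx this.symm

end Datum

/-- `x` is separated from `H` in a finite quotient of order at most `m`. -/
def SepLe (H : Subgroup G) (x : G) (m : ℕ) : Prop :=
  ∃ (Q : Type u) (_ : Group Q) (_ : Finite Q) (φ : G →* Q),
    Function.Surjective φ ∧ φ x ∉ H.map φ ∧ Nat.card Q ≤ m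

lemma SepLe.mono {x : G} {m m' : ℕ} (hx : SepLe H x m) (hm : m ≤ m') : SepLe H x m' :=
  let ⟨Q, i1, i2, φ, h1, h2, h3⟩ := hx
  ⟨Q, i1, i2, φ, h1, h2, h3.trans hm⟩

lemma Datum.sepLe {R : Type} [CommRing R] [Finite R] (d : Datum co H k R)
    (hc : ∀ i, IsUnit (d.c i : R)) {x : G} (hx : d.val x ≠ 0) : SepLe H x (Nat.card R ^ k) := by
  classical
  let c : Con G :=
    { r := fun a b => ev d.ρ (co a) = ev d.ρ (co b)
      iseqv := ⟨fun _ => rfl, Eq.symm, Eq.trans⟩
      mul' := fun {a a' b b'} h1 h2 => funext fun i => (hc i).mul_left_cancel (by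
        rw [d.mul, d.mul, h1, h2]) }
  let j : c.Quotient → {i // i ∉ d.T} → R := fun q => Con.liftOn q (fun a i => ev d.ρ (co a) i)
    fun a b (hab : ev d.ρ (co a) = ev d.ρ (co b)) => by rw [hab]
  have hj : Function.Injective j := fun q q' => Con.induction_on₂ q q' fun a b hab =>
    c.eq.2 (funext fun i => by
      by_cases hi : i ∈ d.T
      · rw [d.zero a i hi, d.zero b i hi]
      · exact congrFun hab ⟨i, hi⟩)
  refine ⟨c.Quotient, inferInstance, Finite.of_injective j hj, c.mk', Con.mk'_surjective, ?_, ?_⟩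
  · rintro ⟨η, hη, h1⟩
    have h2 : ev d.ρ (co η) = ev d.ρ (co x) := c.eq.1 h1
    exact hx (by rw [Datum.val, ← h2, d.sep η hη])
  · refine (Nat.card_le_card_of_injective j hj).trans ?_
    have : Nonempty R := ⟨0⟩
    rw [Nat.card_fun, Nat.card_eq_fintype_card (α := {i // i ∉ d.T}), Fintype.card_subtype_compl,
      Fintype.card_fin, Fintype.card_coe]
    exact Nat.pow_le_pow_right Nat.card_pos (by have := d.hT; omega)

/-- polynomials whose nonvanishing certifies separation in a small quotient -/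
def Good (M : Model G) (H : Subgroup G) (k : ℕ) (S : Finset G) (P : MvPolynomial (Fin M.h) ℂ) :
    Prop :=
  ∃ C : ℕ, ∀ n x, InBall S n x → eval (fun i => (M.co x i : ℂ)) P ≠ 0 → ∀ t : ℕ, 1 ≤ t →
    n + 2 ≤ 2 ^ t → SepLe H x ((C * t) ^ k)

lemma exists_good (M : Model G) (S : Finset G) {x : G}
    (hx : {p | p.Prime ∧ SepP H k p x}.Infinite) :
    ∃ P, Good M H k S P ∧ eval (fun i => (M.co x i : ℂ)) P ≠ 0 := by
  obtain ⟨F, _, _, d, hd⟩ := datum_of_sep M hx
  obtain ⟨K, _, _, d, hd⟩ := d.to_numberField hd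
  obtain ⟨d, hd⟩ := d.to_integers hd
  let P := bind₁ d.ρ d.g
  have hP : ∀ y, d.val y = eval (fun i => (M.co y i : 𝓞 K)) P := fun y => (eval_bind' _ _ _).symm
  let f : (K →ₐ[ℚ] ℂ) → 𝓞 K →+* ℂ := fun σ => σ.toRingHom.comp (algebraMap _ _)
  let σ₀ : K →ₐ[ℚ] ℂ := IsAlgClosed.lift
  have h0 : ∀ y, eval (fun i => (M.co y i : ℂ)) (map (f σ₀) P) ≠ 0 ↔ d.val y ≠ 0 := fun y => by
    have := hom_eval (f σ₀) (fun i => (M.co y i : 𝓞 K)) P
    simp only [map_intCast] at this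
    rw [← this, ← hP]
    have hi : Function.Injective (f σ₀) :=
      σ₀.toRingHom.injective.comp (RingOfIntegers.coe_injective (K := K))
    exact map_ne_zero_iff _ hi
  refine ⟨map (f σ₀) P, ?_, (h0 x).2 hd⟩
  obtain ⟨C1, hC1⟩ := M.growth S
  choose C2 hC2 using fun σ => norm_eval_le (f σ) P
  obtain ⟨C0, hC0⟩ := exists_not_dvd K (∏ i, d.c i).natAbs
    (Int.natAbs_pos.2 (Finset.prod_ne_zero_iff.2 fun i _ => d.c_ne i))
  set E := (C1 + 1) * (∑ σ, C2 σ) * Module.finrank ℚ K with hE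
  refine ⟨C0 * (E + 1), fun n y hy h1 t ht hn => ?_⟩
  rw [h0] at h1
  have hn' : (n + 2 : ℝ) ≤ 2 ^ t := by exact_mod_cast hn
  have hn2 : (2 : ℝ) ≤ n + 2 := by linarith [Nat.cast_nonneg (α := ℝ) n]
  have h2 : nrm (d.val y) < 2 ^ ((E + 1) * t) := by
    have hB : (2 : ℝ) ≤ (n + 2) ^ (C1 + 1) := hn2.trans (le_self_pow₀ (by linarith) (by omega))
    refine (nrm_le (B := ((n + 2) ^ (C1 + 1)) ^ ∑ σ, C2 σ) fun σ => ?_).trans_lt ?_
    · rw [hP]
      refine (hC2 σ _ _ hB fun i => ?_).trans (pow_le_pow_right₀ (by linarith)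
        (Finset.single_le_sum (fun _ _ => Nat.zero_le _) (Finset.mem_univ σ)))
      have := hC1 n y hy i
      rw [map_intCast, Complex.norm_intCast]
      push_cast at this
      exact this.trans (pow_le_pow_right₀ (by linarith) (Nat.le_succ _))
    · rw [← pow_mul, ← pow_mul, ← mul_assoc, ← hE]
      refine (pow_le_pow_left₀ (by linarith) hn' E).trans_lt ?_
      rw [← pow_mul]
      exact pow_lt_pow_right₀ one_lt_two (by nlinarith)
  obtain ⟨α, β, h3, h4, h5, h6⟩ := hC0 _ h1 _ (Nat.mul_pos (Nat.succ_pos E) ht) h2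
  have := finite_quot h3
  have h7 : IsUnit (((∏ i, d.c i).natAbs : ℕ) : 𝓞 K ⧸ Ideal.span {α}) := by
    have h8 : Ideal.Quotient.mk (Ideal.span {α}) α = 0 :=
      Ideal.Quotient.eq_zero_iff_mem.2 (Ideal.mem_span_singleton_self α)
    have h9 := congrArg (Ideal.Quotient.mk (Ideal.span {α})) h5
    rw [h8, map_add, map_one, map_mul, map_natCast] at h9
    exact IsUnit.of_mul_eq_one (-Ideal.Quotient.mk _ β) (by linear_combination h9)
  refine ((d.map (Ideal.Quotient.mk (Ideal.span {α}))).sepLe (fun i => ?_) ?_).mono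
    (Nat.pow_le_pow_left ?_ k)
  · refine isUnit_of_dvd_unit ?_ h7
    rw [← Int.cast_natCast]
    exact map_dvd (Int.castRingHom _)
      (Int.dvd_natAbs.2 (Finset.dvd_prod_of_mem d.c (Finset.mem_univ i)))
  · rw [Datum.val_map, Ne, Ideal.Quotient.eq_zero_iff_mem, Ideal.mem_span_singleton]
    exact h4
  · rw [nrm_eq] at h6
    rw [mul_assoc]
    exact_mod_cast h6

theorem uniform_bound (M : Model G) (H : Subgroup G) (k : ℕ) (S : Finset G) :
    ∃ C : ℕ, ∀ n x, InBall S n x → {p | p.Prime ∧ SepP H k p x}.Infinite → ∀ t : ℕ, 1 ≤ t →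
      n + 2 ≤ 2 ^ t → SepLe H x ((C * t) ^ k) := by
  obtain ⟨s, hs, hspan⟩ := (Submodule.fg_span_iff_fg_span_finset_subset
    (R := MvPolynomial (Fin M.h) ℂ) {P | Good M H k S P}).1 (IsNoetherian.noetherian _)
  choose! C hC using fun P (hP : P ∈ s) => hs hP
  refine ⟨s.sup C, fun n x hx h1 t ht hn => ?_⟩
  obtain ⟨P, hP, h2⟩ := exists_good M S h1
  obtain ⟨P, hP, h2⟩ : ∃ P ∈ s, eval (fun i => (M.co x i : ℂ)) P ≠ 0 := by
    by_contra hc
    push Not at hc
    have h3 : Submodule.span (MvPolynomial (Fin M.h) ℂ) (s : Set (MvPolynomial (Fin M.h) ℂ)) ≤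
        RingHom.ker (eval fun i => (M.co x i : ℂ)) := Submodule.span_le.2 hc
    exact h2 (h3 (hspan ▸ Submodule.subset_span hP))
  exact (hC P hP n x hx h2 t ht hn).mono
    (Nat.pow_le_pow_left (Nat.mul_le_mul_right _ (Finset.le_sup hP)) k)

end Pool.Agent.P.MP_5b4d81_al
end

-- part Pool.Agent.P.MP_5b4d81_al.Main
section

set_option autoImplicit false

namespace Pool.Agent.P.MP_5b4d81_al

universe u

lemma exists_pow_hom (Q : Type u) [Group Q] [Finite Q] [hQ : Group.IsNilpotent Q] {p : ℕ}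
    (hp : p.Prime) (hd : p ∣ Nat.card Q) : ∃ (u : ℕ) (ψ : Q →* Q), ¬ p ∣ u ∧ (∀ g, ψ g = g ^ u) ∧
      IsPGroup p ψ.range := by
  have h0 : Nat.card Q ≠ 0 := Nat.card_pos.ne'
  obtain ⟨j, e, he, hje⟩ := Nat.exists_eq_pow_mul_and_not_dvd h0 p hp.ne_one
  have hc : Nat.Coprime (p ^ j) e := ((Nat.Prime.coprime_iff_not_dvd hp).2 he).pow_left j
  obtain ⟨u, hu1, hu0⟩ := Nat.chineseRemainder hc 1 0
  have hu0' : e ∣ u := (Nat.modEq_zero_iff_dvd).1 hu0
  obtain ⟨E⟩ : Nonempty ((∀ p : (Nat.card Q).primeFactors, ∀ P : Sylow p Q,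
      (↑P : Subgroup Q)) ≃* Q) := (Group.isNilpotent_of_finite_tfae.out 0 4 rfl rfl).mp hQ
  have hmul : ∀ a b : Q, (a * b) ^ u = a ^ u * b ^ u := by
    intro a b
    obtain ⟨a, rfl⟩ := E.surjective a
    obtain ⟨b, rfl⟩ := E.surjective b
    simp only [← map_mul, ← map_pow]
    congr 1
    funext q P
    have hq : Fact (q : ℕ).Prime := ⟨Nat.prime_of_mem_primeFactors q.2⟩
    obtain ⟨n, hn⟩ := P.isPGroup'.exists_card_eq
    have h1 : (q : ℕ) ^ n ∣ p ^ j * e := by
      rw [← hn, ← hje]; exact Subgroup.card_subgroup_dvd_card _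
    have h2 : ∀ x : (P : Subgroup Q), orderOf x ∣ (q : ℕ) ^ n := fun x =>
      hn ▸ orderOf_dvd_natCard x
    simp only [Pi.mul_apply, Pi.pow_apply]
    by_cases h : (q : ℕ) = p
    · have h3 : ∀ x : (P : Subgroup Q), x ^ u = x := fun x => by
        conv_rhs => rw [← pow_one x]
        refine pow_eq_pow_iff_modEq.2 (hu1.of_dvd ((h2 x).trans ?_))
        rw [h] at h1 ⊢
        exact (((Nat.Prime.coprime_iff_not_dvd hp).2 he).pow_left n).dvd_of_dvd_mul_right h1
      simp only [h3]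
    · have h3 : ∀ x : (P : Subgroup Q), x ^ u = 1 := fun x => by
        refine orderOf_dvd_iff_pow_eq_one.1 ((h2 x).trans (Dvd.dvd.trans ?_ hu0'))
        exact (Nat.Coprime.pow n j ((Nat.coprime_primes hq.out hp).2 h)).dvd_of_dvd_mul_left h1
      simp only [h3, mul_one]
  refine ⟨u, MonoidHom.mk' (fun g => g ^ u) hmul, fun h => ?_, fun _ => rfl, ?_⟩
  · have hj : j ≠ 0 := by
      rintro rfl
      rw [hje, pow_zero, one_mul] at hd
      exact he hd
    have := (hu1.of_dvd (dvd_pow_self p hj)).symm.trans (Nat.modEq_zero_iff_dvd.2 h)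
    exact hp.one_lt.ne' (Nat.dvd_one.1 (Nat.modEq_zero_iff_dvd.1 this))
  · rintro ⟨_, g, rfl⟩
    refine ⟨j, Subtype.ext ?_⟩
    change (g ^ u) ^ p ^ j = 1
    obtain ⟨c, rfl⟩ := hu0'
    rw [← pow_mul, show e * c * p ^ j = p ^ j * e * c by ring, ← hje, pow_mul, pow_card_eq_one',
      one_pow]

variable {G : Type u} [Group G]

lemma lower_aux [Group.IsNilpotent G] {H : Subgroup G} {x : G} {m : ℕ} (hm : m ≠ 0) {Q : Type u}
    [Group Q] [Finite Q] (φ : G →* Q) (hφ : Function.Surjective φ) (hx : φ (x ^ m) ∉ H.map φ) :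
    ∃ p : ℕ, p.Prime ∧ p ^ (m.factorization p + 1) ≤ Nat.card Q ∧
      ∃ j, p ^ j ≤ Nat.card Q ∧ SepP H j p x := by
  classical
  have := Group.nilpotent_of_surjective φ hφ
  have hex : ∃ r, 0 < r ∧ φ x ^ r ∈ H.map φ :=
    ⟨Nat.card Q, Nat.card_pos, by rw [pow_card_eq_one']; exact one_mem _⟩
  obtain ⟨hr0, hr⟩ := Nat.find_spec hex
  set r := Nat.find hex with hr'
  have hdvd : ∀ n, φ x ^ n ∈ H.map φ → r ∣ n := fun n hn => by
    by_contra hc
    refine Nat.find_min hex (Nat.mod_lt n hr0) ⟨Nat.pos_of_ne_zero fun h =>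
      hc (Nat.dvd_of_mod_eq_zero h), ?_⟩
    have := mul_mem (inv_mem (pow_mem hr (n / r))) hn
    conv at this => rw [← Nat.div_add_mod n r]
    rwa [← pow_mul, Nat.div_add_mod, ← Nat.div_add_mod n r, pow_add, Nat.div_add_mod,
      inv_mul_cancel_left] at this
  have h1 : ¬ r ∣ m := by
    rintro ⟨c, rfl⟩
    exact hx (by rw [map_pow, pow_mul]; exact pow_mem hr c)
  rw [← Nat.factorization_prime_le_iff_dvd hr0.ne' hm] at h1
  push Not at h1
  obtain ⟨p, hp, h1⟩ := h1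
  have : Fact p.Prime := ⟨hp⟩
  have h2 : p ^ (m.factorization p + 1) ∣ r := (hp.pow_dvd_iff_le_factorization hr0.ne').2 h1
  have h3 : r ∣ Nat.card Q := hdvd _ (by rw [pow_card_eq_one']; exact one_mem _)
  have h4 : p ∣ r := (dvd_pow_self p (Nat.succ_ne_zero _)).trans h2
  obtain ⟨v, ψ, hv, hψ, hP⟩ := exists_pow_hom Q hp (h4.trans h3)
  obtain ⟨j, hj⟩ := hP.exists_card_eq
  refine ⟨p, hp, Nat.le_of_dvd Nat.card_pos (h2.trans h3), j,
    hj ▸ Subgroup.card_le_card_group _, (ψ.comp φ).ker, inferInstance, ⟨j, le_rfl, ?_⟩,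
    fun h5 => hv (h4.trans (hdvd v ?_))⟩
  · rw [Subgroup.index_ker, MonoidHom.range_comp, MonoidHom.range_eq_top.2 hφ,
      ← MonoidHom.range_eq_map, hj]
  · obtain ⟨η, hη, h6⟩ := mem_sup_normal.1 h5
    rw [MonoidHom.mem_ker, map_mul, map_inv, inv_mul_eq_one] at h6
    simp only [MonoidHom.comp_apply, hψ] at h6
    exact h6 ▸ pow_mem (Subgroup.mem_map_of_mem φ hη) v

lemma SepP.mono {H : Subgroup G} {k k' p : ℕ} {x : G} (h : SepP H k p x) (hk : k ≤ k') :
    SepP H k' p x :=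
  let ⟨J, h1, ⟨j, h2, h3⟩, h4⟩ := h
  ⟨J, h1, ⟨j, h2.trans hk, h3⟩, h4⟩

lemma lower_card [Group.IsNilpotent G] {H : Subgroup G} {x : G} {k y : ℕ}
    (hy : ∀ p, p.Prime → SepP H k p x → p ≤ y) {Q : Type u}
    [Group Q] [Finite Q] (φ : G →* Q) (hφ : Function.Surjective φ)
    (hx : φ (x ^ (Nat.lcmUpto y ^ (2 * (k + 1)))) ∉ H.map φ) : y ^ (k + 1) ≤ Nat.card Q := by
  obtain ⟨p, hp, h1, j, h2, h3⟩ := lower_aux (pow_ne_zero _ (Nat.lcmUpto_ne_zero y)) φ hφ hx
  by_cases h : p ≤ y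
  · refine le_trans ?_ h1
    rw [Nat.factorization_pow, Finsupp.smul_apply, Nat.factorization_lcmUpto y hp, smul_eq_mul]
    have h4 := Nat.lt_pow_succ_log_self hp.one_lt y
    have h5 := Nat.log_pos hp.one_lt h
    refine (Nat.pow_le_pow_left h4.le _).trans ?_
    rw [← pow_mul]
    exact Nat.pow_le_pow_right hp.pos (by simp only [Nat.succ_eq_add_one]; nlinarith)
  · have h4 : k + 1 ≤ j := by
      by_contra hc
      exact h (hy p hp (h3.mono (by omega)))
    exact ((Nat.pow_le_pow_left (not_le.1 h).le _).trans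
      (Nat.pow_le_pow_right hp.pos h4)).trans h2

lemma SepLe.sepIndex_le {H : Subgroup G} {x : G} {m : ℕ} (h : SepLe H x m) : sepIndex H x ≤ m :=
  let ⟨Q, i1, i2, φ, h1, h2, h3⟩ := h
  le_trans (Nat.sInf_le ⟨Q, i1, i2, φ, h1, h2, rfl⟩) h3

lemma SepLe.spec {H : Subgroup G} {x : G} {m : ℕ} (h : SepLe H x m) :
    ∃ (Q : Type u) (_ : Group Q) (_ : Finite Q) (φ : G →* Q),
      Function.Surjective φ ∧ φ x ∉ H.map φ ∧ Nat.card Q = sepIndex H x :=
  let ⟨Q, i1, i2, φ, h1, h2, _⟩ := h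
  Nat.sInf_mem (s := {m | ∃ (Q : Type u) (_ : Group Q) (_ : Finite Q) (φ : G →* Q),
    Function.Surjective φ ∧ φ x ∉ H.map φ ∧ Nat.card Q = m}) ⟨_, Q, i1, i2, φ, h1, h2, rfl⟩

lemma sepLe_of_not_mem {H J : Subgroup G} [J.Normal] (hJ : J.index ≠ 0) {x : G} (hx : x ∉ H ⊔ J) :
    SepLe H x J.index := by
  refine ⟨G ⧸ J, inferInstance, Nat.finite_of_card_ne_zero hJ, QuotientGroup.mk' J,
    QuotientGroup.mk'_surjective J, ?_, le_rfl⟩
  rintro ⟨η, hη, h⟩
  exact hx (mem_sup_normal.2 ⟨η, hη, QuotientGroup.eq.1 h⟩)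

lemma not_mem_of_mul {H J : Subgroup G} {x η : G} (hη : η ∈ H) (h : x * η ∉ H ⊔ J) : x ∉ H ⊔ J :=
  fun h' => h (mul_mem h' (Subgroup.mem_sup_left hη))

lemma InBall.mono {S : Finset G} {n n' : ℕ} {x : G} (h : InBall S n x) (hn : n ≤ n') :
    InBall S n' x :=
  let ⟨l, h1, h2⟩ := h
  ⟨l, h1.trans hn, h2⟩

lemma InBall.pow {S : Finset G} {n : ℕ} {x : G} (h : InBall S n x) (m : ℕ) :
    InBall S (n * m) (x ^ m) := by
  induction m with
  | zero => exact ⟨[], by simp, by simp, by simp⟩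
  | succ m ih =>
    obtain ⟨l, h1, h2, rfl⟩ := h
    obtain ⟨l', h3, h4, h5⟩ := ih
    refine ⟨l' ++ l, by rw [List.length_append, mul_add, mul_one]; omega, fun y hy => ?_,
      by rw [List.prod_append, h5, pow_succ]⟩
    exact (List.mem_append.1 hy).elim (h4 y) (h2 y)

lemma exists_inBall {S : Finset G} (hS : Subgroup.closure (S : Set G) = ⊤) (x : G) :
    ∃ n, InBall S n x := by
  have hx : x ∈ (Subgroup.closure (S : Set G)).toSubmonoid := hS ▸ Subgroup.mem_top x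
  rw [Subgroup.closure_toSubmonoid] at hx
  obtain ⟨l, h1, h2⟩ := Submonoid.exists_list_of_mem_closure hx
  exact ⟨_, l, le_rfl, h1, h2⟩

section growth

variable {H : Subgroup G} {S : Finset G} {b : ℕ → ℕ}
  (hb : ∀ n x, x ∉ H → InBall S n x → SepLe H x (b n))
include hb

lemma sepGrowth_le (n : ℕ) : sepGrowth H S n ≤ b n + 1 := by
  unfold sepGrowth
  split_ifs with h
  · refine csSup_le' ?_
    rintro _ ⟨x, h1, h2, rfl⟩
    exact (hb n x h1 h2).sepIndex_le.trans (Nat.le_succ _)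
  · omega

lemma le_sepGrowth {n : ℕ} {x : G} (h1 : x ∉ H) (h2 : InBall S n x) :
    sepIndex H x ≤ sepGrowth H S n := by
  unfold sepGrowth
  rw [if_pos ⟨x, h1, h2⟩]
  refine le_csSup ⟨b n, ?_⟩ ⟨x, h1, h2, rfl⟩
  rintro _ ⟨x, h1, h2, rfl⟩
  exact (hb n x h1 h2).sepIndex_le

lemma one_le_sepGrowth (n : ℕ) : 1 ≤ sepGrowth H S n := by
  by_cases h : ∃ x, x ∉ H ∧ InBall S n x
  · obtain ⟨x, h1, h2⟩ := h
    obtain ⟨Q, _, _, φ, -, -, h3⟩ := (hb n x h1 h2).spec
    exact le_trans (h3 ▸ Nat.card_pos) (le_sepGrowth hb h1 h2)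
  · rw [sepGrowth, if_neg h]

lemma lower_bound [Group.IsNilpotent G] (hS : Subgroup.closure (S : Set G) = ⊤) {x : G} {k : ℕ}
    (hx : ∀ m : ℕ, m ≠ 0 → x ^ m ∉ H) (hf : {p | p.Prime ∧ SepP H k p x}.Finite) :
    Preceq (fun n => Real.log n ^ (k + 1)) fun n => sepGrowth H S n := by
  obtain ⟨y₀, hy₀⟩ := hf.bddAbove
  obtain ⟨l, hl⟩ := exists_inBall hS x
  set A := 14 * (k + 1) with hA
  refine ⟨l + (A * (y₀ + 2)) ^ (k + 1), by positivity, fun n hn => ?_⟩
  have hA' : (0 : ℝ) < A := by positivity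
  have hlog : 0 ≤ Real.log n := Real.log_natCast_nonneg n
  set y := ⌊Real.log n / A⌋₊ with hy
  have h1 : Real.log n ≤ A * (y + 1) := by
    have := Nat.lt_floor_add_one (Real.log n / A)
    rw [div_lt_iff₀ hA'] at this
    linarith
  have h2 : Nat.lcmUpto y ^ (2 * (k + 1)) ≤ n := by
    have h3 : (y : ℝ) * A ≤ Real.log n := (le_div_iff₀ hA').1 (Nat.floor_le (by positivity))
    have h4 := Chebyshev.psi_le_const_mul_self (Nat.cast_nonneg (α := ℝ) y)
    have h5 : Real.log 4 ≤ 3 := by linarith [Real.log_le_sub_one_of_pos (by norm_num : (0 : ℝ) < 4)]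
    rw [Chebyshev.psi_eq_log_lcmUpto] at h4
    have h6 : (0 : ℝ) < Nat.lcmUpto y := by exact_mod_cast Nat.lcmUpto_pos y
    have h7 : (Nat.lcmUpto y : ℝ) ^ (2 * (k + 1)) ≤ n := by
      rw [← Real.log_le_log_iff (by positivity) (by exact_mod_cast hn), Real.log_pow]
      refine le_trans ?_ h3
      have h8 : Real.log (Nat.lcmUpto y) ≤ 7 * y :=
        h4.trans (mul_le_mul_of_nonneg_right (by linarith) (Nat.cast_nonneg _))
      rw [hA]
      push_cast
      nlinarith [Nat.cast_nonneg (α := ℝ) k]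
    exact_mod_cast h7
  set F := sepGrowth H S ((l + (A * (y₀ + 2)) ^ (k + 1)) * n) with hF
  have h3 : (y + 1) ^ (k + 1) ≤ (y₀ + 2) ^ (k + 1) * F := by
    by_cases h : y ≤ y₀
    · exact (Nat.pow_le_pow_left (by omega) _).trans
        (Nat.le_mul_of_pos_right _ (one_le_sepGrowth hb _))
    · have h4 := hx _ (pow_ne_zero (2 * (k + 1)) (Nat.lcmUpto_ne_zero y))
      have h5 : InBall S ((l + (A * (y₀ + 2)) ^ (k + 1)) * n) _ :=
        (hl.pow _).mono (Nat.mul_le_mul (Nat.le_add_right _ _) h2)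
      obtain ⟨Q, _, _, φ, h6, h7, h8⟩ := (hb _ _ h4 h5).spec
      have h9 := lower_card (fun p hp h' => (hy₀ ⟨hp, h'⟩).trans (not_le.1 h).le) φ h6 h7
      refine le_trans ?_ (Nat.mul_le_mul_left _ ((h8 ▸ h9).trans (le_sepGrowth hb h4 h5)))
      rw [← mul_pow]
      exact Nat.pow_le_pow_left (by nlinarith [not_le.1 h]) _
  have h4 : (A * (y + 1)) ^ (k + 1) ≤ (l + (A * (y₀ + 2)) ^ (k + 1)) * F := by
    rw [mul_pow A, mul_pow A, add_mul, mul_assoc]
    exact (Nat.mul_le_mul_left _ h3).trans (Nat.le_add_left _ _)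
  refine (pow_le_pow_left₀ hlog h1 _).trans ?_
  beta_reduce
  exact_mod_cast h4

end growth

lemma upper_bound {H : Subgroup G} {S : Finset G} {c C k : ℕ} (hb : ∀ n x, x ∉ H → InBall S n x →
    SepLe H x (c + (C * (Nat.log 2 (n + 2) + 1)) ^ k)) :
    Preceq (fun n => sepGrowth H S n) fun n => Real.log n ^ k := by
  refine ⟨c + (2 * C) ^ k + 6, by omega, fun n hn => ?_⟩
  have h1 := sepGrowth_le hb n
  set L := Real.log ((c + (2 * C) ^ k + 6) * n : ℕ) with hL
  have h2 : ((Nat.log 2 (n + 2) + 1 : ℕ) : ℝ) ≤ 2 * L := by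
    have h3 : 2 ^ (Nat.log 2 (n + 2) + 1) ≤ (c + (2 * C) ^ k + 6) * n := by
      have := Nat.pow_log_le_self 2 (Nat.succ_ne_zero (n + 1))
      rw [pow_succ]
      nlinarith [Nat.zero_le ((c + (2 * C) ^ k) * n)]
    have h4 : Real.log ((2 : ℝ) ^ (Nat.log 2 (n + 2) + 1)) ≤ L :=
      Real.log_le_log (by positivity) (by exact_mod_cast h3)
    rw [Real.log_pow] at h4
    nlinarith [Real.log_two_gt_d9, Nat.cast_nonneg (α := ℝ) (Nat.log 2 (n + 2) + 1)]
  have h3 : 1 ≤ L := by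
    have : 1 ≤ Nat.log 2 (n + 2) := Nat.log_pos one_lt_two (by omega)
    have : (2 : ℝ) ≤ (Nat.log 2 (n + 2) + 1 : ℕ) := by exact_mod_cast Nat.succ_le_succ this
    linarith
  have h4 : 1 ≤ L ^ k := one_le_pow₀ h3
  have h5 : ((C * (Nat.log 2 (n + 2) + 1) : ℕ) : ℝ) ^ k ≤ (2 * C) ^ k * L ^ k := by
    rw [← mul_pow, Nat.cast_mul]
    refine pow_le_pow_left₀ (by positivity) ?_ k
    nlinarith [Nat.cast_nonneg (α := ℝ) C]
  have h6 : (sepGrowth H S n : ℝ) ≤ c + ((C * (Nat.log 2 (n + 2) + 1) : ℕ) : ℝ) ^ k + 1 := by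
    exact_mod_cast h1
  refine h6.trans ?_
  change _ ≤ _ * L ^ k
  rw [Nat.cast_add, Nat.cast_add, Nat.cast_pow, Nat.cast_mul 2, Nat.cast_ofNat, Nat.cast_ofNat]
  nlinarith [Nat.cast_nonneg (α := ℝ) c]

theorem main [Group.IsNilpotent G] (htf : ∀ (g : G) (n : ℕ), 0 < n → g ^ n = 1 → g = 1)
    (S : Finset G) (hS : Subgroup.closure (S : Set G) = ⊤) (H : Subgroup G) :
    ∃ k : ℕ, k ≤ hirschLength G ∧
      Preceq (fun n => sepGrowth H S n) (fun n => Real.log n ^ k) ∧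
      Preceq (fun n => Real.log n ^ k) (fun n => sepGrowth H S n) := by
  classical
  have : Group.FG G := ⟨S, hS⟩
  obtain ⟨M⟩ := exists_model G htf
  obtain ⟨E⟩ := M.exists_ech H
  let P : ℕ → Prop := fun k => ∀ (i : Fin M.h), ∀ x ∈ M.Γ i, E.d i = 0 → M.co x i ≠ 0 →
    {p | p.Prime ∧ SepP H k p x}.Infinite
  have hP : P (hirschLength G) := by
    obtain ⟨m, s, hs, hr⟩ : ∃ (m : ℕ) (s : ℕ → Subgroup G), IsPolycyclicSeries m s ∧
        {i | i < m ∧ Infinite (s (i + 1) ⧸ (s i).subgroupOf (s (i + 1)))}.ncard =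
          hirschLength G := by
      obtain ⟨m, s, hs⟩ := M.exists_polycyclic
      exact Nat.sInf_mem (s := {h | ∃ (m : ℕ) (s : ℕ → Subgroup G), IsPolycyclicSeries m s ∧
        {i | i < m ∧ Infinite (s (i + 1) ⧸ (s i).subgroupOf (s (i + 1)))}.ncard = h})
        ⟨_, m, s, hs, rfl⟩
    obtain ⟨c, hc0, hc⟩ := index_le_of_series hs
    intro i x hx h0 h1
    set N : ℤ := c * M.D * (∏ j, if E.d j = 0 then 1 else E.d j) * M.co x i with hN
    have hN0 : N ≠ 0 := mul_ne_zero (mul_ne_zero (mul_ne_zero (by exact_mod_cast hc0.ne')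
      M.D_pos.ne') (Finset.prod_ne_zero_iff.2 fun j _ => by split_ifs with h <;> simp [h])) h1
    refine (Nat.infinite_setOfPred_prime.sdiff (Set.finite_le_nat N.natAbs)).mono fun p hp => ?_
    have hp1 : p.Prime := hp.1
    have hp2 : ¬ (p : ℤ) ∣ N := fun h =>
      hp.2 (Nat.le_of_dvd (Int.natAbs_pos.2 hN0) (Int.natCast_dvd.1 h))
    have hD : ¬ (p : ℤ) ∣ M.D := fun h => hp2 (((h.mul_left _).mul_right _).mul_right _)
    have hcop : IsCoprime (p : ℤ) M.D := (Nat.prime_iff_prime_int.1 hp1).coprime_iff_not_dvd.2 hD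
    refine ⟨hp1, M.B p, inferInstance, hr ▸ hc p hp1 (fun h => hp2 ((((Int.natCast_dvd_natCast.2
      h).mul_right _).mul_right _).mul_right _)) _ inferInstance (fun g => ?_)
      (Model.index_ne_zero (by exact_mod_cast hp1.ne_zero) fun _ _ => Model.Cg.mem_B hcop),
      E.prime_sep hp1 hD (fun j hj h => hp2 (((h.trans ?_).mul_left _).mul_right _)) hx h0
        fun h => hp2 (h.mul_left _)⟩
    · simpa using Model.Cg.mem_B hcop ((Model.Cg.refl g).pow hcop
        (Int.modEq_zero_iff_dvd.2 (dvd_refl (p : ℤ))).symm)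
    · have := Finset.dvd_prod_of_mem (fun j => if E.d j = 0 then 1 else E.d j) (Finset.mem_univ j)
      rwa [if_neg hj] at this
  have hex : ∃ k, P k := ⟨_, hP⟩
  obtain ⟨J, hJn, hJ0, hJ⟩ := E.uniform
  obtain ⟨C, hC⟩ := uniform_bound M H (Nat.find hex) S
  have hb : ∀ n x, x ∉ H → InBall S n x →
      SepLe H x (J.index + (C * (Nat.log 2 (n + 2) + 1)) ^ Nat.find hex) := by
    intro n x h1 h2
    obtain ⟨η, hη, i, h3, h4⟩ := E.exit h1
    by_cases h0 : E.d i = 0
    · refine (hC n x h2 ((Nat.find_spec hex i _ h3 h0 (by simpa [h0] using h4)).mono ?_) _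
        (by omega) (Nat.lt_pow_succ_log_self one_lt_two _).le).mono (Nat.le_add_left _ _)
      rintro p ⟨hp, J, h5, h6, h7⟩
      exact ⟨hp, J, h5, h6, not_mem_of_mul hη h7⟩
    · exact (sepLe_of_not_mem hJ0 (not_mem_of_mul hη (hJ i _ h3 h0 h4))).mono (Nat.le_add_right _ _)
  refine ⟨Nat.find hex, Nat.find_min' hex hP, upper_bound hb, ?_⟩
  rcases Nat.eq_zero_or_eq_succ_pred (Nat.find hex) with h | h
  · refine ⟨1, one_pos, fun n _ => ?_⟩
    simpa [h] using one_le_sepGrowth hb n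
  · have h1 := Nat.find_min hex (m := (Nat.find hex).pred) (by omega)
    simp only [P, not_forall, Set.not_infinite] at h1
    obtain ⟨i, x, hx, h0, h2, h3⟩ := h1
    rw [h]
    refine lower_bound hb hS (fun m hm hH => ?_) h3
    have := E.dvd i _ hH (pow_mem hx m)
    rw [h0, zero_dvd_iff, ← zpow_natCast, Tri.co_zpow hx _ le_rfl, smul_eq_mul] at this
    exact mul_ne_zero (by exact_mod_cast hm) h2 this

end Pool.Agent.P.MP_5b4d81_al
end
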